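import Mathlib
import Pool.Agent.Lib.MP_695920_nt.Solv.Amb

set_option autoImplicit false

open Finset NumberField Module IsDedekindDomain
open scoped nonZeroDivisors Pointwise

namespace Pool.Agent.Lib.MP_695920_nt.Tow

open Pool.Agent.Lib.MP_695920_nt.Solv

section hilbert

variable {E L : Type} [Field E] [NumberField E] [Field L] [NumberField L] [Algebra E L]
  {G : Type*} [Group G] [Finite G] [MulSemiringAction G L]

/-- Hilbert 90 -/
lemma hilbert90 (σ : G) [hE : IsGaloisGroup (Subgroup.zpowers σ) E L] {x : L} (hx : Algebra.norm E x = 1) :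
    ∃ y : L, y ≠ 0 ∧ x * (σ • y) = y := by
  have hgal : IsGalois E L :=
    IsGaloisGroup.isGalois (Subgroup.zpowers σ) E L
  let e := IsGaloisGroup.mulEquivAlgEquiv (Subgroup.zpowers σ) E L
  have hcyc : IsCyclic Gal(L/E) :=
    isCyclic_of_surjective e.toMonoidHom e.surjective
  have hgen : ∀ x, x ∈ Subgroup.zpowers (e ⟨σ, Subgroup.mem_zpowers σ⟩) := by
    intro x
    obtain ⟨⟨z, hz⟩, rfl⟩ := e.surjective x
    obtain ⟨k, rfl⟩ := Subgroup.mem_zpowers_iff.mp hz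
    rw [Subgroup.mem_zpowers_iff]
    refine ⟨k, ?_⟩
    rw [← map_zpow]
    rfl
  obtain ⟨y, hy⟩ := groupCohomology.exists_div_of_norm_eq_one hgen hx
  refine ⟨y, y.ne_zero, ?_⟩
  have h1 : (e ⟨σ, Subgroup.mem_zpowers σ⟩) (y : L) = σ • (y : L) := rfl
  rw [h1] at hy
  have h2 : σ • (y : L) ≠ 0 := (smul_ne_zero_iff_ne σ).mpr y.ne_zero
  rw [← hy, div_mul_cancel₀ _ h2]

lemma hilbert90_int (σ : G) [hE : IsGaloisGroup (Subgroup.zpowers σ) E L] {x : L} (hx : Algebra.norm E x = 1) :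
    ∃ y : 𝓞 L, y ≠ 0 ∧ x * algebraMap (𝓞 L) L (σ • y) = algebraMap (𝓞 L) L y := by
  obtain ⟨y, hy0, hy⟩ := hilbert90 (E := E) σ hx
  obtain ⟨a, b, hb, hab⟩ := IsFractionRing.div_surjective (A := 𝓞 L) y
  have hb0 : b ≠ 0 := nonZeroDivisors.ne_zero hb
  obtain ⟨c, hc⟩ := Ideal.mem_span_singleton.mp (Ideal.absNorm_mem (Ideal.span {b}))
  set m := Ideal.absNorm (Ideal.span {b}) with hm
  have hm0 : m ≠ 0 := by
    rw [hm, Ne, Ideal.absNorm_eq_zero_iff]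
    simpa using hb0
  have hbL : (algebraMap (𝓞 L) L b) ≠ 0 := by simpa using hb0
  have h1 : algebraMap (𝓞 L) L (a * c) = (m : L) * y := by
    have h2 : (m : L) = algebraMap (𝓞 L) L b * algebraMap (𝓞 L) L c := by
      rw [← map_mul, ← hc, map_natCast]
    rw [h2, ← hab, map_mul]
    field_simp
  refine ⟨a * c, ?_, ?_⟩
  · intro h0
    rw [h0, map_zero] at h1
    have : (m : L) * y ≠ 0 := mul_ne_zero (by exact_mod_cast hm0) hy0
    exact this h1.symm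
  · have h3 : algebraMap (𝓞 L) L (σ • (a * c)) = σ • (algebraMap (𝓞 L) L (a * c)) := rfl
    rw [h3, h1, smul_mul']
    have h4 : σ • (m : L) = (m : L) := map_natCast (MulSemiringAction.toRingHom G L σ) m
    rw [h4]
    calc x * (↑m * σ • y) = m * (x * σ • y) := by ring
      _ = m * y := by rw [hy]

/-- two classes fixed by `σ` whose units agree modulo `ℓ`-th powers differ by the class of a
`σ`-invariant ideal -/
lemma exists_inv_ideal (σ : G) [hE : IsGaloisGroup (Subgroup.zpowers σ) E L] {I₁ I₂ : Ideal (𝓞 L)} (hI₁ : I₁ ≠ ⊥) (hI₂ : I₂ ≠ ⊥)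
    {a₁ b₁ a₂ b₂ : 𝓞 L} (ha₁ : a₁ ≠ 0) (hb₁ : b₁ ≠ 0) (ha₂ : a₂ ≠ 0) (hb₂ : b₂ ≠ 0)
    (h₁ : Ideal.span {a₁} * (σ • I₁) = Ideal.span {b₁} * I₁)
    (h₂ : Ideal.span {a₂} * (σ • I₂) = Ideal.span {b₂} * I₂)
    (w : (𝓞 E)ˣ)
    (hw : Algebra.intNorm (𝓞 E) (𝓞 L) b₁ *
        Algebra.intNorm (𝓞 E) (𝓞 L) a₂ =
      Algebra.intNorm (𝓞 E) (𝓞 L) a₁ *
        Algebra.intNorm (𝓞 E) (𝓞 L) b₂ *
        (w : 𝓞 E) ^
          finrank E L) :
    ∃ J : Ideal (𝓞 L), J ≠ ⊥ ∧ σ • J = J ∧ cls J * cls I₂ = cls I₁ := by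
  have hι : ∀ a : 𝓞 L, a ≠ 0 → algebraMap (𝓞 L) L a ≠ 0 := by
    intro a ha
    simpa using ha
  set wL : 𝓞 L := algebraMap (𝓞 E) (𝓞 L) w with hwLdef
  have hwL : wL ≠ 0 := (w.isUnit.map (algebraMap (𝓞 E) (𝓞 L))).ne_zero
  have hnorm := norm_div_eq_one (K := E) ha₁ hb₂ w hw
  rw [← hwLdef] at hnorm
  obtain ⟨y, hy0, hy⟩ := hilbert90_int (E := E) σ hnorm
  have hy' : b₁ * a₂ * (σ • y) = a₁ * b₂ * wL * y := by
    apply FaithfulSMul.algebraMap_injective (𝓞 L) L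
    rw [div_mul_eq_mul_div, div_eq_iff (hι _ (mul_ne_zero (mul_ne_zero ha₁ hb₂) hwL))] at hy
    rw [map_mul, map_mul, map_mul _ _ y, ← map_mul, hy]
    ring
  -- complement of I₂
  obtain ⟨I₂', hI₂'⟩ := Ideal.dvd_iff_le.mpr ((Ideal.span_singleton_le_iff_mem I₂).mpr (Ideal.absNorm_mem I₂))
  have hm0 : ((Ideal.absNorm I₂ : ℕ) : 𝓞 L) ≠ 0 := by
    have : Ideal.absNorm I₂ ≠ 0 := by rwa [Ne, Ideal.absNorm_eq_zero_iff]
    exact_mod_cast this
  have hσm : σ • ((Ideal.absNorm I₂ : ℕ) : 𝓞 L) = ((Ideal.absNorm I₂ : ℕ) : 𝓞 L) :=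
    map_natCast (MulSemiringAction.toRingHom G (𝓞 L) σ) _
  have hI₂0 : I₂' ≠ ⊥ := by
    rintro rfl
    rw [Ideal.mul_bot, Ideal.span_singleton_eq_bot] at hI₂'
    exact hm0 hI₂'
  have h3 : (σ • I₂) * (σ • I₂') = I₂ * I₂' := by
    rw [← smul_mul', ← hI₂', smul_span, hσm]
  have h4 : Ideal.span {b₂} * (σ • I₂') = Ideal.span {a₂} * I₂' := by
    apply mul_left_cancel₀ (a := I₂) hI₂
    calc I₂ * (Ideal.span {b₂} * (σ • I₂')) = (Ideal.span {b₂} * I₂) * (σ • I₂') := by ring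
      _ = (Ideal.span {a₂} * (σ • I₂)) * (σ • I₂') := by rw [h₂]
      _ = Ideal.span {a₂} * ((σ • I₂) * (σ • I₂')) := by ring
      _ = I₂ * (Ideal.span {a₂} * I₂') := by rw [h3]; ring
  have hspan : ∀ a : 𝓞 L, a ≠ 0 → Ideal.span {a} ≠ ⊥ := by
    intro a ha
    simpa using ha
  refine ⟨Ideal.span {y} * (I₁ * I₂'), ?_, ?_, ?_⟩
  · exact mul_ne_zero (hspan y hy0) (mul_ne_zero hI₁ hI₂0)
  · rw [smul_mul', smul_mul', smul_span]
    apply mul_left_cancel₀ (a := Ideal.span {a₁ * b₂}) (hspan _ (mul_ne_zero ha₁ hb₂))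
    have hwspan : Ideal.span {wL} = ⊤ := by
      rw [Ideal.span_singleton_eq_top]
      exact w.isUnit.map (algebraMap (𝓞 E) (𝓞 L))
    calc Ideal.span {a₁ * b₂} * (Ideal.span {σ • y} * ((σ • I₁) * (σ • I₂')))
        = Ideal.span {σ • y} * ((Ideal.span {a₁} * (σ • I₁)) * (Ideal.span {b₂} * (σ • I₂'))) := by
          rw [← Ideal.span_singleton_mul_span_singleton]; ring
      _ = Ideal.span {σ • y} * ((Ideal.span {b₁} * I₁) * (Ideal.span {a₂} * I₂')) := by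
          rw [h₁, h4]
      _ = (Ideal.span {b₁ * a₂ * (σ • y)}) * (I₁ * I₂') := by
          rw [← Ideal.span_singleton_mul_span_singleton, ← Ideal.span_singleton_mul_span_singleton]
          ring
      _ = (Ideal.span {a₁ * b₂ * wL * y}) * (I₁ * I₂') := by rw [hy']
      _ = Ideal.span {a₁ * b₂} * (Ideal.span {y} * (I₁ * I₂')) := by
          rw [← Ideal.span_singleton_mul_span_singleton, ← Ideal.span_singleton_mul_span_singleton,
            hwspan, Ideal.mul_top]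
          ring
  · rw [cls_mul (hspan y hy0) (mul_ne_zero hI₁ hI₂0), cls_span hy0, one_mul, cls_mul hI₁ hI₂0,
      mul_assoc, ← cls_mul hI₂0 hI₂, mul_comm I₂' I₂, ← hI₂', cls_span hm0, mul_one]

end hilbert

section decomp

variable {E L : Type} [Field E] [NumberField E] [Field L] [NumberField L] [Algebra E L]
  {G : Type*} [Group G] [Finite G] [MulSemiringAction G L]

/-- the norm to the fixed field -/
lemma map_relNorm_zpowers (σ : G) [hE : IsGaloisGroup (Subgroup.zpowers σ) E L] (P : Ideal (𝓞 L)) [Fintype (Subgroup.zpowers σ)] :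
    (Ideal.relNorm (𝓞 E) P).map
      (algebraMap (𝓞 E) (𝓞 L)) =
      ∏ h : Subgroup.zpowers σ, (h : G) • P := by
  have hGH : IsGaloisGroup (Subgroup.zpowers σ) (𝓞 E) (𝓞 L) :=
    IsGaloisGroup.of_isFractionRing (Subgroup.zpowers σ) (𝓞 E) (𝓞 L) E L
  rw [map_relNorm_eq (H := Subgroup.zpowers σ)]
  rfl

lemma relNorm_ne_bot {P : Ideal (𝓞 L)} (hP : P ≠ ⊥) :
    Ideal.relNorm (𝓞 E) P ≠ ⊥ := by
  rw [Ne, Ideal.relNorm_eq_bot_iff]
  exact hP

lemma cls_relNorm_mem {P : Ideal (𝓞 L)} (hP : P ≠ ⊥) :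
    cls ((Ideal.relNorm (𝓞 E) P).map
      (algebraMap (𝓞 E) (𝓞 L))) ∈
      (ClassGroup.extendedHom (𝓞 E) (𝓞 L)).range := by
  rw [← cls_map (relNorm_ne_bot hP)]
  exact ⟨_, rfl⟩

/-- an invariant unramified prime is extended -/
lemma eq_map_under {σ : G} [hE : IsGaloisGroup (Subgroup.zpowers σ) E L] {P : Ideal (𝓞 L)} (hP : P.IsPrime) (hP0 : P ≠ ⊥) (hσP : σ • P = P)
    (hram : ¬ P ^ 2 ∣ (P.under (𝓞 E)).map
      (algebraMap (𝓞 E) (𝓞 L))) :
    (P.under (𝓞 E)).map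
      (algebraMap (𝓞 E) (𝓞 L)) = P := by
  have hGH : IsGaloisGroup (Subgroup.zpowers σ) (𝓞 E) (𝓞 L) :=
    IsGaloisGroup.of_isFractionRing (Subgroup.zpowers σ) (𝓞 E) (𝓞 L) E L
  have hle : (P.under (𝓞 E)).map
      (algebraMap (𝓞 E) (𝓞 L)) ≤ P := Ideal.map_comap_le
  obtain ⟨C, hC⟩ := Ideal.dvd_iff_le.mpr hle
  have hq0 : P.under (𝓞 E) ≠ ⊥ :=
    Ideal.under_ne_bot (𝓞 E) hP0
  by_cases hCtop : C = ⊤
  · rw [hC, hCtop, Ideal.mul_top]
  exfalso
  obtain ⟨P', hP'max, hCP'⟩ := Ideal.exists_le_maximal C hCtop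
  have hP'p : P'.IsPrime := hP'max.isPrime
  have hPmax : P.IsMaximal := hP.isMaximal hP0
  have hqmax : (P.under (𝓞 E)).IsMaximal :=
    (Ideal.IsPrime.under _ P).isMaximal hq0
  have h1 : P.under (𝓞 E) =
      P'.under (𝓞 E) := by
    apply hqmax.eq_of_le (Ideal.IsPrime.under _ P').ne_top
    rw [Ideal.under, ← Ideal.map_le_iff_le_comap, hC]
    exact Ideal.mul_le_right.trans hCP'
  obtain ⟨g, hg⟩ := Algebra.IsInvariant.exists_smul_of_under_eq
    (𝓞 E) (𝓞 L) (Subgroup.zpowers σ) P P' h1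
  have h2 : (g : G) • P = P := smul_eq_of_mem_zpowers hσP g.2
  have h3 : P' = P := by
    rw [hg]
    exact h2
  rw [h3] at hCP'
  apply hram
  rw [hC, sq]
  exact mul_dvd_mul_left P (Ideal.dvd_iff_le.mpr hCP')

/-- the subgroup generated by extended classes and classes of invariant ramified primes -/
noncomputable def ambT (E : Type) [Field E] [NumberField E] [Algebra E L] (σ : G) (R : Finset (Ideal (𝓞 L))) : Subgroup (ClassGroup (𝓞 L)) :=
  (ClassGroup.extendedHom (𝓞 E) (𝓞 L)).range ⊔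
    Subgroup.closure (cls '' {P | P ∈ R ∧ P ≠ ⊥ ∧ σ • P = P})

lemma cls_orbit_mem (σ : G) [hE : IsGaloisGroup (Subgroup.zpowers σ) E L] {P : Ideal (𝓞 L)} (hP0 : P ≠ ⊥) [Fintype (Subgroup.zpowers σ)] :
    cls (∏ h : Subgroup.zpowers σ, (h : G) • P) ∈
      (ClassGroup.extendedHom (𝓞 E) (𝓞 L)).range := by
  rw [← map_relNorm_zpowers (E := E) σ P]
  exact cls_relNorm_mem hP0

lemma cls_mem_of_inv_prime {σ : G} [hE : IsGaloisGroup (Subgroup.zpowers σ) E L] {R : Finset (Ideal (𝓞 L))}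
    (hR : ∀ P : Ideal (𝓞 L), P.IsPrime → P ≠ ⊥ →
      P ^ 2 ∣ (P.under (𝓞 E)).map
        (algebraMap (𝓞 E) (𝓞 L)) → P ∈ R)
    {P : Ideal (𝓞 L)} (hP : P.IsPrime) (hP0 : P ≠ ⊥) (hσP : σ • P = P) : cls P ∈ ambT E σ R := by
  by_cases hram : P ^ 2 ∣ (P.under (𝓞 E)).map
      (algebraMap (𝓞 E) (𝓞 L))
  · apply Subgroup.mem_sup_right
    apply Subgroup.subset_closure
    exact ⟨P, ⟨hR P hP hP0 hram, hP0, hσP⟩, rfl⟩
  · apply Subgroup.mem_sup_left
    rw [← eq_map_under hP hP0 hσP hram, ← cls_map (Ideal.under_ne_bot _ hP0)]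
    exact ⟨_, rfl⟩

lemma cls_mem_ambT (σ : G) [hE : IsGaloisGroup (Subgroup.zpowers σ) E L] (hσ : (orderOf σ).Prime) {R : Finset (Ideal (𝓞 L))}
    (hR : ∀ P : Ideal (𝓞 L), P.IsPrime → P ≠ ⊥ →
      P ^ 2 ∣ (P.under (𝓞 E)).map
        (algebraMap (𝓞 E) (𝓞 L)) → P ∈ R) :
    ∀ (n : ℕ) (J : Ideal (𝓞 L)), Ideal.absNorm J = n → J ≠ ⊥ → σ • J = J → cls J ∈ ambT E σ R := by
  classical
  cases nonempty_fintype (Subgroup.zpowers σ)
  intro n
  induction n using Nat.strong_induction_on with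
  | _ n ih =>
  intro J hn hJ0 hσJ
  by_cases hJtop : J = ⊤
  · rw [hJtop, cls_top]
    exact one_mem _
  obtain ⟨P, hPmax, hJP⟩ := Ideal.exists_le_maximal J hJtop
  have hP : P.IsPrime := hPmax.isPrime
  have hP0 : P ≠ ⊥ := by
    rintro rfl
    exact hJ0 (le_bot_iff.mp hJP)
  -- the reduction step
  have step : ∀ F : Ideal (𝓞 L), F ∣ J → F ≠ ⊥ → F ≠ ⊤ → σ • F = F → cls F ∈ ambT E σ R →
      cls J ∈ ambT E σ R := by
    rintro F ⟨J', rfl⟩ hF0 hFtop hσF hFT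
    have hJ'0 : J' ≠ ⊥ := by
      rintro rfl
      exact hJ0 (Ideal.mul_bot F)
    have hσJ' : σ • J' = J' := by
      rw [smul_mul', hσF] at hσJ
      exact mul_left_cancel₀ hF0 hσJ
    have hlt : Ideal.absNorm J' < n := by
      rw [← hn, map_mul]
      have h1 : 0 < Ideal.absNorm J' := absNorm_pos_of_ne_bot hJ'0
      have h2 : 1 < Ideal.absNorm F := by
        have h3 : 0 < Ideal.absNorm F := absNorm_pos_of_ne_bot hF0
        have h4 : Ideal.absNorm F ≠ 1 := by rwa [Ne, Ideal.absNorm_eq_one_iff]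
        omega
      exact (Nat.lt_mul_iff_one_lt_left h1).mpr h2
    rw [cls_mul hF0 hJ'0]
    exact mul_mem hFT (ih _ hlt J' rfl hJ'0 hσJ')
  by_cases hσP : σ • P = P
  · exact step P (Ideal.dvd_iff_le.mpr hJP) hP0 hP.ne_top hσP (cls_mem_of_inv_prime hR hP hP0 hσP)
  · apply step (∏ h : Subgroup.zpowers σ, (h : G) • P) (orbit_prod_dvd hσ hσP hP hP0 hσJ hJP)
    · exact Finset.prod_ne_zero_iff.mpr (fun h _ => smul_ne_bot' _ hP0)
    · intro htop
      have h1 := dvd_orbit_prod σ P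
      rw [htop] at h1
      exact hP.ne_top (top_le_iff.mp (Ideal.le_of_dvd h1))
    · exact orbit_prod_inv σ P
    · exact Subgroup.mem_sup_left (cls_orbit_mem σ hP0)

end decomp

section bound

variable {E L : Type} [Field E] [NumberField E] [Field L] [NumberField L] [Algebra E L]
  {G : Type*} [Group G] [Finite G] [MulSemiringAction G L]

lemma relNorm_smul_zpowers (σ : G) [hE : IsGaloisGroup (Subgroup.zpowers σ) E L] (I : Ideal (𝓞 L)) :
    Ideal.relNorm (𝓞 E) (σ • I) =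
      Ideal.relNorm (𝓞 E) I := by
  have hGH : IsGaloisGroup (Subgroup.zpowers σ) (𝓞 E) (𝓞 L) :=
    IsGaloisGroup.of_isFractionRing (Subgroup.zpowers σ) (𝓞 E) (𝓞 L) E L
  exact Ideal.relNorm_smul (R := 𝓞 E)
    (⟨σ, Subgroup.mem_zpowers σ⟩ : Subgroup.zpowers σ) I

lemma exists_unit_of_fixed (σ : G) [hE : IsGaloisGroup (Subgroup.zpowers σ) E L] {x : ClassGroup (𝓞 L)} (hx : act L σ x = x) :
    ∃ (I : Ideal (𝓞 L)) (a b : 𝓞 L) (u : (𝓞 E)ˣ), I ≠ ⊥ ∧
      cls I = x ∧ a ≠ 0 ∧ b ≠ 0 ∧ Ideal.span {a} * (σ • I) = Ideal.span {b} * I ∧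
      Algebra.intNorm (𝓞 E) (𝓞 L) b =
        Algebra.intNorm (𝓞 E) (𝓞 L) a * u := by
  obtain ⟨I, hI0, rfl⟩ := cls_surj x
  rw [cls_smul σ hI0, cls_eq_iff (smul_ne_bot' σ hI0) hI0] at hx
  obtain ⟨a, b, ha, hb, hab⟩ := hx
  have h1 := congrArg (Ideal.relNorm (𝓞 E)) hab
  rw [map_mul, map_mul, relNorm_smul_zpowers, Ideal.relNorm_singleton, Ideal.relNorm_singleton] at h1
  have h2 := mul_right_cancel₀ (relNorm_ne_bot hI0) h1
  rw [Ideal.span_singleton_eq_span_singleton] at h2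
  obtain ⟨u, hu⟩ := h2
  exact ⟨I, a, b, u, hI0, rfl, ha, hb, hab, hu.symm⟩

lemma finrank_fix_zpowers (E : Type) [Field E] [NumberField E] [Algebra E L] (σ : G)
    [hE : IsGaloisGroup (Subgroup.zpowers σ) E L] : finrank E L = orderOf σ := by
  rw [← Nat.card_zpowers]
  exact (IsGaloisGroup.card_eq_finrank (Subgroup.zpowers σ) E L).symm

theorem amb_bound (σ : G) [hE : IsGaloisGroup (Subgroup.zpowers σ) E L] (hσ : (orderOf σ).Prime) {R : Finset (Ideal (𝓞 L))}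
    (hR : ∀ P : Ideal (𝓞 L), P.IsPrime → P ≠ ⊥ →
      P ^ 2 ∣ (P.under (𝓞 E)).map
        (algebraMap (𝓞 E) (𝓞 L)) → P ∈ R)
    {n : ℕ} (κ : (𝓞 E)ˣ → (Fin n → Fin (orderOf σ)))
    (hκ : ∀ u v, κ u = κ v → ∃ w : (𝓞 E)ˣ, u = v * w ^ (orderOf σ))
    (S : Subgroup (ClassGroup (𝓞 L))) (hS : ∀ x ∈ S, act L σ x = x) :
    Nat.card S ≤ (orderOf σ) ^ (n + R.card) *
      Nat.card (S ⊓ (ClassGroup.extendedHom (𝓞 E) (𝓞 L)).range :
        Subgroup (ClassGroup (𝓞 L))) := by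
  classical
  cases nonempty_fintype (Subgroup.zpowers σ)
  have hex := fun x : S => exists_unit_of_fixed (E := E) σ (hS x.1 x.2)
  choose I a b u hI0 hIx ha hb hab hu using hex
  -- first step: reduce to classes of invariant ideals
  have h1 : Nat.card S ≤ Nat.card (Fin n → Fin (orderOf σ)) * Nat.card (S ⊓ ambT E σ R :
      Subgroup (ClassGroup (𝓞 L))) := by
    apply card_le_of_fibers S (ambT E σ R) (fun x => κ (u x))
    intro x y hxy
    obtain ⟨w, hw⟩ := hκ _ _ hxy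
    obtain ⟨J, hJ0, hJ, hJc⟩ := exists_inv_ideal σ (hI0 x) (hI0 y) (ha x) (hb x) (ha y) (hb y)
      (hab x) (hab y) w (by
        rw [finrank_fix_zpowers E σ, hu x, hu y, hw]
        push_cast
        ring)
    have h2 : (x : ClassGroup (𝓞 L)) / y = cls J := by
      rw [← hIx x, ← hIx y, ← hJc, mul_div_cancel_right]
    rw [h2]
    exact cls_mem_ambT σ hσ hR _ J rfl hJ0 hJ
  -- second step: the ramified primes
  let R' : Finset (ClassGroup (𝓞 L)) := (R.filter (fun P => P ≠ ⊥ ∧ σ • P = P)).image cls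
  have h2 : ambT E σ R = (ClassGroup.extendedHom (𝓞 E) (𝓞 L)).range ⊔
      Subgroup.closure (R' : Set (ClassGroup (𝓞 L))) := by
    unfold ambT
    congr 2
    ext c
    simp only [R', Set.mem_image, Set.mem_setOf_eq, Finset.coe_image, Finset.coe_filter]
  have h3 := card_inf_sup_closure S
    (ClassGroup.extendedHom (𝓞 E) (𝓞 L)).range hσ.pos R' (by
      intro g hg
      obtain ⟨P, hP, rfl⟩ := Finset.mem_image.mp hg
      obtain ⟨-, hP0, hσP⟩ := Finset.mem_filter.mp hP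
      have h4 : ∏ h : Subgroup.zpowers σ, (h : G) • P = P ^ (orderOf σ) := by
        rw [Finset.prod_congr rfl (fun h _ => smul_eq_of_mem_zpowers hσP h.2), Finset.prod_const,
          Finset.card_univ, ← Nat.card_eq_fintype_card, Nat.card_zpowers]
      rw [← cls_pow hP0, ← h4]
      exact cls_orbit_mem σ hP0)
  rw [← h2] at h3
  have h5 : R'.card ≤ R.card := Finset.card_image_le.trans (Finset.card_filter_le _ _)
  have h6 : Nat.card (Fin n → Fin (orderOf σ)) = (orderOf σ) ^ n := by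
    rw [Nat.card_fun, Nat.card_fin, Nat.card_fin]
  rw [h6] at h1
  refine h1.trans ?_
  rw [pow_add, mul_assoc]
  apply Nat.mul_le_mul_left
  refine h3.trans ?_
  apply Nat.mul_le_mul_right
  exact Nat.pow_le_pow_right hσ.pos h5

end bound

end Pool.Agent.Lib.MP_695920_nt.Tow
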