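import Mathlib

set_option autoImplicit false

open NumberField

namespace Pool.Agent.Lib.MP_695920_nt.Tow

/-- two primes of `K` above `p` and above the same prime of `F` -/
def TwoRel (F K : Type*) [Field F] [Field K] [Algebra F K] (p : ℕ) : Prop :=
  ∃ Q1 Q2 : Ideal (𝓞 K), Q1.IsPrime ∧ Q2.IsPrime ∧ (p : 𝓞 K) ∈ Q1 ∧ (p : 𝓞 K) ∈ Q2 ∧
    Q1.under (𝓞 F) = Q2.under (𝓞 F) ∧ Q1 ≠ Q2

/-- two primes of `L` above `p` which are equal in `A` but different in `B` -/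
def TwoUp (A B L : Type*) [Field A] [Field B] [Field L] [Algebra A L] [Algebra B L] (p : ℕ) : Prop :=
  ∃ P1 P2 : Ideal (𝓞 L), P1.IsPrime ∧ P2.IsPrime ∧ (p : 𝓞 L) ∈ P1 ∧ (p : 𝓞 L) ∈ P2 ∧
    P1.under (𝓞 A) = P2.under (𝓞 A) ∧ P1.under (𝓞 B) ≠ P2.under (𝓞 B)

end Pool.Agent.Lib.MP_695920_nt.Tow
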