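import Mathlib
import Pool.Agent.Lib.MP_695920_nt.Solv.DiscIneq

set_option autoImplicit false

open Finset NumberField Module IsDedekindDomain
open scoped nonZeroDivisors Pointwise IntermediateField

namespace Pool.Agent.Lib.MP_695920_nt.Tow

namespace RelD

open Pool.Agent.Lib.MP_695920_nt.Solv

/-- the fixed field -/
abbrev fixR {F L : Type*} [Field F] [Field L] [Algebra F L] (R : Subgroup Gal(L/F)) :
    IntermediateField F L := FixedPoints.intermediateField R

section gen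

variable {A B C : Type*} [CommRing A] [IsDedekindDomain A] [CommRing B] [CommRing C]
  [IsDedekindDomain B] [IsDedekindDomain C] [Algebra A B] [Algebra A C]
  [Module.Finite A B] [Module.Finite A C] [IsTorsionFree A B] [IsTorsionFree A C] [CharZero A]

lemma different_le_map_rel (σ : B ≃ₐ[A] C) :
    differentIdeal A C ≤ (differentIdeal A B).map (σ : B →+* C) := by
  let _ : Algebra B C := (σ : B →+* C).toAlgebra
  have h1 : algebraMap B C = (σ : B →+* C) := rfl
  have : IsScalarTower A B C := by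
    refine IsScalarTower.of_algebraMap_eq fun x => ?_
    rw [h1]
    exact (σ.commutes x).symm
  have : Module.Finite B C := Module.Finite.of_restrictScalars_finite A B C
  have : FaithfulSMul B C := (faithfulSMul_iff_algebraMap_injective B C).mpr σ.injective
  have : IsTorsionFree B C := inferInstance
  have : CharZero (FractionRing A) := inferInstance
  have h2 := differentIdeal_eq_differentIdeal_mul_differentIdeal A B C
  rw [h2, ← h1]
  exact Ideal.mul_le_right (I := differentIdeal B C)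
    (J := (differentIdeal A B).map (algebraMap B C))

end gen

variable {F : Type*} [Field F] [NumberField F]

lemma max_of_prime {K : Type*} [Field K] [NumberField K] {q : Ideal (𝓞 K)} (hq : q.IsPrime)
    (hq0 : q ≠ ⊥) : q.IsMaximal := hq.isMaximal hq0

omit [NumberField F] in
lemma ne_bot_of_over {E : Type*} [Field E] [NumberField E] [Algebra F E] {q : Ideal (𝓞 F)}
    (hq0 : q ≠ ⊥) {P : Ideal (𝓞 E)} (h : P.LiesOver q) : P ≠ ⊥ := by
  rintro rfl
  apply hq0
  rw [h.over, Ideal.under_bot]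

lemma absNorm_pow_inertiaDeg {E : Type*} [Field E] [NumberField E] [Algebra F E]
    (q : Ideal (𝓞 F)) (P : Ideal (𝓞 E)) [q.IsMaximal] [P.IsMaximal] [P.LiesOver q] :
    Ideal.absNorm P = Ideal.absNorm q ^ P.inertiaDeg (𝓞 F) := by
  rw [← Ideal.absNorm_relNorm (𝓞 F) (𝓞 E) P, Ideal.relNorm_eq_pow_of_isMaximal P q, map_pow]

lemma gal_fixR {L : Type*} [Field L] [NumberField L] [Algebra F L] [IsGalois F L]
    (R : Subgroup Gal(L/F)) : IsGaloisGroup R (𝓞 (fixR R)) (𝓞 L) :=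
  IsGaloisGroup.of_isFractionRing R (𝓞 (fixR R)) (𝓞 L) (fixR R) L

/-- the exponent of the relative different of a Galois extension -/
theorem diff_exp_rel {E : Type*} [Field E] [NumberField E] [Algebra F E] [IsGalois F E]
    {q : Ideal (𝓞 F)} (hq : q.IsPrime) (hq0 : q ≠ ⊥) {P : Ideal (𝓞 E)} (hP : P.IsPrime)
    (hPo : P.LiesOver q) {k : ℕ} (hk : ((finrank F E : ℕ) : 𝓞 F) ∉ q ^ k) :
    ¬ P ^ (P.ramificationIdx (𝓞 F) * k) ∣ differentIdeal (𝓞 F) (𝓞 E) := by
  intro hdvd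
  have hmax : q.IsMaximal := max_of_prime hq hq0
  have hall : ∀ Q ∈ q.primesOver (𝓞 E),
      Q ^ (Q.ramificationIdx (𝓞 F) * k) ∣ differentIdeal (𝓞 F) (𝓞 E) := by
    intro Q hQ
    have := hQ.1
    have := hQ.2
    obtain ⟨σ, rfl⟩ := Ideal.exists_smul_eq_of_isGaloisGroup q P Q Gal(E/F)
    rw [Ideal.ramificationIdx_smul, ← smul_pow']
    obtain ⟨J, hJ⟩ := hdvd
    have h1 : σ • P ^ (P.ramificationIdx (𝓞 F) * k) ∣ σ • differentIdeal (𝓞 F) (𝓞 E) := by
      rw [hJ, smul_mul']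
      exact dvd_mul_right _ _
    refine h1.trans ?_
    rw [Ideal.dvd_iff_le]
    exact different_le_map_rel (A := 𝓞 F) (B := 𝓞 E) (C := 𝓞 E)
      (MulSemiringAction.toAlgEquiv (𝓞 F) (𝓞 E) σ)
  have hprod : Ideal.map (algebraMap (𝓞 F) (𝓞 E)) (q ^ k) ∣ differentIdeal (𝓞 F) (𝓞 E) := by
    rw [Ideal.map_pow, Ideal.map_algebraMap_eq_finsetProd_pow hq0, ← Finset.prod_pow]
    apply Finset.prod_dvd_of_isRelPrime
    · intro Q hQ Q' hQ' hne
      simp only [Set.coe_toFinset] at hQ hQ'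
      have hQ0 := Ideal.ne_bot_of_mem_primesOver hq0 hQ
      have hQ0' := Ideal.ne_bot_of_mem_primesOver hq0 hQ'
      have hm : Q.IsMaximal := hQ.1.isMaximal hQ0
      have hm' : Q'.IsMaximal := hQ'.1.isMaximal hQ0'
      apply IsCoprime.isRelPrime
      apply IsCoprime.pow
      apply IsCoprime.pow
      exact Ideal.isCoprime_of_isMaximal hne
    · intro Q hQ
      rw [← pow_mul]
      exact hall Q (by simpa using hQ)
  refine not_dvd_differentIdeal_of_intTrace_not_mem (𝓞 F)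
    (Ideal.map (algebraMap (𝓞 F) (𝓞 E)) (q ^ k)) ⊤ (p := q ^ k) (by simp) 1 trivial ?_ hprod
  have h1 : Algebra.intTrace (𝓞 F) (𝓞 E) 1 = ((finrank F E : ℕ) : 𝓞 F) := by
    apply FaithfulSMul.algebraMap_injective (𝓞 F) F
    rw [Algebra.algebraMap_intTrace (A := 𝓞 F) (K := F) (L := E) (B := 𝓞 E), map_one, map_natCast,
      ← map_one (algebraMap F E), Algebra.trace_algebraMap, nsmul_one]
  rw [h1]
  exact hk

/-- the correction ideal -/
noncomputable def corrR (E : Type*) [Field E] [NumberField E] [Algebra F E]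
    (S : Finset (Ideal (𝓞 F))) : Ideal (𝓞 E) :=
  ∏ q ∈ S, ∏ P ∈ IsDedekindDomain.primesOverFinset q (𝓞 E), P ^ (P.ramificationIdx (𝓞 F) - 1)

lemma mem_pof {E : Type*} [Field E] [NumberField E] [Algebra F E] {q : Ideal (𝓞 F)}
    (hq : q.IsPrime) (hq0 : q ≠ ⊥) {P : Ideal (𝓞 E)} :
    P ∈ IsDedekindDomain.primesOverFinset q (𝓞 E) ↔ P.IsPrime ∧ P.LiesOver q := by
  have hmax : q.IsMaximal := max_of_prime hq hq0
  rw [IsDedekindDomain.mem_primesOverFinset_iff hq0]
  rfl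

theorem corrR_ne_bot {E : Type*} [Field E] [NumberField E] [Algebra F E]
    (S : Finset (Ideal (𝓞 F))) (hS : ∀ q ∈ S, q.IsPrime ∧ q ≠ ⊥) : corrR E S ≠ ⊥ := by
  rw [corrR, ← Ideal.zero_eq_bot, Finset.prod_ne_zero_iff]
  intro q hq
  obtain ⟨hqp, hq0⟩ := hS q hq
  rw [Finset.prod_ne_zero_iff]
  intro P hP
  rw [mem_pof hqp hq0] at hP
  exact pow_ne_zero _ (ne_bot_of_over hq0 hP.2)

theorem pow_ram_dvd_rel {E : Type*} [Field E] [NumberField E] [Algebra F E] {q : Ideal (𝓞 F)}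
    (hq : q.IsPrime) (hq0 : q ≠ ⊥) {P : Ideal (𝓞 E)} (hP : P.IsPrime) (hPo : P.LiesOver q) :
    P ^ (P.ramificationIdx (𝓞 F)) ∣ q.map (algebraMap (𝓞 F) (𝓞 E)) := by
  have hmax : q.IsMaximal := max_of_prime hq hq0
  rw [Ideal.map_algebraMap_eq_finsetProd_pow hq0]
  exact Finset.dvd_prod_of_mem (fun P : Ideal (𝓞 E) => P ^ P.ramificationIdx (𝓞 F))
    (Set.mem_toFinset.mpr ⟨hP, hPo⟩)

theorem different_dvd_rel {E : Type*} [Field E] [NumberField E] [Algebra F E] [IsGalois F E]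
    (S : Finset (Ideal (𝓞 F)))
    (hS : ∀ P : Ideal (𝓞 E), P.IsPrime → P ∣ differentIdeal (𝓞 F) (𝓞 E) → P.under (𝓞 F) ∈ S)
    (hSp : ∀ q ∈ S, q.IsPrime ∧ q ≠ ⊥) :
    differentIdeal (𝓞 F) (𝓞 E) ∣ Ideal.span {((finrank F E : ℕ) : 𝓞 E)} * corrR E S := by
  have hn0 : finrank F E ≠ 0 := finrank_pos.ne'
  have hn0' : Ideal.span {((finrank F E : ℕ) : 𝓞 E)} ≠ ⊥ := by
    simpa using hn0
  apply dvd_of_forall_prime_pow (differentIdeal_ne_bot)
  · exact mul_ne_zero hn0' (corrR_ne_bot S hSp)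
  intro P hP hP0 m hm
  rcases Nat.eq_zero_or_pos m with rfl | hm0
  · simp
  have hPD : P ∣ differentIdeal (𝓞 F) (𝓞 E) := (dvd_pow_self P hm0.ne').trans hm
  set q := P.under (𝓞 F) with hq
  have hPo : P.LiesOver q := ⟨rfl⟩
  have hqS := hS P hP hPD
  obtain ⟨hqp, hq0⟩ := hSp _ hqS
  -- exponent bound
  set e := P.ramificationIdx (𝓞 F) with he
  have hd0 : Ideal.span {((finrank F E : ℕ) : 𝓞 F)} ≠ ⊥ := by simpa using hn0
  obtain ⟨v, R, hv, hR⟩ := exists_mult (Ideal.prime_of_isPrime hq0 hqp) hd0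
  have hv1 : ((finrank F E : ℕ) : 𝓞 F) ∈ q ^ v := by
    rw [← Ideal.span_singleton_le_iff_mem, hv]
    exact Ideal.mul_le_left
  have hv2 : ((finrank F E : ℕ) : 𝓞 F) ∉ q ^ (v + 1) := by
    intro h
    rw [← Ideal.span_singleton_le_iff_mem, ← Ideal.dvd_iff_le, hv, pow_succ] at h
    exact hR ((mul_dvd_mul_iff_left (pow_ne_zero v hq0)).mp h)
  have h3 := diff_exp_rel hqp hq0 hP hPo hv2
  have hlt : m < e * (v + 1) := by
    by_contra hle
    exact h3 ((pow_dvd_pow P (not_lt.mp hle)).trans hm)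
  have he0 : 0 < e := Nat.pos_of_ne_zero (by rintro h; simp [h] at hlt)
  have hle : m ≤ e * v + (e - 1) := by
    rw [mul_add, mul_one] at hlt
    omega
  refine (pow_dvd_pow P hle).trans ?_
  rw [pow_add]
  apply mul_dvd_mul
  · rw [pow_mul]
    refine (pow_dvd_pow_of_dvd (pow_ram_dvd_rel hqp hq0 hP hPo) v).trans ?_
    rw [← Ideal.map_pow, Ideal.dvd_iff_le, Ideal.span_singleton_le_iff_mem,
      ← map_natCast (algebraMap (𝓞 F) (𝓞 E))]
    exact Ideal.mem_map_of_mem _ hv1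
  · rw [corrR]
    refine dvd_trans ?_ (Finset.dvd_prod_of_mem _ hqS)
    exact Finset.dvd_prod_of_mem (fun P : Ideal (𝓞 E) => P ^ (P.ramificationIdx (𝓞 F) - 1))
      ((mem_pof hqp hq0).mpr ⟨hP, hPo⟩)

theorem absNorm_corrR {E : Type*} [Field E] [NumberField E] [Algebra F E] [IsGalois F E]
    (S : Finset (Ideal (𝓞 F))) (hSp : ∀ q ∈ S, q.IsPrime ∧ q ≠ ⊥) :
    Ideal.absNorm (corrR E S) = ∏ q ∈ S,
      Ideal.absNorm q ^ (finrank F E - finrank F E / q.ramificationIdxIn (𝓞 E)) := by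
  rw [corrR, map_prod]
  refine Finset.prod_congr rfl fun q hqS => ?_
  obtain ⟨hqp, hq0⟩ := hSp q hqS
  have hmax : q.IsMaximal := max_of_prime hqp hq0
  have h1 : ∀ P ∈ IsDedekindDomain.primesOverFinset q (𝓞 E),
      Ideal.absNorm (P ^ (P.ramificationIdx (𝓞 F) - 1)) =
        Ideal.absNorm q ^ (q.inertiaDegIn (𝓞 E) * (q.ramificationIdxIn (𝓞 E) - 1)) := by
    intro P hP
    rw [mem_pof hqp hq0] at hP
    have := hP.1
    have := hP.2
    have hPm : P.IsMaximal := max_of_prime hP.1 (ne_bot_of_over hq0 hP.2)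
    rw [map_pow, absNorm_pow_inertiaDeg q P, ← pow_mul,
      Ideal.inertiaDegIn_eq_inertiaDeg q P Gal(E/F),
      Ideal.ramificationIdxIn_eq_ramificationIdx q P Gal(E/F)]
  rw [map_prod, Finset.prod_congr rfl h1, Finset.prod_const, ← pow_mul]
  congr 1
  have h2 := Ideal.ncard_primesOver_mul_ramificationIdxIn_mul_inertiaDegIn q (𝓞 E) Gal(E/F)
  rw [IsGalois.card_aut_eq_finrank] at h2
  have h3 : (IsDedekindDomain.primesOverFinset q (𝓞 E)).card = (q.primesOver (𝓞 E)).ncard := by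
    rw [← IsDedekindDomain.coe_primesOverFinset hq0, Set.ncard_coe_finset]
  rw [h3]
  have he0 : q.ramificationIdxIn (𝓞 E) ≠ 0 := Ideal.ramificationIdxIn_ne_zero Gal(E/F)
  have h4 : finrank F E / q.ramificationIdxIn (𝓞 E) =
      (q.primesOver (𝓞 E)).ncard * q.inertiaDegIn (𝓞 E) := by
    rw [← h2]
    apply Nat.div_eq_of_eq_mul_left (Nat.pos_of_ne_zero he0)
    ring
  rw [h4, ← h2]
  obtain ⟨e, he⟩ : ∃ e, q.ramificationIdxIn (𝓞 E) = e + 1 := Nat.exists_eq_succ_of_ne_zero he0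
  rw [he, Nat.add_sub_cancel]
  have : (q.primesOver (𝓞 E)).ncard * ((e + 1) * q.inertiaDegIn (𝓞 E)) =
    q.inertiaDegIn (𝓞 E) * e * (q.primesOver (𝓞 E)).ncard
      + (q.primesOver (𝓞 E)).ncard * q.inertiaDegIn (𝓞 E) := by ring
  omega

theorem diff_dvd_galois_rel {E : Type*} [Field E] [NumberField E] [Algebra F E] [IsGalois F E]
    (S : Finset (Ideal (𝓞 F)))
    (hS : ∀ P : Ideal (𝓞 E), P.IsPrime → P ∣ differentIdeal (𝓞 F) (𝓞 E) → P.under (𝓞 F) ∈ S)
    (hSp : ∀ q ∈ S, q.IsPrime ∧ q ≠ ⊥) :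
    Ideal.absNorm (differentIdeal (𝓞 F) (𝓞 E)) ∣ (finrank F E) ^ (finrank ℚ E) * ∏ q ∈ S,
      Ideal.absNorm q ^ (finrank F E - finrank F E / q.ramificationIdxIn (𝓞 E)) := by
  have h1 := Ideal.absNorm_dvd_absNorm_of_le (Ideal.dvd_iff_le.mp (different_dvd_rel (E := E) S hS hSp))
  rwa [map_mul, Ideal.absNorm_span_natCast, RingOfIntegers.rank, absNorm_corrR S hSp] at h1

theorem prod_dvd_diff_rel {K : Type*} [Field K] [NumberField K] [Algebra F K]
    (S : Finset (Ideal (𝓞 F))) (hSp : ∀ q ∈ S, q.IsPrime ∧ q ≠ ⊥) :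
    ∏ q ∈ S, Ideal.absNorm q ^ (∑ P ∈ IsDedekindDomain.primesOverFinset q (𝓞 K),
      P.inertiaDeg (𝓞 F) * (P.ramificationIdx (𝓞 F) - 1)) ∣
        Ideal.absNorm (differentIdeal (𝓞 F) (𝓞 K)) := by
  classical
  let T : Ideal (𝓞 F) → Finset (Ideal (𝓞 K)) := fun q =>
    IsDedekindDomain.primesOverFinset q (𝓞 K)
  have h1 : ∏ x ∈ S.sigma T, (x.2 : Ideal (𝓞 K)) ^ (x.2.ramificationIdx (𝓞 F) - 1) ∣
      differentIdeal (𝓞 F) (𝓞 K) := by
    apply Finset.prod_dvd_of_coprime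
    · intro x hx y hy hxy
      rw [Finset.mem_coe, Finset.mem_sigma] at hx hy
      obtain ⟨p, P⟩ := x
      obtain ⟨q, Q⟩ := y
      obtain ⟨hp, hP⟩ := hx
      obtain ⟨hq, hQ⟩ := hy
      obtain ⟨hp', hp0⟩ := hSp p hp
      obtain ⟨hq', hq0⟩ := hSp q hq
      obtain ⟨hPp, hPo⟩ := (mem_pof hp' hp0).mp hP
      obtain ⟨hQp, hQo⟩ := (mem_pof hq' hq0).mp hQ
      have hPM : P.IsMaximal := hPp.isMaximal (ne_bot_of_over hp0 hPo)
      have hQM : Q.IsMaximal := hQp.isMaximal (ne_bot_of_over hq0 hQo)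
      have hne : P ≠ Q := by
        rintro rfl
        apply hxy
        have h4 : p = q := hPo.over.trans hQo.over.symm
        subst h4
        rfl
      change IsCoprime (P ^ (P.ramificationIdx (𝓞 F) - 1)) (Q ^ (Q.ramificationIdx (𝓞 F) - 1))
      apply IsCoprime.pow
      rw [Ideal.isCoprime_iff_sup_eq]
      exact Ideal.IsMaximal.coprime_of_ne hPM hQM hne
    · rintro ⟨p, P⟩ hx
      rw [Finset.mem_sigma] at hx
      obtain ⟨hp, hP⟩ := hx
      obtain ⟨hp', hp0⟩ := hSp p hp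
      have hmax : p.IsMaximal := max_of_prime hp' hp0
      obtain ⟨hPp, hPo⟩ := (mem_pof hp' hp0).mp hP
      exact pow_sub_one_dvd_differentIdeal (𝓞 F) P _ hp0 (pow_ram_dvd_rel hp' hp0 hPp hPo)
  have h2 := Ideal.absNorm_dvd_absNorm_of_le (Ideal.le_of_dvd h1)
  rw [map_prod, Finset.prod_sigma] at h2
  refine dvd_trans (dvd_of_eq ?_) h2
  apply Finset.prod_congr rfl
  intro q hq
  obtain ⟨hq', hq0⟩ := hSp q hq
  have hmax : q.IsMaximal := max_of_prime hq' hq0
  rw [← Finset.prod_pow_eq_pow_sum]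
  apply Finset.prod_congr rfl
  intro P hP
  obtain ⟨hPp, hPo⟩ := (mem_pof hq' hq0).mp hP
  have hPM : P.IsMaximal := hPp.isMaximal (ne_bot_of_over hq0 hPo)
  rw [map_pow, absNorm_pow_inertiaDeg q P, pow_mul]

section ram

variable {L : Type*} [Field L] [NumberField L] [Algebra F L] [IsGalois F L]

omit [NumberField F] [NumberField L] [IsGalois F L] in
lemma inertia_subgroup_rel (R : Subgroup Gal(L/F)) (Q : Ideal (𝓞 L)) :
    Nat.card (Q.inertia R) = Nat.card ((Q.inertia Gal(L/F)) ⊓ R : Subgroup Gal(L/F)) := by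
  rw [← AddSubgroup.inertia_map_subtype]
  exact (Nat.card_congr (Subgroup.equivMapOfInjective _ _ R.subtype_injective).toEquiv)

/-- ramification indices in terms of inertia groups -/
lemma ram_fix_rel {q : Ideal (𝓞 F)} (hq : q.IsPrime) (hq0 : q ≠ ⊥) {Q : Ideal (𝓞 L)}
    (hQ : Q.IsPrime) (hQo : Q.LiesOver q) (R : Subgroup Gal(L/F)) :
    (Q.under (𝓞 (fixR R))).ramificationIdx (𝓞 F) *
      Nat.card ((Q.inertia Gal(L/F)) ⊓ R : Subgroup Gal(L/F)) = Nat.card (Q.inertia Gal(L/F)) := by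
  have hQ0 := ne_bot_of_over hq0 hQo
  have hmax : q.IsMaximal := max_of_prime hq hq0
  have hQmax : Q.IsMaximal := hQ.isMaximal hQ0
  have hfin : Finite (𝓞 F ⧸ q) := Ring.HasFiniteQuotients.finiteQuotient hq0
  have hgal := gal_fixR (L := L) R
  set P := Q.under (𝓞 (fixR R)) with hP
  have hPp : P.IsPrime := inferInstance
  have hPQ : Q.LiesOver P := ⟨rfl⟩
  have hPo : P.LiesOver q := Ideal.LiesOver.tower_bot Q P q
  have hP0 : P ≠ ⊥ := ne_bot_of_over hq0 hPo
  have hPmax : P.IsMaximal := hPp.isMaximal hP0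
  have hfinP : Finite (𝓞 (fixR R) ⧸ P) := Ring.HasFiniteQuotients.finiteQuotient hP0
  have h1 := Ideal.card_inertia_eq_ramificationIdxIn (G := Gal(L/F)) q Q
  have h2 := Ideal.card_inertia_eq_ramificationIdxIn (G := R) P Q
  rw [Ideal.ramificationIdxIn_eq_ramificationIdx q Q Gal(L/F)] at h1
  rw [Ideal.ramificationIdxIn_eq_ramificationIdx P Q R] at h2
  have h3 := Ideal.ramificationIdx_tower (R := 𝓞 F) P Q
  rw [← inertia_subgroup_rel, h2, h1, h3]

lemma card_inertia_eq_rel {q : Ideal (𝓞 F)} (hq : q.IsPrime) (hq0 : q ≠ ⊥) {Q Q' : Ideal (𝓞 L)}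
    (hQ : Q.IsPrime) (hQo : Q.LiesOver q) (hQ' : Q'.IsPrime) (hQo' : Q'.LiesOver q) :
    Nat.card (Q.inertia Gal(L/F)) = Nat.card (Q'.inertia Gal(L/F)) := by
  have hmax : q.IsMaximal := max_of_prime hq hq0
  have hfin : Finite (𝓞 F ⧸ q) := Ring.HasFiniteQuotients.finiteQuotient hq0
  rw [Ideal.card_inertia_eq_ramificationIdxIn (G := Gal(L/F)) q Q,
    Ideal.card_inertia_eq_ramificationIdxIn (G := Gal(L/F)) q Q']

omit [NumberField F] [NumberField L] in
lemma finrank_fixR_mul (R : Subgroup Gal(L/F)) :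
    finrank F (fixR R) * Nat.card R = Nat.card Gal(L/F) := by
  rw [IsGaloisGroup.card_eq_finrank R (fixR R) L, IsGaloisGroup.card_eq_finrank Gal(L/F) F L]
  exact finrank_mul_finrank F (fixR R) L

omit [Algebra F L] [IsGalois F L] in
/-- the fundamental identity -/
lemma sum_ef_rel {K : Type*} [Field K] [NumberField K] [Algebra F K] {q : Ideal (𝓞 F)}
    (hq : q.IsPrime) (hq0 : q ≠ ⊥) :
    ∑ P ∈ IsDedekindDomain.primesOverFinset q (𝓞 K),
      P.ramificationIdx (𝓞 F) * P.inertiaDeg (𝓞 F) = finrank F K := by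
  have hmax : q.IsMaximal := max_of_prime hq hq0
  rw [← Ideal.sum_ramification_inertia (𝓞 K) F K hq0]
  apply Finset.sum_congr rfl
  intro P hP
  obtain ⟨hPp, hPo⟩ := (mem_pof hq hq0).mp hP
  have hPM : P.IsMaximal := hPp.isMaximal (ne_bot_of_over hq0 hPo)
  rw [Ideal.ramificationIdx'_eq_ramificationIdx _ P hq0, Ideal.inertiaDeg'_eq_inertiaDeg]

omit [IsGalois F L] in
/-- every prime of the intermediate field lies under a prime of `L` -/
lemma exists_above_rel {q : Ideal (𝓞 F)} (hq0 : q ≠ ⊥) {K : IntermediateField F L}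
    {P : Ideal (𝓞 K)} (hP : P.IsPrime) (hPo : P.LiesOver q) :
    ∃ Q : Ideal (𝓞 L), Q.IsPrime ∧ Q.LiesOver q ∧ Q.under (𝓞 K) = P := by
  have hPM : P.IsMaximal := hP.isMaximal (ne_bot_of_over hq0 hPo)
  obtain ⟨Q, hQM, hQo⟩ := Ideal.exists_maximal_ideal_liesOver_of_isIntegral (S := 𝓞 L) P
  exact ⟨Q, hQM.isPrime, Ideal.LiesOver.trans Q P _, hQo.over.symm⟩

omit [NumberField F] [NumberField L] [IsGalois F L] in
lemma inertia_conj_rel {Q : Ideal (𝓞 L)} {g i : Gal(L/F)}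
    (hg : g ∈ MulAction.stabilizer Gal(L/F) Q)
    (hi : i ∈ Q.inertia Gal(L/F)) : g * i * g⁻¹ ∈ Q.inertia Gal(L/F) := by
  rw [AddSubgroup.mem_inertia] at hi ⊢
  intro x
  have h1 := hi (g⁻¹ • x)
  have h2 : g • Q = Q := hg
  rw [Submodule.mem_toAddSubgroup] at h1 ⊢
  have h3 : (g * i * g⁻¹) • x - x = g • (i • (g⁻¹ • x) - g⁻¹ • x) := by
    rw [smul_sub, smul_inv_smul, mul_smul, mul_smul]
  rw [h3, ← h2]
  exact Ideal.smul_mem_pointwise_smul _ _ _ h1

/-- below a field fixed by a group containing the decomposition group, the prime has relative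
degree one and is unramified -/
lemma under_deg_one_rel {q : Ideal (𝓞 F)} (hq : q.IsPrime) (hq0 : q ≠ ⊥) {P : Ideal (𝓞 L)}
    (hP : P.IsPrime) (hPo : P.LiesOver q) {R : Subgroup Gal(L/F)}
    (hR : MulAction.stabilizer Gal(L/F) P ≤ R) :
    (P.under (𝓞 (fixR R))).ramificationIdx (𝓞 F) = 1 ∧
      (P.under (𝓞 (fixR R))).inertiaDeg (𝓞 F) = 1 := by
  classical
  have hmax : q.IsMaximal := max_of_prime hq hq0
  have hPmax : P.IsMaximal := hP.isMaximal (ne_bot_of_over hq0 hPo)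
  have hfin : Finite (𝓞 F ⧸ q) := Ring.HasFiniteQuotients.finiteQuotient hq0
  have hgal := gal_fixR (L := L) R
  set Q := P.under (𝓞 (fixR R)) with hQ
  have hQp : Q.IsPrime := inferInstance
  have hPQ : P.LiesOver Q := ⟨rfl⟩
  have hQover : Q.LiesOver q := Ideal.LiesOver.tower_bot P Q q
  have hQ0 : Q ≠ ⊥ := ne_bot_of_over hq0 hQover
  have hQmax : Q.IsMaximal := hQp.isMaximal hQ0
  have hfinQ : Finite (𝓞 (fixR R) ⧸ Q) := Ring.HasFiniteQuotients.finiteQuotient hQ0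
  -- the two orders of the decomposition groups
  have h1 := Ideal.card_stabilizer_eq (G := Gal(L/F)) q P
  have h2 := Ideal.card_stabilizer_eq (G := R) Q P
  rw [Ideal.ramificationIdxIn_eq_ramificationIdx q P Gal(L/F),
    Ideal.inertiaDegIn_eq_inertiaDeg q P Gal(L/F)] at h1
  rw [Ideal.ramificationIdxIn_eq_ramificationIdx Q P R,
    Ideal.inertiaDegIn_eq_inertiaDeg Q P R] at h2
  have h3 : Nat.card (MulAction.stabilizer R P) = Nat.card (MulAction.stabilizer Gal(L/F) P) := by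
    have h4 : MulAction.stabilizer R P = (MulAction.stabilizer Gal(L/F) P).subgroupOf R := by
      ext g
      rw [MulAction.mem_stabilizer_iff, Subgroup.mem_subgroupOf, MulAction.mem_stabilizer_iff]
      rfl
    rw [h4]
    exact Nat.card_congr (Subgroup.subgroupOfEquivOfLe hR).toEquiv
  have h4 := Ideal.ramificationIdx_tower (R := 𝓞 F) Q P
  have h5 := Ideal.inertiaDeg_tower (R := 𝓞 F) Q P
  have h2' : Nat.card (MulAction.stabilizer R P) =
      P.ramificationIdx (𝓞 (fixR R)) * P.inertiaDeg (𝓞 (fixR R)) := h2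
  rw [h3, h1, h4, h5] at h2'
  have e1 := Ideal.ramificationIdx_pos P (𝓞 (fixR R))
  have e2 := Ideal.inertiaDeg_pos P (𝓞 (fixR R))
  have e3 : 0 < P.ramificationIdx (𝓞 (fixR R)) * P.inertiaDeg (𝓞 (fixR R)) := Nat.mul_pos e1 e2
  have h6 : (Q.ramificationIdx (𝓞 F) * Q.inertiaDeg (𝓞 F)) *
      (P.ramificationIdx (𝓞 (fixR R)) * P.inertiaDeg (𝓞 (fixR R))) =
      1 * (P.ramificationIdx (𝓞 (fixR R)) * P.inertiaDeg (𝓞 (fixR R))) := by
    rw [one_mul]
    refine Eq.trans ?_ h2'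
    ring
  have h7 := Nat.eq_of_mul_eq_mul_right e3 h6
  exact ⟨Nat.eq_one_of_mul_eq_one_right h7, Nat.eq_one_of_mul_eq_one_left h7⟩

omit [NumberField L] [IsGalois F L] in
lemma exists_prime_above_rel {q : Ideal (𝓞 F)} (hq : q.IsPrime) (hq0 : q ≠ ⊥) :
    ∃ Q : Ideal (𝓞 L), Q.IsPrime ∧ Q.LiesOver q := by
  have hmax : q.IsMaximal := max_of_prime hq hq0
  obtain ⟨Q, hQM, hQo⟩ := Ideal.exists_maximal_ideal_liesOver_of_isIntegral (S := 𝓞 L) q
  exact ⟨Q, hQM.isPrime, hQo⟩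

/-- the ramification inequality -/
theorem ram_ineq_rel (N H : Subgroup Gal(L/F))
    (hNn : N.Normal) (hN : (Nat.card N).Prime) (hNH : N ⊓ H = ⊥) (hNH' : N ⊔ H = ⊤)
    (hcomm : ∀ g k : Gal(L/F), g * k * g⁻¹ * k⁻¹ ∈ N)
    (hfix : ∀ h ∈ H, h ≠ 1 → ∀ n ∈ N, h * n = n * h → n = 1) {q : Ideal (𝓞 F)}
    (hq : q.IsPrime) (hq0 : q ≠ ⊥) :
    (Nat.card N - 1) * (Nat.card H -
        Nat.card H / q.ramificationIdxIn (𝓞 (fixR N))) ≤
      Nat.card H * ∑ P ∈ IsDedekindDomain.primesOverFinset q (𝓞 (fixR H)),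
        P.inertiaDeg (𝓞 F) * (P.ramificationIdx (𝓞 F) - 1) := by
  classical
  have hmax : q.IsMaximal := max_of_prime hq hq0
  set T := IsDedekindDomain.primesOverFinset q (𝓞 (fixR H)) with hT
  set e := q.ramificationIdxIn (𝓞 (fixR N)) with he
  set l := Nat.card N with hl
  set d := Nat.card H with hd
  have hd0 : 0 < d := Nat.card_pos
  have hcard := card_complement hNn hNH hNH'
  have hK : finrank F (fixR H) = l := by
    have h1 := finrank_fixR_mul (L := L) H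
    rw [← hcard] at h1
    exact Nat.eq_of_mul_eq_mul_right hd0 h1
  have hE : finrank F (fixR N) = d := by
    have h1 := finrank_fixR_mul (L := L) N
    rw [← hcard, mul_comm (Nat.card N)] at h1
    exact Nat.eq_of_mul_eq_mul_right Nat.card_pos h1
  have hsum : ∑ P ∈ T, P.ramificationIdx (𝓞 F) * P.inertiaDeg (𝓞 F) = l := by
    rw [← hK]
    exact sum_ef_rel hq hq0
  have hgalE : IsGalois F (fixR N) := IsGalois.of_fixedField_normal_subgroup N
  -- choose primes above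
  have hch : ∀ P ∈ T, ∃ Q : Ideal (𝓞 L), Q.IsPrime ∧ Q.LiesOver q ∧
      Q.under (𝓞 (fixR H)) = P := by
    intro P hP
    obtain ⟨hPp, hPo⟩ := (mem_pof hq hq0).mp hP
    exact exists_above_rel hq0 hPp hPo
  -- the ramification index in E
  have heE : ∀ Q : Ideal (𝓞 L), Q.IsPrime → Q.LiesOver q →
      e * Nat.card ((Q.inertia Gal(L/F)) ⊓ N : Subgroup Gal(L/F)) =
        Nat.card (Q.inertia Gal(L/F)) := by
    intro Q hQ hQo
    rw [← ram_fix_rel hq hq0 hQ hQo N]
    congr 1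
    have hPo : (Q.under (𝓞 (fixR N))).LiesOver q :=
      Ideal.LiesOver.tower_bot Q (Q.under (𝓞 (fixR N))) q
    exact Ideal.ramificationIdxIn_eq_ramificationIdx q
      (Q.under (𝓞 (fixR N))) Gal((fixR N)/F)
  have he0 : 0 < e := by
    obtain ⟨P, hP, hPo⟩ := exists_prime_above_rel (L := L) hq hq0
    have h1 := heE P hP hPo
    have h2 : 0 < Nat.card (P.inertia Gal(L/F)) := Nat.card_pos
    exact Nat.pos_of_mul_pos_right (by rw [h1]; exact h2)
  have hed : e ∣ d := by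
    have h3 := Ideal.ncard_primesOver_mul_ramificationIdxIn_mul_inertiaDegIn q
      (𝓞 (fixR N)) Gal((fixR N)/F)
    rw [IsGalois.card_aut_eq_finrank, hE] at h3
    rw [← h3]
    exact Dvd.dvd.mul_left (Dvd.intro _ rfl) _
  obtain ⟨d', hd'⟩ := hed
  have hdiv : d / e = d' := by
    rw [hd', Nat.mul_div_cancel_left _ he0]
  rw [hdiv]
  obtain ⟨Q0, hQ0p, hQ0o⟩ := exists_prime_above_rel (L := L) hq hq0
  set m := Nat.card ((Q0.inertia Gal(L/F)) ⊓ N : Subgroup Gal(L/F)) with hm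
  have hmQ : ∀ Q : Ideal (𝓞 L), Q.IsPrime → Q.LiesOver q →
      Nat.card ((Q.inertia Gal(L/F)) ⊓ N : Subgroup Gal(L/F)) = m := by
    intro Q hQ hQo
    have h1 := heE Q hQ hQo
    rw [card_inertia_eq_rel hq hq0 hQ hQo hQ0p hQ0o, ← heE Q0 hQ0p hQ0o] at h1
    exact Nat.eq_of_mul_eq_mul_left he0 h1
  have hml : m ∣ l := by
    rw [hm, hl]
    exact Subgroup.card_dvd_of_le inf_le_right
  rcases (Nat.dvd_prime hN).mp hml with hm1 | hml'
  · -- the case of trivial intersection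
    have hIN : ∀ Q : Ideal (𝓞 L), Q.IsPrime → Q.LiesOver q →
        (Q.inertia Gal(L/F)) ⊓ N = ⊥ := by
      intro Q hQ hQo
      exact Subgroup.eq_bot_of_card_eq _ (by rw [hmQ Q hQ hQo, hm1])
    have hIe : ∀ Q : Ideal (𝓞 L), Q.IsPrime → Q.LiesOver q →
        Nat.card (Q.inertia Gal(L/F)) = e := by
      intro Q hQ hQo
      rw [← heE Q hQ hQo, hmQ Q hQ hQo, hm1, mul_one]
    let Sp : Ideal (𝓞 (fixR H)) → Prop := fun P => ∃ Q : Ideal (𝓞 L), Q.IsPrime ∧
      Q.LiesOver q ∧ Q.under (𝓞 (fixR H)) = P ∧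
      MulAction.stabilizer Gal(L/F) Q ≤ H ∧ (Q.inertia Gal(L/F)) ⊓ H ≠ ⊥
    have hterm : ∀ P ∈ T, e * (P.inertiaDeg (𝓞 F) * (P.ramificationIdx (𝓞 F) - 1)) +
        (e - 1) * (if Sp P then 1 else 0) = (e - 1) * (P.ramificationIdx (𝓞 F) * P.inertiaDeg (𝓞 F)) := by
      intro P hP
      obtain ⟨Q, hQ, hQo, hQP⟩ := hch P hP
      by_cases hIH : (Q.inertia Gal(L/F)) ⊓ H = ⊥
      · have h1 := ram_fix_rel hq hq0 hQ hQo H
        rw [hIH, Subgroup.card_bot, mul_one, hIe Q hQ hQo, hQP] at h1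
        have h2 : ¬ Sp P := by
          rintro ⟨Q', hQ', hQo', hQP', hst, hne'⟩
          have h3 := ram_fix_rel hq hq0 hQ' hQo' H
          rw [hIe Q' hQ' hQo', hQP', h1] at h3
          have h4 : Nat.card ((Q'.inertia Gal(L/F)) ⊓ H : Subgroup Gal(L/F)) = 1 := by
            have h5 : e * Nat.card ((Q'.inertia Gal(L/F)) ⊓ H : Subgroup Gal(L/F)) = e * 1 := by
              rw [h3, mul_one]
            exact Nat.eq_of_mul_eq_mul_left he0 h5
          exact hne' (Subgroup.eq_bot_of_card_eq _ h4)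
        rw [if_neg h2, h1]
        ring
      · obtain ⟨h, hhI, hh1⟩ := (sub_ne_bot_iff _).mp hIH
        have hst : MulAction.stabilizer Gal(L/F) Q ≤ H :=
          frob_stab_le hNn hNH hNH' hcomm hfix (hIN Q hQ hQo)
            (fun g hg i hi => inertia_conj_rel hg hi)
            hhI.2 hhI.1 hh1
        have h1 := under_deg_one_rel hq hq0 hQ hQo hst
        rw [hQP] at h1
        have h2 : Sp P := ⟨Q, hQ, hQo, hQP, hst, hIH⟩
        rw [if_pos h2, h1.1, h1.2]
        simp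
    have hone : ∑ P ∈ T, (if Sp P then 1 else 0) ≤ 1 := by
      rw [← Finset.card_filter, Finset.card_le_one]
      intro P1 hP1 P2 hP2
      rw [mem_filter] at hP1 hP2
      obtain ⟨Q1, hQ1, hQo1, hQP1, hst1, hne1⟩ := hP1.2
      obtain ⟨Q2, hQ2, hQo2, hQP2, hst2, hne2⟩ := hP2.2
      obtain ⟨g, hg⟩ := Ideal.exists_smul_eq_of_isGaloisGroup q Q1 Q2
        Gal(L/F)
      obtain ⟨h, hhI, hh1⟩ := (sub_ne_bot_iff _).mp hne1
      have h1 : g * h * g⁻¹ ∈ MulAction.stabilizer Gal(L/F) Q2 := by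
        have h2 : h • Q1 = Q1 := Ideal.inertia_le_stabilizer (M := Gal(L/F)) Q1 hhI.1
        rw [MulAction.mem_stabilizer_iff, ← hg, ← mul_smul, inv_mul_cancel_right, mul_smul, h2]
      have h2 : g ∈ H := frob_malnormal hNn hNH hNH' hcomm hfix hhI.2 hh1 (hst2 h1)
      have hgal := gal_fixR (L := L) H
      rw [← hQP1, ← hQP2, ← hg]
      have h3 : g • Q1 = (⟨g, h2⟩ : H) • Q1 := rfl
      rw [h3]
      exact (Ideal.under_smul (𝓞 (fixR H)) Q1 (⟨g, h2⟩ : H)).symm
    have hfin1 : e * (∑ P ∈ T, P.inertiaDeg (𝓞 F) * (P.ramificationIdx (𝓞 F) - 1)) +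
        (e - 1) * (∑ P ∈ T, (if Sp P then 1 else 0)) = (e - 1) * l := by
      rw [← hsum, Finset.mul_sum, Finset.mul_sum, Finset.mul_sum, ← Finset.sum_add_distrib]
      exact Finset.sum_congr rfl hterm
    have hfin2 : (e - 1) * (l - 1) ≤
        e * (∑ P ∈ T, P.inertiaDeg (𝓞 F) * (P.ramificationIdx (𝓞 F) - 1)) := by
      have h1 : (e - 1) * (∑ P ∈ T, (if Sp P then 1 else 0)) ≤ (e - 1) * 1 :=
        Nat.mul_le_mul_left _ hone
      have h2 : (e - 1) * (l - 1) = (e - 1) * l - (e - 1) * 1 := Nat.mul_sub _ _ _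
      omega
    have h3 : d - d' = d' * (e - 1) := by
      rw [hd', Nat.mul_sub, mul_one, mul_comm]
    calc (l - 1) * (d - d') = d' * ((e - 1) * (l - 1)) := by rw [h3]; ring
      _ ≤ d' * (e * (∑ P ∈ T, P.inertiaDeg (𝓞 F) * (P.ramificationIdx (𝓞 F) - 1))) :=
        Nat.mul_le_mul_left _ hfin2
      _ = d * (∑ P ∈ T, P.inertiaDeg (𝓞 F) * (P.ramificationIdx (𝓞 F) - 1)) := by
        rw [hd']; ring
  · -- the totally ramified case
    have hram : ∀ P ∈ T, P.ramificationIdx (𝓞 F) = l := by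
      intro P hP
      obtain ⟨Q, hQ, hQo, hQP⟩ := hch P hP
      have h1 : N ≤ Q.inertia Gal(L/F) := by
        have h2 : (Q.inertia Gal(L/F)) ⊓ N = N := by
          apply Subgroup.eq_of_le_of_card_ge inf_le_right
          rw [hmQ Q hQ hQo, hml']
        exact inf_eq_right.mp h2
      have h2 := ram_fix_rel hq hq0 hQ hQo H
      rw [card_of_le hNn hNH hNH' h1, hQP] at h2
      exact Nat.eq_of_mul_eq_mul_right Nat.card_pos h2
    have h1 : ∑ P ∈ T, P.ramificationIdx (𝓞 F) * P.inertiaDeg (𝓞 F) = l * ∑ P ∈ T, P.inertiaDeg (𝓞 F) := by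
      rw [Finset.mul_sum]
      exact Finset.sum_congr rfl fun P hP => by rw [hram P hP]
    rw [hsum] at h1
    have h2 : ∑ P ∈ T, P.inertiaDeg (𝓞 F) = 1 := by
      have : l * 1 = l * ∑ P ∈ T, P.inertiaDeg (𝓞 F) := by rw [mul_one]; exact h1
      exact (Nat.eq_of_mul_eq_mul_left hN.pos this).symm
    have h3 : ∑ P ∈ T, P.inertiaDeg (𝓞 F) * (P.ramificationIdx (𝓞 F) - 1) = l - 1 := by
      rw [Finset.sum_congr rfl fun P hP => by rw [hram P hP], ← Finset.sum_mul, h2, one_mul]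
    rw [h3, mul_comm]
    exact Nat.mul_le_mul_right _ (Nat.sub_le _ _)

end ram

end RelD

open RelD Pool.Agent.Lib.MP_695920_nt.Solv in
/-- Task T: the relative discriminant inequality -/
theorem rel_disc_ineq {F L : Type*} [Field F] [NumberField F] [Field L] [NumberField L]
    [Algebra F L] [IsGalois F L] (N H : Subgroup Gal(L/F))
    (hNn : N.Normal) (hN : (Nat.card N).Prime) (hNH : N ⊓ H = ⊥) (hNH' : N ⊔ H = ⊤)
    (hcomm : ∀ g k : Gal(L/F), g * k * g⁻¹ * k⁻¹ ∈ N)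
    (hfix : ∀ h ∈ H, h ≠ 1 → ∀ n ∈ N, h * n = n * h → n = 1)
    (a : ℕ) (ha : Nat.card H * a = Nat.card N - 1) :
    (discr (FixedPoints.intermediateField N : IntermediateField F L)).natAbs ^ a *
        (discr F).natAbs ≤
      Nat.card H ^ (finrank ℚ F * (Nat.card N - 1)) *
        (discr (FixedPoints.intermediateField H : IntermediateField F L)).natAbs := by
  classical
  set E : IntermediateField F L := FixedPoints.intermediateField N with hE
  set M : IntermediateField F L := FixedPoints.intermediateField H with hM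
  have hgal : IsGalois F E := IsGalois.of_fixedField_normal_subgroup N
  set l := Nat.card N with hl
  set d := Nat.card H with hd
  have hd0 : 0 < d := Nat.card_pos
  have hl1 : 1 < l := hN.one_lt
  have hcard := card_complement hNn hNH hNH'
  have hMf : finrank F M = l := by
    have h1 := finrank_fixR_mul (L := L) H
    rw [← hcard] at h1
    exact Nat.eq_of_mul_eq_mul_right hd0 h1
  have hEf : finrank F E = d := by
    have h1 := finrank_fixR_mul (L := L) N
    rw [← hcard, mul_comm (Nat.card N)] at h1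
    exact Nat.eq_of_mul_eq_mul_right Nat.card_pos h1
  have hEq : finrank ℚ E = finrank ℚ F * d := by
    rw [← hEf, finrank_mul_finrank]
  -- the tower formulas
  have tE := NumberField.natAbs_discr_eq_absNorm_differentIdeal_mul_natAbs_discr_pow F (𝓞 F) E (𝓞 E)
  have tM := NumberField.natAbs_discr_eq_absNorm_differentIdeal_mul_natAbs_discr_pow F (𝓞 F) M (𝓞 M)
  rw [hEf] at tE
  rw [hMf] at tM
  set DE := Ideal.absNorm (differentIdeal (𝓞 F) (𝓞 E)) with hDE
  set DM := Ideal.absNorm (differentIdeal (𝓞 F) (𝓞 M)) with hDM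
  -- the set of ramified primes
  have hdiff0 : differentIdeal (𝓞 F) (𝓞 E) ≠ ⊥ := differentIdeal_ne_bot
  have hdiffM0 : differentIdeal (𝓞 F) (𝓞 M) ≠ ⊥ := differentIdeal_ne_bot
  set S : Finset (Ideal (𝓞 F)) := (UniqueFactorizationMonoid.normalizedFactors
    (differentIdeal (𝓞 F) (𝓞 E))).toFinset.image (fun P => P.under (𝓞 F)) with hS
  have hSmem : ∀ P : Ideal (𝓞 E), P.IsPrime → P ∣ differentIdeal (𝓞 F) (𝓞 E) →
      P.under (𝓞 F) ∈ S := by
    intro P hP hPd
    have hP0 : P ≠ ⊥ := by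
      rintro rfl
      exact hdiff0 (by rwa [← Ideal.zero_eq_bot, zero_dvd_iff] at hPd)
    rw [hS, Finset.mem_image]
    refine ⟨P, ?_, rfl⟩
    rw [Multiset.mem_toFinset]
    obtain ⟨Q, hQ, hQa⟩ := UniqueFactorizationMonoid.exists_mem_normalizedFactors_of_dvd hdiff0
      (Ideal.prime_of_isPrime hP0 hP).irreducible hPd
    rwa [associated_iff_eq.mp hQa]
  have hSp : ∀ q ∈ S, q.IsPrime ∧ q ≠ ⊥ := by
    intro q hq
    rw [hS, Finset.mem_image] at hq
    obtain ⟨P, hP, rfl⟩ := hq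
    rw [Multiset.mem_toFinset] at hP
    have hPp : Prime P := UniqueFactorizationMonoid.prime_of_normalized_factor P hP
    have hPi : P.IsPrime := Ideal.isPrime_of_prime hPp
    refine ⟨inferInstance, ?_⟩
    exact Ideal.under_ne_bot (𝓞 F) hPp.ne_zero
  have h1 := diff_dvd_galois_rel (E := E) S hSmem hSp
  have h2 := prod_dvd_diff_rel (K := M) S hSp
  rw [hEf, hEq] at h1
  have hpos : ∀ q ∈ S, 0 < Ideal.absNorm q := by
    intro q hq
    exact Nat.pos_of_ne_zero (by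
      rw [Ne, Ideal.absNorm_eq_zero_iff]
      exact (hSp q hq).2)
  have h3 := Nat.le_of_dvd (by
    apply Nat.mul_pos (pow_pos hd0 _)
    exact Finset.prod_pos (fun q hq => pow_pos (hpos q hq) _)) h1
  have hDM0 : 0 < DM := Nat.pos_of_ne_zero (by
    rw [hDM, Ne, Ideal.absNorm_eq_zero_iff]
    exact hdiffM0)
  have h4 := Nat.le_of_dvd hDM0 h2
  have key : DE ^ (l - 1) ≤ (d ^ (finrank ℚ F * (l - 1)) * DM) ^ d := by
    calc DE ^ (l - 1)
        ≤ (d ^ (finrank ℚ F * d) * ∏ q ∈ S,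
            Ideal.absNorm q ^ (d - d / q.ramificationIdxIn (𝓞 E))) ^ (l - 1) :=
          Nat.pow_le_pow_left h3 _
      _ = d ^ (finrank ℚ F * d * (l - 1)) * ∏ q ∈ S,
            Ideal.absNorm q ^ ((l - 1) * (d - d / q.ramificationIdxIn (𝓞 E))) := by
          rw [mul_pow, ← pow_mul, ← Finset.prod_pow]
          congr 1
          apply Finset.prod_congr rfl
          intro q _
          rw [← pow_mul, mul_comm]
      _ ≤ d ^ (finrank ℚ F * d * (l - 1)) * ∏ q ∈ S,
            Ideal.absNorm q ^ (d * ∑ P ∈ IsDedekindDomain.primesOverFinset q (𝓞 M),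
              P.inertiaDeg (𝓞 F) * (P.ramificationIdx (𝓞 F) - 1)) := by
          apply Nat.mul_le_mul_left
          apply Finset.prod_le_prod'
          intro q hq
          exact Nat.pow_le_pow_right (hpos q hq)
            (ram_ineq_rel N H hNn hN hNH hNH' hcomm hfix (hSp q hq).1 (hSp q hq).2)
      _ = d ^ (finrank ℚ F * d * (l - 1)) * (∏ q ∈ S,
            Ideal.absNorm q ^ (∑ P ∈ IsDedekindDomain.primesOverFinset q (𝓞 M),
              P.inertiaDeg (𝓞 F) * (P.ramificationIdx (𝓞 F) - 1))) ^ d := by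
          congr 1
          rw [← Finset.prod_pow]
          apply Finset.prod_congr rfl
          intro q _
          rw [← pow_mul, mul_comm]
      _ ≤ d ^ (finrank ℚ F * d * (l - 1)) * DM ^ d :=
          Nat.mul_le_mul_left _ (Nat.pow_le_pow_left h4 _)
      _ = (d ^ (finrank ℚ F * (l - 1)) * DM) ^ d := by
          rw [mul_pow, ← pow_mul]
          congr 2
          ring
  have key2 : DE ^ a ≤ d ^ (finrank ℚ F * (l - 1)) * DM := by
    have key' : (DE ^ a) ^ d ≤ (d ^ (finrank ℚ F * (l - 1)) * DM) ^ d := by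
      rw [← pow_mul, mul_comm a d, ha]
      exact key
    exact (Nat.pow_le_pow_iff_left hd0.ne').mp key'
  calc (discr E).natAbs ^ a * (discr F).natAbs
      = DE ^ a * (discr F).natAbs ^ l := by
        rw [tE, mul_pow, ← pow_mul, ha, mul_assoc, ← pow_succ]
        congr 2
        omega
    _ ≤ (d ^ (finrank ℚ F * (l - 1)) * DM) * (discr F).natAbs ^ l := Nat.mul_le_mul_right _ key2
    _ = d ^ (finrank ℚ F * (l - 1)) * (discr M).natAbs := by
        rw [tM, mul_assoc]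

end Pool.Agent.Lib.MP_695920_nt.Tow
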