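import Mathlib
import Pool.Agent.Lib.MP_695920_nt.Tow.AmbR
import Pool.Agent.Lib.MP_695920_nt.Solv.Omega

set_option autoImplicit false

open Finset NumberField Module IsDedekindDomain
open scoped nonZeroDivisors Pointwise

namespace Pool.Agent.Lib.MP_695920_nt.Tow

open Pool.Agent.Lib.MP_695920_nt.Solv

section fixed

variable {M L : Type} [Field M] [NumberField M] [Field L] [NumberField L] [Algebra M L]
  {G : Type*} [Group G] [Finite G] [MulSemiringAction G L]

omit [Finite G] [NumberField M] [NumberField L] in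
lemma smul_map_of_memR (H : Subgroup G) [hH : IsGaloisGroup H M L] {h : G} (hh : h ∈ H)
    (I : Ideal (𝓞 M)) :
    h • (I.map (algebraMap (𝓞 M) (𝓞 L))) = I.map (algebraMap (𝓞 M) (𝓞 L)) := by
  rw [Ideal.pointwise_smul_def, Ideal.map_map]
  congr 1
  ext x
  have hx : (⟨h, hh⟩ : H) • (algebraMap M L (x : M)) = algebraMap M L (x : M) :=
    smul_algebraMap (⟨h, hh⟩ : H) (x : M)
  exact hx

omit [Finite G] in
lemma act_ext_of_memR (H : Subgroup G) [hH : IsGaloisGroup H M L] {h : G} (hh : h ∈ H)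
    (x : ClassGroup (𝓞 M)) :
    act L h (ClassGroup.extendedHom (𝓞 M) (𝓞 L) x) =
      ClassGroup.extendedHom (𝓞 M) (𝓞 L) x := by
  obtain ⟨I, hI, rfl⟩ := cls_surj x
  rw [cls_map hI, cls_smul h (map_ne_bot' hI), smul_map_of_memR H hh]

omit G [Finite G] [Group G] [MulSemiringAction G L] in
lemma nrm_extR (x : ClassGroup (𝓞 M)) :
    (idMap_relNorm (K := M) (L := L)).cl (ClassGroup.extendedHom (𝓞 M) (𝓞 L) x) =
      x ^ finrank M L := by
  obtain ⟨I, hI, rfl⟩ := cls_surj x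
  have h1 : (idMap_relNorm (K := M) (L := L)).cl (cls (I.map (algebraMap (𝓞 M) (𝓞 L)))) =
      cls (Ideal.relNorm (𝓞 M) (I.map (algebraMap (𝓞 M) (𝓞 L)))) := by
    rw [cls_of_ne (map_ne_bot' hI), IdMap.cl_mk0, ← cls_coe]
    rfl
  rw [cls_map hI, h1, Ideal.relNorm_algebraMap, finrank_int, cls_pow hI]

omit [Finite G] in
/-- torsion prime to the degree injects -/
lemma card_tors_le_fixedR (τ : G) [hH : IsGaloisGroup (Subgroup.zpowers τ) M L] {p : ℕ}
    (hp : p.Prime) (hd : ¬ p ∣ orderOf τ) :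
    Nat.card {x : ClassGroup (𝓞 M) // x ^ p = 1} ≤
      Nat.card {x : ClassGroup (𝓞 L) // x ^ p = 1 ∧ act L τ x = x} := by
  let f : {x : ClassGroup (𝓞 M) // x ^ p = 1} →
      {x : ClassGroup (𝓞 L) // x ^ p = 1 ∧ act L τ x = x} := fun x =>
    ⟨ClassGroup.extendedHom (𝓞 M) (𝓞 L) x.1, by
      rw [← map_pow, x.2, map_one], act_ext_of_memR _ (Subgroup.mem_zpowers τ) _⟩
  apply Nat.card_le_card_of_injective f
  rintro ⟨x, hx⟩ ⟨y, hy⟩ hxy
  have h1 : ClassGroup.extendedHom (𝓞 M) (𝓞 L) x =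
      ClassGroup.extendedHom (𝓞 M) (𝓞 L) y := congrArg Subtype.val hxy
  have h2 := congrArg (idMap_relNorm (K := M) (L := L)).cl h1
  have hfin : finrank M L = orderOf τ := by
    rw [← Nat.card_zpowers]
    exact (IsGaloisGroup.card_eq_finrank (Subgroup.zpowers τ) M L).symm
  rw [nrm_extR, nrm_extR, hfin] at h2
  apply Subtype.ext
  change x = y
  have h3 : (x / y) ^ p = 1 := by rw [div_pow, hx, hy, div_one]
  have h4 : (x / y) ^ orderOf τ = 1 := by rw [div_pow, h2, div_self']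
  have h5 : (x / y) ^ (Nat.gcd p (orderOf τ)) = 1 := by
    rw [← orderOf_dvd_iff_pow_eq_one] at h3 h4 ⊢
    exact Nat.dvd_gcd h3 h4
  rw [(Nat.Prime.coprime_iff_not_dvd hp).mpr hd, pow_one, div_eq_one] at h5
  exact h5

end fixed

section rel

variable {F E L : Type} [Field F] [NumberField F] [Field E] [NumberField E] [Field L]
  [NumberField L] [Algebra F E] [Algebra E L] [Algebra F L] [IsScalarTower F E L]
  {G : Type*} [Group G] [Finite G] [MulSemiringAction G L] [hG : IsGaloisGroup G F L]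

lemma prod_all_smulR [Fintype G] (I : Ideal (𝓞 L)) :
    (Ideal.relNorm (𝓞 F) I).map (algebraMap (𝓞 F) (𝓞 L)) = ∏ g : G, g • I := by
  have h1 : IsGaloisGroup G (𝓞 F) (𝓞 L) := IsGaloisGroup.of_isFractionRing G (𝓞 F) (𝓞 L) F L
  exact map_relNorm_eq (K := F) (H := G) I

/-- the product of the `H`-conjugates of an ideal extended from the fixed field of a normal
complement of `H` is extended from the base -/
lemma prod_complement [Fintype G] (N H : Subgroup G) [Fintype H] [hN : IsGaloisGroup N E L]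
    (hbij : Function.Bijective (fun x : H × N => (x.1 : G) * x.2)) (C : Ideal (𝓞 E)) :
    (∏ h : H, (h : G) • (C.map (algebraMap (𝓞 E) (𝓞 L)))) =
      (Ideal.relNorm (𝓞 F) C).map (algebraMap (𝓞 F) (𝓞 L)) := by
  classical
  cases nonempty_fintype N
  set CL := C.map (algebraMap (𝓞 E) (𝓞 L)) with hCL
  have hN0 : Nat.card N ≠ 0 := Nat.card_pos.ne'
  have h1 : (∏ h : H, (h : G) • CL) ^ Nat.card N = ∏ g : G, g • CL := by
    rw [← Fintype.prod_bijective (fun x : H × N => (x.1 : G) * x.2) hbij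
      (fun x : H × N => ((x.1 : G) * x.2) • CL) (fun g : G => g • CL) (fun _ => rfl),
      Fintype.prod_prod_type]
    rw [← Finset.prod_pow]
    apply Finset.prod_congr rfl
    intro h _
    have h2 : ∀ n : N, ((h : G) * (n : G)) • CL = (h : G) • CL := by
      intro n
      rw [mul_smul, hCL, smul_map_of_memR N n.2]
    rw [Finset.prod_congr rfl (fun n _ => h2 n), Finset.prod_const, Finset.card_univ,
      ← Nat.card_eq_fintype_card]
  have hfin : finrank E L = Nat.card N := (IsGaloisGroup.card_eq_finrank N E L).symm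
  have h2 : ∏ g : G, g • CL =
      ((Ideal.relNorm (𝓞 F) C).map (algebraMap (𝓞 F) (𝓞 L))) ^ Nat.card N := by
    rw [← prod_all_smulR (F := F), ← Ideal.relNorm_relNorm (𝓞 F) (𝓞 E) CL, hCL,
      Ideal.relNorm_algebraMap, finrank_int, hfin, map_pow, Ideal.map_pow]
  rw [h2] at h1
  exact ideal_pow_inj hN0 h1

/-- invariant torsion classes extended from the fixed field of the normal complement come from
the base -/
lemma fixed_ext_base (N : Subgroup G) [hN : IsGaloisGroup N E L] (τ : G)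
    (hbij : Function.Bijective (fun x : Subgroup.zpowers τ × N => (x.1 : G) * x.2))
    {p : ℕ} (hp : p.Prime) (hd : ¬ p ∣ orderOf τ) {z : ClassGroup (𝓞 L)} (hz : z ^ p = 1)
    (hτ : act L τ z = z)
    (hr : z ∈ (ClassGroup.extendedHom (𝓞 E) (𝓞 L)).range) :
    z ∈ (ClassGroup.extendedHom (𝓞 F) (𝓞 L)).range := by
  classical
  cases nonempty_fintype G
  cases nonempty_fintype (Subgroup.zpowers τ)
  obtain ⟨c, rfl⟩ := hr
  obtain ⟨C, hC, rfl⟩ := cls_surj c
  set CL := C.map (algebraMap (𝓞 E) (𝓞 L)) with hCL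
  have hCL0 : CL ≠ ⊥ := map_ne_bot' hC
  rw [cls_map hC] at hz hτ ⊢
  rw [← hCL] at hz hτ ⊢
  have hpow : ∀ i : ℕ, act L (τ ^ i) (cls CL) = cls CL := by
    intro i
    induction i with
    | zero => rw [pow_zero, act_one]
    | succ i ih => rw [pow_succ, act_mul, hτ, ih]
  have h2 : ∀ h : Subgroup.zpowers τ, cls ((h : G) • CL) = cls CL := by
    rintro ⟨g, hg⟩
    obtain ⟨j, -, hj⟩ := (isOfFinOrder_of_finite τ).mem_zpowers_iff_mem_range_orderOf.mp hg |>
      Finset.mem_image.mp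
    change cls (g • CL) = cls CL
    rw [← cls_smul g hCL0, ← hj]
    exact hpow j
  have h1 := congrArg (cls (A := 𝓞 L)) (prod_complement (F := F) (E := E) (L := L) N
    (Subgroup.zpowers τ) hbij C)
  have hrel0 : Ideal.relNorm (𝓞 F) C ≠ ⊥ := by
    rw [Ne, Ideal.relNorm_eq_bot_iff]
    exact hC
  rw [← hCL, cls_prod _ _ (fun h _ => smul_ne_bot' _ hCL0), Finset.prod_congr rfl (fun h _ => h2 h),
    Finset.prod_const, Finset.card_univ, ← Nat.card_eq_fintype_card, Nat.card_zpowers,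
    ← cls_map hrel0] at h1
  set B := (ClassGroup.extendedHom (𝓞 F) (𝓞 L)).range with hB
  have hmem : cls CL ^ orderOf τ ∈ B := by rw [h1]; exact ⟨_, rfl⟩
  -- coprimality
  have hcop : Nat.gcd p (orderOf τ) = 1 := (Nat.Prime.coprime_iff_not_dvd hp).mpr hd
  have hq : ((cls CL : ClassGroup (𝓞 L)) : ClassGroup (𝓞 L) ⧸ B) ^ (Nat.gcd p (orderOf τ)) = 1 := by
    have e1 : ((cls CL : ClassGroup (𝓞 L)) : ClassGroup (𝓞 L) ⧸ B) ^ p = 1 := by
      rw [← QuotientGroup.mk_pow, hz, QuotientGroup.mk_one]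
    have e2 : ((cls CL : ClassGroup (𝓞 L)) : ClassGroup (𝓞 L) ⧸ B) ^ orderOf τ = 1 := by
      rw [← QuotientGroup.mk_pow]
      exact (QuotientGroup.eq_one_iff _).mpr hmem
    rw [← orderOf_dvd_iff_pow_eq_one] at e1 e2 ⊢
    exact Nat.dvd_gcd e1 e2
  rw [hcop, pow_one] at hq
  exact (QuotientGroup.eq_one_iff _).mp hq

end rel

section main

variable {F E M L : Type} [Field F] [NumberField F] [Field E] [NumberField E] [Field M]
  [NumberField M] [Field L]
  [NumberField L] [Algebra F E] [Algebra E L] [Algebra M L] [Algebra F L] [IsScalarTower F E L]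
  {G : Type*} [Group G] [Finite G] [MulSemiringAction G L] [hG : IsGaloisGroup G F L]

/-- the class groups in a relative step of prime degree -/
theorem key_boundR {p : ℕ} (hp : p.Prime) (σ τ : G) (c a : ℕ)
    [hE : IsGaloisGroup (Subgroup.zpowers σ) E L] [hM : IsGaloisGroup (Subgroup.zpowers τ) M L]
    (hσ : orderOf σ = p)
    (ha : orderOf τ * a = p - 1) (hrel : τ * σ * τ⁻¹ = σ ^ c)
    (hc : orderOf (c : ZMod p) = orderOf τ)
    (hbij : Function.Bijective
      (fun x : Subgroup.zpowers τ × Subgroup.zpowers σ => (x.1 : G) * x.2))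
    {R : Finset (Ideal (𝓞 L))}
    (hR : ∀ P : Ideal (𝓞 L), P.IsPrime → P ≠ ⊥ →
      P ^ 2 ∣ (P.under (𝓞 E)).map (algebraMap (𝓞 E) (𝓞 L)) → P ∈ R)
    {n : ℕ} (κ : (𝓞 E)ˣ → (Fin n → Fin (orderOf σ)))
    (hκ : ∀ u v, κ u = κ v → ∃ w : (𝓞 E)ˣ, u = v * w ^ (orderOf σ)) :
    Nat.card {x : ClassGroup (𝓞 M) // x ^ p = 1} ≤
      p ^ ((a + 1) * (n + R.card)) *
        Nat.card {x : ClassGroup (𝓞 E) // x ^ p = 1} ^ a *
        Nat.card {x : ClassGroup (𝓞 F) // x ^ p = 1} := by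
  classical
  have hp1 : 0 < p - 1 := by have := hp.two_le; omega
  have hdp : ¬ p ∣ orderOf τ := by
    intro h
    have h1 : p ∣ p - 1 := h.trans ⟨a, ha.symm⟩
    have h2 := Nat.le_of_dvd hp1 h1
    omega
  have hact_pow : ∀ (g : G) (k : ℕ) (x : ClassGroup (𝓞 L)), (⇑(act L g))^[k] x = act L (g ^ k) x := by
    intro g k
    induction k with
    | zero => intro x; rw [Function.iterate_zero, id, pow_zero, act_one]
    | succ k ih => intro x; rw [Function.iterate_succ_apply', ih, pow_succ', act_mul]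
  have h1 := lin_bound (A := ClassGroup (𝓞 L)) hp (act L σ) (act L τ) c (orderOf τ) a ha hc
    (by
      intro x _
      rw [hact_pow, ← hσ, pow_orderOf_eq_one, act_one])
    (by
      intro x _
      have h2 : τ * σ = σ ^ c * τ := by rw [← hrel]; group
      rw [hact_pow, ← act_mul, ← act_mul, h2])
  have h2 := card_tors_le_fixedR (M := M) (L := L) τ hp hdp
  have hσp : (orderOf σ).Prime := by rw [hσ]; exact hp
  have h3 := amb_bound (E := E) σ hσp hR κ hκ (fixTors L p σ) (fun x hx => hx.2)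
  have h4 := amb_bound (E := E) σ hσp hR κ hκ (fixTors2 L p σ τ) (fun x hx => hx.2.1)
  rw [hσ] at h3 h4
  have h5 : Nat.card (fixTors L p σ ⊓
      (ClassGroup.extendedHom (𝓞 E) (𝓞 L)).range : Subgroup (ClassGroup (𝓞 L))) ≤
      Nat.card {x : ClassGroup (𝓞 E) // x ^ p = 1} := by
    refine le_trans ?_ (card_torsion_range_le (ClassGroup.extendedHom (𝓞 E) (𝓞 L)) p)
    apply Nat.card_le_card_of_injective (fun x =>
      (⟨⟨x.1, x.2.2⟩, Subtype.ext x.2.1.1⟩ :
        {x : (ClassGroup.extendedHom (𝓞 E) (𝓞 L)).range // x ^ p = 1}))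
    intro x y hxy
    have h6 := congrArg (fun z => ((z.1 : (ClassGroup.extendedHom
      (𝓞 E) (𝓞 L)).range) : ClassGroup (𝓞 L))) hxy
    exact Subtype.ext h6
  have h6 : Nat.card (fixTors2 L p σ τ ⊓
      (ClassGroup.extendedHom (𝓞 E) (𝓞 L)).range : Subgroup (ClassGroup (𝓞 L))) ≤
      Nat.card {x : ClassGroup (𝓞 F) // x ^ p = 1} := by
    refine le_trans ?_ (card_torsion_range_le (ClassGroup.extendedHom (𝓞 F) (𝓞 L)) p)
    have hmem : ∀ x : (fixTors2 L p σ τ ⊓
        (ClassGroup.extendedHom (𝓞 E) (𝓞 L)).range : Subgroup (ClassGroup (𝓞 L))),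
        (x : ClassGroup (𝓞 L)) ∈ (ClassGroup.extendedHom (𝓞 F) (𝓞 L)).range := by
      rintro ⟨x, ⟨hx1, hx2, hx3⟩, hxr⟩
      exact fixed_ext_base (F := F) (E := E) (Subgroup.zpowers σ) τ hbij hp hdp hx1 hx3 hxr
    apply Nat.card_le_card_of_injective (fun x =>
      (⟨⟨x.1, hmem x⟩, Subtype.ext x.2.1.1⟩ :
        {x : (ClassGroup.extendedHom (𝓞 F) (𝓞 L)).range // x ^ p = 1}))
    intro x y hxy
    have h6 := congrArg (fun z => ((z.1 : (ClassGroup.extendedHom
      (𝓞 F) (𝓞 L)).range) : ClassGroup (𝓞 L))) hxy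
    exact Subtype.ext h6
  have e1 : Nat.card {x : ClassGroup (𝓞 L) // x ^ p = 1 ∧ act L σ x = x} =
      Nat.card (fixTors L p σ) := rfl
  have e2 : Nat.card {x : ClassGroup (𝓞 L) // x ^ p = 1 ∧ act L σ x = x ∧ act L τ x = x} =
      Nat.card (fixTors2 L p σ τ) := rfl
  rw [e1, e2] at h1
  have h7 := h3.trans (Nat.mul_le_mul_left _ h5)
  have h8 := h4.trans (Nat.mul_le_mul_left _ h6)
  calc Nat.card {x : ClassGroup (𝓞 M) // x ^ p = 1}
      ≤ Nat.card (fixTors L p σ) ^ a * Nat.card (fixTors2 L p σ τ) := h2.trans h1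
    _ ≤ (p ^ (n + R.card) * Nat.card {x : ClassGroup (𝓞 E) // x ^ p = 1}) ^ a *
          (p ^ (n + R.card) * Nat.card {x : ClassGroup (𝓞 F) // x ^ p = 1}) :=
        Nat.mul_le_mul (Nat.pow_le_pow_left h7 a) h8
    _ = _ := by ring

end main

/-- uniform version -/
theorem rel_key (p a n : ℕ) (hp : p.Prime) (ε : ℝ) (hε : 0 < ε) :
    ∃ C : ℝ, 0 < C ∧ ∀ (F L : Type) [Field F] [NumberField F] [Field L] [NumberField L]
      [Algebra F L] [IsGalois F L] (σ τ : Gal(L/F)) (c : ℕ),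
      finrank ℚ L = n → orderOf σ = p → orderOf τ * a = p - 1 → τ * σ * τ⁻¹ = σ ^ c →
      orderOf (c : ZMod p) = orderOf τ →
      Function.Bijective
        (fun x : Subgroup.zpowers τ × Subgroup.zpowers σ => (x.1 : Gal(L/F)) * x.2) →
      (Nat.card {x : ClassGroup (𝓞 (FixedPoints.intermediateField (Subgroup.zpowers τ) :
          IntermediateField F L)) // x ^ p = 1} : ℝ) ≤
        C * Real.exp (ε * Real.log |(discr L : ℝ)|) *
        (Nat.card {x : ClassGroup (𝓞 (FixedPoints.intermediateField (Subgroup.zpowers σ) :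
          IntermediateField F L)) // x ^ p = 1} : ℝ) ^ a *
        (Nat.card {x : ClassGroup (𝓞 F) // x ^ p = 1} : ℝ) := by
  classical
  have hp1 : (1 : ℝ) ≤ p := by exact_mod_cast hp.one_lt.le
  set A : ℝ := (p : ℝ) ^ ((a + 1) * n) with hA
  have hA1 : 1 ≤ A := one_le_pow₀ hp1
  obtain ⟨C1, hC1, hom⟩ := pow_omega_le A ε hA1 hε
  refine ⟨A * C1, by positivity, ?_⟩
  intro F L _ _ _ _ _ _ σ τ c hn hσ ha hrel hc hbij
  set E : IntermediateField F L := FixedPoints.intermediateField (Subgroup.zpowers σ) with hE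
  set M : IntermediateField F L := FixedPoints.intermediateField (Subgroup.zpowers τ) with hM
  obtain ⟨κ, hκ⟩ := unit_classes E (orderOf σ) (by rw [hσ]; exact hp.pos)
  have hGE : IsGaloisGroup (Subgroup.zpowers σ) E L := by rw [hE]; infer_instance
  have hGM : IsGaloisGroup (Subgroup.zpowers τ) M L := by rw [hM]; infer_instance
  have h1 := key_boundR (F := F) (E := E) (M := M) (L := L) hp σ τ c a hσ ha hrel hc hbij
    (R := ramSet L) (fun P hP hP0 h => mem_ramSet hP hP0 h) κ hκ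
  set NK := Nat.card {x : ClassGroup (𝓞 M) // x ^ p = 1} with hNK
  set NE := Nat.card {x : ClassGroup (𝓞 E) // x ^ p = 1} with hNE
  set NF := Nat.card {x : ClassGroup (𝓞 F) // x ^ p = 1} with hNF
  have hnE : finrank ℚ E ≤ n := by
    rw [← hn, ← finrank_mul_finrank ℚ E L]
    exact Nat.le_mul_of_pos_right _ finrank_pos
  set w := (discr L).natAbs.primeFactors.card with hw
  have hR := card_ramSet_le L
  rw [hn] at hR
  have h2 : (a + 1) * (finrank ℚ E + (ramSet L).card) ≤ (a + 1) * n + (a + 1) * n * w := by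
    calc (a + 1) * (finrank ℚ E + (ramSet L).card)
        ≤ (a + 1) * (n + w * n) := Nat.mul_le_mul_left _ (Nat.add_le_add hnE hR)
      _ = (a + 1) * n + (a + 1) * n * w := by ring
  have h3 : (p : ℝ) ^ ((a + 1) * (finrank ℚ E + (ramSet L).card)) ≤ A * A ^ w := by
    refine (pow_le_pow_right₀ hp1 h2).trans (le_of_eq ?_)
    rw [pow_add, pow_mul _ _ w]
  have h4 := hom (discr L).natAbs (Int.natAbs_pos.mpr (discr_ne_zero L))
  have hDL : (((discr L).natAbs : ℕ) : ℝ) = |(discr L : ℝ)| := by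
    rw [Nat.cast_natAbs, Int.cast_abs]
  rw [hDL] at h4
  have hDL1 := one_le_absdiscr L
  have h6 : |(discr L : ℝ)| ^ ε = Real.exp (ε * Real.log |(discr L : ℝ)|) := by
    rw [Real.rpow_def_of_pos (by linarith), mul_comm]
  rw [h6] at h4
  have h7 : (NK : ℝ) ≤ (p : ℝ) ^ ((a + 1) * (finrank ℚ E + (ramSet L).card)) * (NE : ℝ) ^ a *
      (NF : ℝ) := by
    exact_mod_cast h1
  have hNE0 : (0 : ℝ) ≤ (NE : ℝ) ^ a * (NF : ℝ) := by positivity
  calc (NK : ℝ) ≤ (p : ℝ) ^ ((a + 1) * (finrank ℚ E + (ramSet L).card)) *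
        ((NE : ℝ) ^ a * (NF : ℝ)) := by rw [← mul_assoc]; exact h7
    _ ≤ (A * A ^ w) * ((NE : ℝ) ^ a * (NF : ℝ)) := mul_le_mul_of_nonneg_right h3 hNE0
    _ ≤ (A * (C1 * Real.exp (ε * Real.log |(discr L : ℝ)|))) * ((NE : ℝ) ^ a * (NF : ℝ)) := by
        apply mul_le_mul_of_nonneg_right _ hNE0
        exact mul_le_mul_of_nonneg_left h4 (by linarith)
    _ = _ := by ring

end Pool.Agent.Lib.MP_695920_nt.Tow
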