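import Mathlib
import Pool.Agent.Lib.MP_695920_nt.KeyG
import Pool.Agent.Lib.MP_695920_nt.Tow.Defs

set_option autoImplicit false

open Finset NumberField Module IsDedekindDomain
open scoped nonZeroDivisors NNReal ENNReal

namespace Pool.Agent.Lib.MP_695920_nt.Tow

section one

variable {K : Type*} [Field K] [NumberField K]

/-- the norms of the two ideals bounded by `Y`, and the conjugates bounded in terms of norms -/
lemma sub_disc_bound0 (F0 : IntermediateField ℚ K) {A A' : Ideal (𝓞 K)} (hA0 : A ≠ ⊥) (hA'0 : A' ≠ ⊥) {x y : 𝓞 K} (hx : x ≠ 0)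
    (hy : y ≠ 0) (h : Ideal.span {x} * A = Ideal.span {y} * A') (c Y : ℝ) (hc : 1 ≤ c)
    (hAY : (Ideal.absNorm A : ℝ) ≤ Y) (hA'Y : (Ideal.absNorm A' : ℝ) ≤ Y)
    (hnq : (x : K) / (y : K) ∉ F0)
    (hX : ∀ φ : K →ₐ[ℚ] ℂ, ‖φ ((x : K) / (y : K))‖ ≤
      c * ((Ideal.absNorm A' : ℝ) / Ideal.absNorm A) ^ ((1 : ℝ) / finrank ℚ K)) :
    ∃ F : IntermediateField ℚ K, ¬ F ≤ F0 ∧ |(discr F : ℝ)| ≤
      (2 * c) ^ (finrank ℚ K * (finrank ℚ K - 1)) * Y ^ (2 * (finrank ℚ K - 1)) := by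
  classical
  have hNA : (0 : ℝ) < Ideal.absNorm A := by exact_mod_cast absNorm_pos_of_ne_bot hA0
  have hNA' : (0 : ℝ) < Ideal.absNorm A' := by exact_mod_cast absNorm_pos_of_ne_bot hA'0
  have hNA1 : (1 : ℝ) ≤ Ideal.absNorm A := by exact_mod_cast absNorm_pos_of_ne_bot hA0
  have hNA'1 : (1 : ℝ) ≤ Ideal.absNorm A' := by exact_mod_cast absNorm_pos_of_ne_bot hA'0
  have hY1 : 1 ≤ Y := hNA1.trans hAY
  have h1 := sub_disc_bound hA0 hx hy h _ hX
  set F : IntermediateField ℚ K := IntermediateField.adjoin ℚ {(x : K) / (y : K)} with hF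
  have hFbot : ¬ F ≤ F0 := fun h0 => hnq (h0 (IntermediateField.mem_adjoin_simple_self ℚ _))
  refine ⟨F, hFbot, h1.trans ?_⟩
  set d := finrank ℚ F with hd
  set n := finrank ℚ K with hn
  have hdn : d ≤ n := by
    have h3 := finrank_mul_finrank ℚ F K
    rw [hd, hn, ← h3]
    exact Nat.le_mul_of_pos_right _ finrank_pos
  have hd0 : 0 < d := finrank_pos
  have hn0 : 0 < n := finrank_pos
  have hnr : (0 : ℝ) < n := by exact_mod_cast hn0
  rw [← mul_assoc, mul_pow]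
  have hA1 : (2 * c) ^ (d * (d - 1)) ≤ (2 * c) ^ (n * (n - 1)) := by
    apply pow_le_pow_right₀ (by linarith)
    exact Nat.mul_le_mul hdn (Nat.sub_le_sub_right hdn 1)
  have hB : (((Ideal.absNorm A' : ℝ) / Ideal.absNorm A) ^ ((1 : ℝ) / n)) ^ (d * (d - 1)) *
      (Ideal.absNorm A : ℝ) ^ (2 * (d - 1)) ≤ Y ^ (2 * (d - 1)) := by
    have h2 : (((Ideal.absNorm A' : ℝ) / Ideal.absNorm A) ^ ((1 : ℝ) / n)) ^ d ≤
        max 1 ((Ideal.absNorm A' : ℝ) / Ideal.absNorm A) := by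
      rw [← Real.rpow_natCast, ← Real.rpow_mul (by positivity)]
      rcases le_total ((Ideal.absNorm A' : ℝ) / Ideal.absNorm A) 1 with h3 | h3
      · refine le_trans ?_ (le_max_left _ _)
        exact Real.rpow_le_one (by positivity) h3 (by positivity)
      · refine le_trans ?_ (le_max_right _ _)
        calc ((Ideal.absNorm A' : ℝ) / Ideal.absNorm A) ^ ((1 : ℝ) / n * d) ≤
            ((Ideal.absNorm A' : ℝ) / Ideal.absNorm A) ^ (1 : ℝ) := by
              apply Real.rpow_le_rpow_of_exponent_le h3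
              have h4 : (d : ℝ) ≤ n := by exact_mod_cast hdn
              rw [one_div_mul_eq_div, div_le_one hnr]
              exact h4
          _ = _ := Real.rpow_one _
    rw [pow_mul, pow_mul]
    rw [← mul_pow]
    rw [pow_mul]
    apply pow_le_pow_left₀ (by positivity)
    calc (((Ideal.absNorm A' : ℝ) / Ideal.absNorm A) ^ ((1 : ℝ) / n)) ^ d *
        (Ideal.absNorm A : ℝ) ^ 2 ≤
        max 1 ((Ideal.absNorm A' : ℝ) / Ideal.absNorm A) * (Ideal.absNorm A : ℝ) ^ 2 :=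
          mul_le_mul_of_nonneg_right h2 (by positivity)
      _ ≤ Y ^ 2 := by
          rcases max_choice 1 ((Ideal.absNorm A' : ℝ) / Ideal.absNorm A) with h3 | h3
          · rw [h3, one_mul]
            exact pow_le_pow_left₀ hNA.le hAY 2
          · rw [h3]
            have h4 : (Ideal.absNorm A' : ℝ) / Ideal.absNorm A * (Ideal.absNorm A : ℝ) ^ 2 =
                Ideal.absNorm A' * Ideal.absNorm A := by
              field_simp
            rw [h4, sq]
            exact mul_le_mul hA'Y hAY hNA.le (by linarith)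
  calc (2 * c) ^ (d * (d - 1)) *
        (((Ideal.absNorm A' : ℝ) / Ideal.absNorm A) ^ ((1 : ℝ) / n)) ^ (d * (d - 1)) *
        (Ideal.absNorm A : ℝ) ^ (2 * (d - 1))
      = (2 * c) ^ (d * (d - 1)) *
        ((((Ideal.absNorm A' : ℝ) / Ideal.absNorm A) ^ ((1 : ℝ) / n)) ^ (d * (d - 1)) *
        (Ideal.absNorm A : ℝ) ^ (2 * (d - 1))) := by ring
    _ ≤ (2 * c) ^ (n * (n - 1)) * Y ^ (2 * (d - 1)) :=
        mul_le_mul hA1 hB (by positivity) (by positivity)
    _ ≤ (2 * c) ^ (n * (n - 1)) * Y ^ (2 * (n - 1)) := by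
        apply mul_le_mul_of_nonneg_left _ (by positivity)
        apply pow_le_pow_right₀ hY1
        omega

end one

section two

variable {K M : Type*} [Field K] [NumberField K] [Field M] [NumberField M] [Algebra K M]

/-- Two pairs with the same ideal and close positions have the same small ideal. -/
lemma pair_collision0 (F0 : IntermediateField ℚ K) {l : ℕ} (hl : 0 < l) {P Q : Ideal (𝓞 K)} {B : Ideal (𝓞 M)}
    (hP0 : P ≠ ⊥) (hQ0 : Q ≠ ⊥)
    (hnr : ∀ x y : 𝓞 K, x ≠ 0 → y ≠ 0 → Ideal.span {x} * P ^ (finrank K M * l) =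
      Ideal.span {y} * Q ^ (finrank K M * l) → (x : K) / (y : K) ∉ F0)
    (Y : ℝ) (hPY : (Ideal.absNorm P : ℝ) ≤ Y) (hQY : (Ideal.absNorm Q : ℝ) ≤ Y)
    {a b a' b' : 𝓞 M} (ha : a ≠ 0) (hb : b ≠ 0) (ha' : a' ≠ 0) (hb' : b' ≠ 0)
    (h : Ideal.span {b} * B ^ l = Ideal.span {a} * ext M P ^ l)
    (h' : Ideal.span {b'} * B ^ l = Ideal.span {a'} * ext M Q ^ l)
    (hclose : ∀ w : InfinitePlace M, spos l (ext M Q) a' b' w - spos l (ext M P) a b w ≤ 1) :
    ∃ F : IntermediateField ℚ K, ¬ F ≤ F0 ∧ |(discr F : ℝ)| ≤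
      (2 * Real.exp (finrank K M * l)) ^ (finrank ℚ K * (finrank ℚ K - 1)) *
      (Y ^ (finrank K M * l)) ^ (2 * (finrank ℚ K - 1)) := by
  set n := finrank ℚ K with hn
  set m := finrank K M with hm
  have hnm : (finrank ℚ M : ℝ) = n * m := by
    rw [hn, hm]
    exact_mod_cast (Module.finrank_mul_finrank ℚ K M).symm
  have hNP : (0 : ℝ) < Ideal.absNorm P := by exact_mod_cast absNorm_pos_of_ne_bot hP0
  have hNQ : (0 : ℝ) < Ideal.absNorm Q := by exact_mod_cast absNorm_pos_of_ne_bot hQ0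
  have hPe0 := ext_ne_bot (M := M) hP0
  have hQe0 := ext_ne_bot (M := M) hQ0
  have hNPe : (0 : ℝ) < Ideal.absNorm (ext M P) := by exact_mod_cast absNorm_pos_of_ne_bot hPe0
  have hNQe : (0 : ℝ) < Ideal.absNorm (ext M Q) := by exact_mod_cast absNorm_pos_of_ne_bot hQe0
  have hnR : (0 : ℝ) < (n : ℝ) := by exact_mod_cast finrank_pos
  have hmpos : 0 < m := finrank_pos
  have hmR : (0 : ℝ) < (m : ℝ) := by exact_mod_cast hmpos
  have hlR : (0 : ℝ) < l := by exact_mod_cast hl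
  have hx : a * b' ≠ 0 := mul_ne_zero ha hb'
  have hy : a' * b ≠ 0 := mul_ne_zero ha' hb
  have hrel : Ideal.span {a * b'} * ext M P ^ l = Ideal.span {a' * b} * ext M Q ^ l := by
    rw [← Ideal.span_singleton_mul_span_singleton, ← Ideal.span_singleton_mul_span_singleton]
    calc Ideal.span {a} * Ideal.span {b'} * ext M P ^ l
        = Ideal.span {b'} * (Ideal.span {a} * ext M P ^ l) := by ring
      _ = Ideal.span {b'} * (Ideal.span {b} * B ^ l) := by rw [h]
      _ = Ideal.span {b} * (Ideal.span {b'} * B ^ l) := by ring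
      _ = Ideal.span {b} * (Ideal.span {a'} * ext M Q ^ l) := by rw [h']
      _ = _ := by ring
  set X : ℝ := Real.exp l * ((Ideal.absNorm (ext M Q) : ℝ) / Ideal.absNorm (ext M P)) ^
    ((l : ℝ) / finrank ℚ M) with hX
  have hXb : ∀ φ : M →ₐ[ℚ] ℂ, ‖φ (((a * b' : 𝓞 M) : M) / ((a' * b : 𝓞 M) : M))‖ ≤ X := by
    intro φ
    set w : InfinitePlace M := InfinitePlace.mk φ.toRingHom with hw
    have h1 : ‖φ (((a * b' : 𝓞 M) : M) / ((a' * b : 𝓞 M) : M))‖ =
        w (((a * b' : 𝓞 M) : M) / ((a' * b : 𝓞 M) : M)) := rfl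
    rw [h1, map_div₀]
    push_cast
    rw [map_mul, map_mul]
    have wa := infinitePlace_pos (w := w) ha
    have wb := infinitePlace_pos (w := w) hb
    have wa' := infinitePlace_pos (w := w) ha'
    have wb' := infinitePlace_pos (w := w) hb'
    have h2 := hclose w
    unfold spos at h2
    have hnM : (0 : ℝ) < (finrank ℚ M : ℝ) := by exact_mod_cast finrank_pos
    set N : ℝ := (finrank ℚ M : ℝ) with hN
    rw [Real.log_div ZK_pos.ne' hNPe.ne', Real.log_div ZK_pos.ne' hNQe.ne'] at h2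
    rw [← Real.log_le_log_iff (by positivity) (by positivity), hX,
      Real.log_mul (Real.exp_pos _).ne' (by positivity), Real.log_exp,
      Real.log_rpow (by positivity), Real.log_div hNQe.ne' hNPe.ne',
      Real.log_div (by positivity) (by positivity), Real.log_mul wa.ne' wb'.ne',
      Real.log_mul wa'.ne' wb.ne']
    have h3 : (l : ℝ) * ((1 / N) * (Real.log (ZK M) - Real.log (Ideal.absNorm (ext M Q))) -
        (1 / (l : ℝ)) * (Real.log (w (a' : M)) - Real.log (w (b' : M))) -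
        ((1 / N) * (Real.log (ZK M) - Real.log (Ideal.absNorm (ext M P))) -
        (1 / (l : ℝ)) * (Real.log (w (a : M)) - Real.log (w (b : M))))) ≤ l * 1 :=
      mul_le_mul_of_nonneg_left h2 hlR.le
    have h4 : (l : ℝ) * ((1 / N) * (Real.log (ZK M) - Real.log (Ideal.absNorm (ext M Q))) -
        (1 / (l : ℝ)) * (Real.log (w (a' : M)) - Real.log (w (b' : M))) -
        ((1 / N) * (Real.log (ZK M) - Real.log (Ideal.absNorm (ext M P))) -
        (1 / (l : ℝ)) * (Real.log (w (a : M)) - Real.log (w (b : M))))) =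
        ((l : ℝ) / N) * (Real.log (Ideal.absNorm (ext M P)) - Real.log (Ideal.absNorm (ext M Q))) +
        (Real.log (w (a : M)) + Real.log (w (b' : M)) -
          (Real.log (w (a' : M)) + Real.log (w (b : M)))) := by
      field_simp
      ring
    rw [h4] at h3
    linarith
  have hx' : Algebra.intNorm (𝓞 K) (𝓞 M) (a * b') ≠ 0 := by
    rw [Ne, Algebra.intNorm_eq_zero]; exact hx
  have hy' : Algebra.intNorm (𝓞 K) (𝓞 M) (a' * b) ≠ 0 := by
    rw [Ne, Algebra.intNorm_eq_zero]; exact hy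
  have hXm : X ^ m = Real.exp (m * l) *
      ((Ideal.absNorm (Q ^ (m * l)) : ℝ) / Ideal.absNorm (P ^ (m * l))) ^ ((1 : ℝ) / n) := by
    rw [hX, mul_pow, ← Real.exp_nat_mul, absNorm_ext, absNorm_ext, ← hm, map_pow, map_pow]
    congr 1
    push_cast
    rw [← div_pow, ← div_pow, ← Real.rpow_natCast _ m, ← Real.rpow_mul (by positivity),
      ← Real.rpow_natCast _ m, ← Real.rpow_mul (by positivity), ← Real.rpow_natCast _ (m * l),
      ← Real.rpow_mul (by positivity), hnm]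
    congr 1
    push_cast
    field_simp
  have hpowY : ∀ R : Ideal (𝓞 K), (Ideal.absNorm R : ℝ) ≤ Y →
      (Ideal.absNorm (R ^ (m * l)) : ℝ) ≤ Y ^ (m * l) := by
    intro R hR
    rw [map_pow]
    push_cast
    exact pow_le_pow_left₀ (Nat.cast_nonneg _) hR _
  have hb1 := norm_bound (K := K) (a * b') (a' * b) X hXb
  rw [← hm, hXm] at hb1
  exact sub_disc_bound0 F0 (pow_ne_zero _ hP0) (pow_ne_zero _ hQ0) hx' hy' (norm_rel hrel)
    (Real.exp (m * l)) (Y ^ (m * l)) (Real.one_le_exp (by positivity)) (hpowY P hPY) (hpowY Q hQY)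
    (hnr _ _ hx' hy' (norm_rel hrel)) hb1

open InfinitePlace in
/-- The Ellenberg-Venkatesh counting inequality, with prime ideals of a subfield. -/
theorem ev_count0 (F0 : IntermediateField ℚ K) {l : ℕ} (hl : 0 < l) (AA : Finset (Ideal (𝓞 K)))
    (hAAne : ∀ P ∈ AA, P ≠ ⊥)
    (hnr : ∀ P ∈ AA, ∀ Q ∈ AA, P ≠ Q → ∀ x y : 𝓞 K, x ≠ 0 → y ≠ 0 →
      Ideal.span {x} * P ^ (finrank K M * l) = Ideal.span {y} * Q ^ (finrank K M * l) →
        (x : K) / (y : K) ∉ F0)
    (Y : ℝ) (hY : ∀ P ∈ AA, (Ideal.absNorm P : ℝ) ≤ Y)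
    (hsmall : ∀ F : IntermediateField ℚ K, ¬ F ≤ F0 →
      (2 * Real.exp (finrank K M * l)) ^ (finrank ℚ K * (finrank ℚ K - 1)) *
      (Y ^ (finrank K M * l)) ^ (2 * (finrank ℚ K - 1)) < |(discr F : ℝ)|) :
    (AA.card : ℝ) * (Nat.card {x : ClassGroup (𝓞 M) // x ^ l = 1} : ℝ) ≤
      ∑ B ∈ idl M ⌊ZK M⌋₊, (1 + Real.log (ZK M / Ideal.absNorm B)) ^ (finrank ℚ M) := by
  classical
  set n := finrank ℚ M with hn
  have hAA0 : ∀ P ∈ AA, ext M P ≠ ⊥ := by
    intro P hP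
    exact ext_ne_bot (hAAne P hP)
  -- the source
  let C := {x : ClassGroup (𝓞 M) // x ^ l = 1}
  have hex : ∀ x : C × AA, ∃ (B : (Ideal (𝓞 M))⁰) (a b : 𝓞 M), a ≠ 0 ∧ b ≠ 0 ∧
      ClassGroup.mk0 B = x.1.1 * ClassGroup.mk0
        (⟨ext M x.2.1, mem_nonZeroDivisors_of_ne_zero (hAA0 x.2.1 x.2.2)⟩ : (Ideal (𝓞 M))⁰) ∧
      (Ideal.absNorm (B : Ideal (𝓞 M)) : ℝ) < ZK M ∧
      Ideal.span {b} * (B : Ideal (𝓞 M)) ^ l = Ideal.span {a} * ext M x.2.1 ^ l ∧
      ∀ w : InfinitePlace M, w (a : M) <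
        (ZK M / Ideal.absNorm (ext M x.2.1)) ^ ((l : ℝ) / finrank ℚ M) * w (b : M) := by
    intro x
    exact pair_exists hl ⟨ext M x.2.1, mem_nonZeroDivisors_of_ne_zero (hAA0 x.2.1 x.2.2)⟩ x.1.1 x.1.2
  choose B a b ha hb hclass hBZ hrel hplace using hex
  have hB0 : ∀ x, (B x : Ideal (𝓞 M)) ≠ ⊥ := fun x => nonZeroDivisors.coe_ne_zero (B x)
  let Φ : C × AA → (Σ _ : Ideal (𝓞 M), (InfinitePlace M → ℕ)) := fun x =>
    ⟨(B x : Ideal (𝓞 M)), fun w => ⌊spos l (ext M x.2.1) (a x) (b x) w⌋₊⟩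
  let T : Finset (Σ _ : Ideal (𝓞 M), (InfinitePlace M → ℕ)) :=
    (idl M ⌊ZK M⌋₊).sigma (fun B => Fintype.piFinset
      (fun _ : InfinitePlace M => Finset.range (⌊Real.log (ZK M / Ideal.absNorm B)⌋₊ + 1)))
  have hmaps : ∀ x, Φ x ∈ T := by
    intro x
    simp only [T, Φ, Finset.mem_sigma, Fintype.mem_piFinset, Finset.mem_range]
    refine ⟨?_, ?_⟩
    · rw [mem_idl]
      exact ⟨hB0 x, Nat.le_floor (hBZ x).le⟩
    · intro w
      apply Nat.lt_succ_of_le
      apply Nat.floor_le_floor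
      exact spos_le hl (hAA0 x.2.1 x.2.2) (hB0 x) (ha x) (hb x) (hrel x) (hplace x) w
  have hΦinj : Function.Injective Φ := by
    intro x y hxy
    simp only [Φ, Sigma.mk.injEq] at hxy
    obtain ⟨h1, h2⟩ := hxy
    have h2' : (fun w => ⌊spos l (ext M x.2.1) (a x) (b x) w⌋₊) =
        (fun w => ⌊spos l (ext M y.2.1) (a y) (b y) w⌋₊) :=
      eq_of_heq h2
    have hPQ : x.2 = y.2 := by
      by_contra hne
      have hne' : x.2.1 ≠ y.2.1 := fun h => hne (Subtype.ext h)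
      have hrel' : Ideal.span {b y} * (B x : Ideal (𝓞 M)) ^ l =
          Ideal.span {a y} * ext M y.2.1 ^ l := by
        rw [h1]; exact hrel y
      obtain ⟨F, hF, h3⟩ := pair_collision0 (K := K) F0 hl (hAAne _ x.2.2) (hAAne _ y.2.2)
        (hnr _ x.2.2 _ y.2.2 hne') Y (hY _ x.2.2) (hY _ y.2.2) (ha x) (hb x) (ha y) (hb y)
        (hrel x) hrel' (by
          intro w
          have h4 : ⌊spos l (ext M x.2.1) (a x) (b x) w⌋₊ =
            ⌊spos l (ext M y.2.1) (a y) (b y) w⌋₊ := congrFun h2' w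
          have h5 := spos_pos hl (hAA0 x.2.1 x.2.2) (ha x) (hb x) w (hplace x w)
          have h6 := spos_pos hl (hAA0 y.2.1 y.2.2) (ha y) (hb y) w (hplace y w)
          have h7 := Nat.floor_le h5.le
          have h8 := Nat.lt_floor_add_one (spos l (ext M y.2.1) (a y) (b y) w)
          rw [← h4] at h8
          linarith)
      exact absurd h3 (not_le.mpr (hsmall F hF))
    have hc1 := hclass x
    have hc2 := hclass y
    have hBB : B x = B y := Subtype.ext h1
    rw [hBB, hc2] at hc1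
    apply Prod.ext
    · apply Subtype.ext
      simp only [hPQ] at hc1
      exact (mul_right_cancel hc1).symm
    · exact hPQ
  have hfinC : Finite C := inferInstance
  have hcard : Nat.card (C × AA) ≤ T.card := by
    have : Fintype C := Fintype.ofFinite C
    rw [Nat.card_eq_fintype_card, ← Finset.card_univ]
    exact Finset.card_le_card_of_injOn Φ (fun x _ => hmaps x) (fun x _ y _ h => hΦinj h)
  rw [Nat.card_prod] at hcard
  have hAAc : Nat.card AA = AA.card := by simp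
  rw [hAAc] at hcard
  have hTcard : (T.card : ℝ) ≤
      ∑ B ∈ idl M ⌊ZK M⌋₊, (1 + Real.log (ZK M / Ideal.absNorm B)) ^ n := by
    simp only [T]
    rw [Finset.card_sigma]
    push_cast
    refine Finset.sum_le_sum fun I hI => ?_
    obtain ⟨hI0, hIN⟩ := mem_idl.mp hI
    have hNI : (0 : ℝ) < Ideal.absNorm I := by exact_mod_cast absNorm_pos_of_ne_bot hI0
    have hle : (Ideal.absNorm I : ℝ) ≤ ZK M := by
      calc (Ideal.absNorm I : ℝ) ≤ (⌊ZK M⌋₊ : ℝ) := by exact_mod_cast hIN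
        _ ≤ ZK M := Nat.floor_le ZK_pos.le
    have hL : 0 ≤ Real.log (ZK M / Ideal.absNorm I) :=
      Real.log_nonneg (by rw [le_div_iff₀ hNI]; linarith)
    rw [Fintype.card_piFinset, Finset.prod_const, Finset.card_univ, Finset.card_range]
    push_cast
    have hb1 : (1 : ℝ) ≤ (⌊Real.log (ZK M / Ideal.absNorm I)⌋₊ : ℝ) + 1 := by
      linarith [Nat.cast_nonneg (α := ℝ) ⌊Real.log (ZK M / Ideal.absNorm I)⌋₊]
    have hcardplaces : Fintype.card (InfinitePlace M) ≤ n := by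
      rw [hn, ← InfinitePlace.sum_mult_eq (K := M), ← Finset.card_univ, Finset.card_eq_sum_ones]
      exact Finset.sum_le_sum fun w _ => InfinitePlace.mult_pos
    calc ((⌊Real.log (ZK M / Ideal.absNorm I)⌋₊ : ℝ) + 1) ^ Fintype.card (InfinitePlace M)
        ≤ ((⌊Real.log (ZK M / Ideal.absNorm I)⌋₊ : ℝ) + 1) ^ n :=
          pow_le_pow_right₀ hb1 hcardplaces
      _ ≤ (1 + Real.log (ZK M / Ideal.absNorm I)) ^ n := by
          apply pow_le_pow_left₀ (by linarith)
          have := Nat.floor_le hL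
          linarith
  calc (AA.card : ℝ) * (Nat.card C : ℝ) = ((Nat.card C * AA.card : ℕ) : ℝ) := by push_cast; ring
    _ ≤ (T.card : ℝ) := by exact_mod_cast hcard
    _ ≤ _ := hTcard

end two

section rel

variable {F K : Type*} [Field F] [NumberField F] [Field K] [NumberField K] [Algebra F K]

/-- the quotient does not lie in the base field -/
lemma not_base {A A' : Ideal (𝓞 K)} {k : ℕ} (hk : 0 < k) (hA0 : A ≠ ⊥) (hA'0 : A' ≠ ⊥)
    {x y : 𝓞 K} (hx : x ≠ 0) (hy : y ≠ 0)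
    (h : Ideal.span {x} * A ^ k = Ideal.span {y} * A' ^ k) {p : ℕ} (hp : p.Prime)
    {R1 R2 : Ideal (𝓞 K)} (hR1 : R1.IsPrime) (hR2 : R2.IsPrime) (hm1 : (p : 𝓞 K) ∈ R1)
    (hm2 : (p : 𝓞 K) ∈ R2) (hu : R1.under (𝓞 F) = R2.under (𝓞 F))
    (hA2 : ¬ R2 ∣ A) (hA'2 : ¬ R2 ∣ A')
    (hmul : multiplicity R1 A ≠ multiplicity R1 A') :
    (x : K) / (y : K) ∉ (IsScalarTower.toAlgHom ℚ F K).fieldRange := by
  classical
  rintro ⟨g0, hg0⟩
  have hg0' : algebraMap F K g0 = (x : K) / (y : K) := hg0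
  have hR10 : R1 ≠ ⊥ := P_ne_bot hp hm1
  have hR20 : R2 ≠ ⊥ := P_ne_bot hp hm2
  set q : Ideal (𝓞 F) := R2.under (𝓞 F) with hq
  have hqp : q.IsPrime := inferInstance
  have hpq : (p : 𝓞 F) ∈ q := by
    change (p : 𝓞 F) ∈ R2.under (𝓞 F)
    rw [Ideal.under, Ideal.mem_comap]
    simpa using hm2
  have hq0 : q ≠ ⊥ := by
    intro h0
    rw [h0, Ideal.mem_bot] at hpq
    exact hp.ne_zero (by exact_mod_cast hpq)
  have hAk : A ^ k ≠ ⊥ := pow_ne_zero k hA0
  have hA'k : A' ^ k ≠ ⊥ := pow_ne_zero k hA'0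
  let v : HeightOneSpectrum (𝓞 F) := ⟨q, hqp, hq0⟩
  have hval : ∀ (R : Ideal (𝓞 K)) (hRp : R.IsPrime) (hR0 : R ≠ ⊥) (hRo : R.LiesOver q),
      (v.valuation F g0) ^ (Ideal.ramificationIdx' q R) =
        WithZero.exp ((k * multiplicity R A : ℤ) - (k * multiplicity R A' : ℤ)) := by
    intro R hRp hR0 hRo
    let wR : HeightOneSpectrum (𝓞 K) := ⟨R, hRp, hR0⟩
    have : wR.asIdeal.LiesOver v.asIdeal := hRo
    have h1 := HeightOneSpectrum.valuation_liesOver K v wR g0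
    rw [hg0'] at h1
    change (v.valuation F g0) ^ (Ideal.ramificationIdx' q R) = _ at h1
    rw [h1, valuation_ratio wR hx hy hAk hA'k h]
    have hprime : Prime R := Ideal.prime_of_isPrime hR0 hRp
    have e1 : multiplicity R (A ^ k) = k * multiplicity R A :=
      (FiniteMultiplicity.of_prime_left hprime hA0).multiplicity_pow hprime
    have e2 : multiplicity R (A' ^ k) = k * multiplicity R A' :=
      (FiniteMultiplicity.of_prime_left hprime hA'0).multiplicity_pow hprime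
    change WithZero.exp ((multiplicity R (A ^ k) : ℤ) - (multiplicity R (A' ^ k) : ℤ)) = _
    rw [e1, e2]
    push_cast
    rfl
  have hne0 : Ideal.ramificationIdx' q R2 ≠ 0 := by
    have : R2.LiesOver q := ⟨rfl⟩
    exact Ideal.IsDedekindDomain.ramificationIdx'_ne_zero_of_liesOver R2 hq0
  have h2 := hval R2 hR2 hR20 ⟨rfl⟩
  rw [multiplicity_eq_zero_of_not_dvd hA2, multiplicity_eq_zero_of_not_dvd hA'2] at h2
  simp only [Nat.cast_zero, mul_zero, sub_zero, WithZero.exp_zero] at h2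
  have h3 : v.valuation F g0 = 1 := (pow_eq_one_iff.mp h2).resolve_right hne0
  have h4 := hval R1 hR1 hR10 ⟨by rw [hq, hu]⟩
  rw [h3, one_pow] at h4
  have h5 : ((k * multiplicity R1 A : ℤ) - (k * multiplicity R1 A' : ℤ)) = 0 := by
    rw [← WithZero.exp_zero] at h4
    exact (WithZero.exp_injective h4).symm
  apply hmul
  have h6 : (k : ℤ) * multiplicity R1 A = k * multiplicity R1 A' := by linarith
  have h7 : (k : ℤ) ≠ 0 := by exact_mod_cast hk.ne'
  exact_mod_cast mul_left_cancel₀ h7 h6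

/-- Ellenberg-Venkatesh over a base field of small discriminant -/
theorem ev_base {l : ℕ} (hl : 0 < l) (hn : 1 < finrank ℚ K) (T : ℝ) (hT0 : 0 < T)
    (hT : ∀ A : IntermediateField ℚ K, ¬ A ≤ (IsScalarTower.toAlgHom ℚ F K).fieldRange →
      T ≤ |(discr A : ℝ)|) (G : Finset ℕ) (x : ℝ) (hx1 : 1 ≤ x)
    (hG : ∀ p ∈ G, p.Prime ∧ (p : ℝ) ≤ x ∧ TwoRel F K p)
    (hx : (l : ℝ) * finrank ℚ K * (finrank ℚ K - 1) * Real.log x +
      2 * l * (finrank ℚ K : ℝ) ^ 2 ≤ Real.log T) :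
    (G.card : ℝ) * (Nat.card {x : ClassGroup (𝓞 K) // x ^ l = 1} : ℝ) ≤
      Bn (finrank ℚ K) * Real.sqrt |(discr K : ℝ)| *
        Real.log |(discr K : ℝ)| ^ finrank ℚ K := by
  classical
  set n := finrank ℚ K with hnn
  have hnr : (2 : ℝ) ≤ n := by exact_mod_cast hn
  have hlr : (1 : ℝ) ≤ l := by exact_mod_cast hl
  have hlogx : 0 ≤ Real.log x := Real.log_nonneg hx1
  have hx0 : 0 < x := by linarith
  have hKK : finrank K K = 1 := finrank_self K
  -- choose the primes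
  have hex : ∀ p : ℕ, ∃ P R : Ideal (𝓞 K), p.Prime → TwoRel F K p → P.IsPrime ∧ R.IsPrime ∧
      (p : 𝓞 K) ∈ P ∧ (p : 𝓞 K) ∈ R ∧ P.under (𝓞 F) = R.under (𝓞 F) ∧ P ≠ R ∧
      Ideal.absNorm P ^ 2 ≤ p ^ n := by
    intro p
    by_cases hp : p.Prime ∧ TwoRel F K p
    · obtain ⟨hpp, Q1, Q2, a, b, c, d, e, f⟩ := hp
      rcases norm_twoG hpp a b c d f with h | h
      · exact ⟨Q1, Q2, fun _ _ => ⟨a, b, c, d, e, f, h⟩⟩
      · exact ⟨Q2, Q1, fun _ _ => ⟨b, a, d, c, e.symm, f.symm, h⟩⟩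
    · exact ⟨⊥, ⊥, fun h1 h2 => absurd ⟨h1, h2⟩ hp⟩
  choose P R hPR using hex
  have hgood : ∀ p ∈ G, p.Prime ∧ P p ≠ ⊥ ∧ (P p).IsPrime ∧ (R p).IsPrime ∧
      (p : 𝓞 K) ∈ P p ∧ (p : 𝓞 K) ∈ R p ∧ (P p).under (𝓞 F) = (R p).under (𝓞 F) ∧ P p ≠ R p ∧
      Ideal.absNorm (P p) ^ 2 ≤ p ^ n := by
    intro p hp
    obtain ⟨h1, _, h3⟩ := hG p hp
    obtain ⟨a, b, c, d, e, f, g⟩ := hPR p h1 h3
    exact ⟨h1, P_ne_bot h1 c, a, b, c, d, e, f, g⟩
  -- primes above different primes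
  have hdist : ∀ p ∈ G, ∀ q ∈ G, p ≠ q → ∀ S : Ideal (𝓞 K), S.IsPrime → (p : 𝓞 K) ∈ S →
      ¬ S ∣ P q := by
    intro p hp q hq hpq S hS hpS
    exact not_dvd_of_ne (hgood p hp).1 (hgood q hq).1 hpq hS hpS (hgood q hq).2.2.2.2.1
  have hPinj : Set.InjOn P (G : Set ℕ) := by
    intro p hp q hq hpq
    by_contra hne
    obtain ⟨_, _, a, _, c, _⟩ := hgood p hp
    exact hdist p hp q hq hne (P p) a c (by rw [hpq])
  have hRP : ∀ p ∈ G, ¬ R p ∣ P p := by
    intro p hp h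
    obtain ⟨h1, h2, a, b, c, d, e, f, g⟩ := hgood p hp
    exact f ((a.isMaximal h2).eq_of_le b.ne_top (Ideal.le_of_dvd h))
  have hInorm : ∀ p ∈ G, (Ideal.absNorm (P p) : ℝ) ≤ Real.exp ((n : ℝ) / 2 * Real.log x) := by
    intro p hp
    obtain ⟨h1, h2, a, b, c, d, e, f, g⟩ := hgood p hp
    have h2 : (0 : ℝ) < Ideal.absNorm (P p) := by
      exact_mod_cast absNorm_pos_of_ne_bot h2
    have h3 : ((Ideal.absNorm (P p) : ℝ)) ^ 2 ≤ x ^ n := by
      calc ((Ideal.absNorm (P p) : ℝ)) ^ 2 ≤ ((p : ℝ)) ^ n := by exact_mod_cast g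
        _ ≤ x ^ n := pow_le_pow_left₀ (Nat.cast_nonneg _) (hG p hp).2.1 n
    have h4 := Real.log_le_log (by positivity) h3
    rw [Real.log_pow, Real.log_pow] at h4
    push_cast at h4
    rw [← Real.log_le_iff_le_exp h2]
    linarith
  have hmain := ev_count0 (K := K) (M := K) (IsScalarTower.toAlgHom ℚ F K).fieldRange hl
    (G.image P) (by
      intro I hI
      rw [mem_image] at hI
      obtain ⟨p, hp, rfl⟩ := hI
      exact (hgood p hp).2.1) (by
      intro I hI J hJ hIJ u v hu hv huv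
      rw [mem_image] at hI hJ
      obtain ⟨p, hp, rfl⟩ := hI
      obtain ⟨q, hq, rfl⟩ := hJ
      have hne : p ≠ q := fun h => hIJ (by rw [h])
      obtain ⟨h1, h2, a, b, c, d, e, f, g⟩ := hgood p hp
      refine not_base (F := F) (Nat.mul_pos finrank_pos hl) h2 (hgood q hq).2.1 hu hv huv h1 a b c d
        e (hRP p hp) (hdist p hp q hq hne _ b d) ?_
      rw [multiplicity_eq_zero_of_not_dvd (hdist p hp q hq hne _ a c)]
      intro h0
      rw [multiplicity_eq_zero] at h0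
      exact h0 dvd_rfl) (Real.exp ((n : ℝ) / 2 * Real.log x)) (by
      intro I hI
      rw [mem_image] at hI
      obtain ⟨p, hp, rfl⟩ := hI
      exact hInorm p hp) (by
      intro A hA
      refine lt_of_lt_of_le ?_ (hT A hA)
      rw [← Real.log_lt_log_iff (by positivity) hT0]
      refine lt_of_lt_of_le ?_ hx
      rw [Real.log_mul (by positivity) (by positivity), Real.log_pow, Real.log_pow, Real.log_pow,
        Real.log_mul (by norm_num) (by positivity), Real.log_exp, Real.log_exp]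
      rw [← hnn, hKK]
      have h1 : Real.log 2 < 1 := by linarith [Real.log_two_lt_d9]
      have h1' : 0 < Real.log 2 := Real.log_pos (by norm_num)
      have hn1 : 1 ≤ n := hn.le
      have e1 : ((n - 1 : ℕ) : ℝ) = n - 1 := by
        rw [Nat.cast_sub hn1, Nat.cast_one]
      push_cast
      rw [e1]
      have hn0 : (0 : ℝ) < n := by linarith
      have h2 : (n : ℝ) * (n - 1) * Real.log 2 ≤ n * n * 1 := by
        calc (n : ℝ) * (n - 1) * Real.log 2 ≤ n * (n - 1) * 1 := by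
              apply mul_le_mul_of_nonneg_left h1.le
              nlinarith
          _ ≤ n * n * 1 := by nlinarith
      have h3 : (n : ℝ) * n * 1 ≤ l * (n * n) := by nlinarith [mul_pos hn0 hn0]
      have h5 : (n : ℝ) * (n - 1) * l < l * (n * n) := by
        have h7 : (0 : ℝ) < n * l := by positivity
        nlinarith
      nlinarith)
  rw [Finset.card_image_of_injOn hPinj] at hmain
  exact hmain.trans (sum_bound' hn)

end rel

end Pool.Agent.Lib.MP_695920_nt.Tow
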