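import Mathlib
import Pool.Agent.Lib.MP_695920_nt.NoInertBound
import Pool.Agent.Lib.MP_695920_nt.Solv.Red
import Pool.Agent.Lib.MP_695920_nt.Tow.Defs
import Pool.Agent.Lib.MP_695920_nt.Tow.EVBase

set_option autoImplicit false

open Finset NumberField Module IsDedekindDomain
open scoped nonZeroDivisors Pointwise IntermediateField

namespace Pool.Agent.Lib.MP_695920_nt.Tow

section one

variable {L : Type} [Field L] [NumberField L]

lemma under_eq_iff (A : IntermediateField ℚ L) (P P' : Ideal (𝓞 L)) :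
    P.under (𝓞 A) = P'.under (𝓞 A) ↔ ∀ x : 𝓞 L, (x : L) ∈ A → (x ∈ P ↔ x ∈ P') := by
  constructor
  · intro h x hx
    let y : 𝓞 A := ⟨⟨x, hx⟩, by
      have h1 : IsIntegral ℤ (x : L) := x.2
      exact (isIntegral_algHom_iff (A.val.restrictScalars ℤ) A.val.injective).mp h1⟩
    have hy : algebraMap (𝓞 A) (𝓞 L) y = x := by
      apply RingOfIntegers.ext
      rfl
    have h2 : y ∈ P.under (𝓞 A) ↔ y ∈ P'.under (𝓞 A) := by rw [h]
    rw [Ideal.under_def, Ideal.under_def, Ideal.mem_comap, Ideal.mem_comap, hy] at h2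
    exact h2
  · intro h
    ext y
    rw [Ideal.under_def, Ideal.under_def, Ideal.mem_comap, Ideal.mem_comap]
    apply h
    exact y.1.2

lemma TwoUp.mono {A A' B B' : IntermediateField ℚ L} (hA : A' ≤ A) (hB : B ≤ B') {p : ℕ}
    (h : TwoUp A B L p) : TwoUp A' B' L p := by
  obtain ⟨P1, P2, h1, h2, h3, h4, h5, h6⟩ := h
  refine ⟨P1, P2, h1, h2, h3, h4, ?_, ?_⟩
  · rw [under_eq_iff] at h5 ⊢
    exact fun x hx => h5 x (hA hx)
  · intro h7
    apply h6
    rw [under_eq_iff] at h7 ⊢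
    exact fun x hx => h7 x (hB hx)

/-- `ev_base` in the lattice of subfields -/
theorem ev_lat {F K : IntermediateField ℚ L} (hFK : F ≤ K) {l : ℕ} (hl : 0 < l)
    (hn : 1 < finrank ℚ K) (T : ℝ) (hT0 : 0 < T)
    (hT : ∀ A : IntermediateField ℚ L, A ≤ K → ¬ A ≤ F → T ≤ |(discr A : ℝ)|)
    (G : Finset ℕ) (x : ℝ) (hx1 : 1 ≤ x)
    (hG : ∀ p ∈ G, p.Prime ∧ (p : ℝ) ≤ x ∧ TwoUp F K L p)
    (hx : (l : ℝ) * finrank ℚ K * (finrank ℚ K - 1) * Real.log x +
      2 * l * (finrank ℚ K : ℝ) ^ 2 ≤ Real.log T) :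
    (G.card : ℝ) * (Nat.card {x : ClassGroup (𝓞 K) // x ^ l = 1} : ℝ) ≤
      Bn (finrank ℚ K) * Real.sqrt |(discr K : ℝ)| *
        Real.log |(discr K : ℝ)| ^ finrank ℚ K := by
  let K' : IntermediateField F L := IntermediateField.extendScalars hFK
  have h1 := ev_base (F := F) (K := K') hl hn T hT0 ?_ G x hx1 ?_ hx
  · exact h1
  · intro A hA
    let f : K' →ₐ[ℚ] L := IsScalarTower.toAlgHom ℚ K' L
    let A' : IntermediateField ℚ L := A.map f
    have e : A ≃ₐ[ℚ] A' := IntermediateField.equivMap A f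
    rw [discr_eq_discr_of_algEquiv A e]
    apply hT A'
    · rintro _ ⟨a, -, rfl⟩
      exact a.2
    · intro hle
      apply hA
      intro a ha
      have h2 : f a ∈ F := hle ⟨a, ha, rfl⟩
      refine ⟨⟨f a, h2⟩, ?_⟩
      rfl
  · intro p hp
    obtain ⟨hpp, hpx, P1, P2, h1, h2, h3, h4, h5, h6⟩ := hG p hp
    refine ⟨hpp, hpx, P1.under (𝓞 K'), P2.under (𝓞 K'), inferInstance, inferInstance, ?_, ?_, ?_, ?_⟩
    · rw [Ideal.under_def, Ideal.mem_comap]
      simpa using h3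
    · rw [Ideal.under_def, Ideal.mem_comap]
      simpa using h4
    · rw [Ideal.under_under, Ideal.under_under]
      exact h5
    · exact h6

end one

section two

variable {L : Type} [Field L] [NumberField L] [IsGalois ℚ L]

lemma smul_coe' (M : IntermediateField ℚ L) (g : Gal(L/M)) (P : Ideal (𝓞 L)) :
    ((M.fixingSubgroupEquiv.symm g : Gal(L/ℚ))) • P = g • P := by
  rfl

lemma exists_conj (M : IntermediateField ℚ L) {P Q : Ideal (𝓞 L)}
    (hP : P.IsPrime) (hQ : Q.IsPrime) (h : P.under (𝓞 M) = Q.under (𝓞 M)) :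
    ∃ v ∈ M.fixingSubgroup, Q = v • P := by
  obtain ⟨g, hg⟩ := Algebra.IsInvariant.exists_smul_of_under_eq (𝓞 M) (𝓞 L) Gal(L/M) P Q h
  refine ⟨M.fixingSubgroupEquiv.symm g, (M.fixingSubgroupEquiv.symm g).2, ?_⟩
  rw [smul_coe', hg]

lemma under_smul_of' (M : IntermediateField ℚ L) {v : Gal(L/ℚ)}
    (hv : v ∈ M.fixingSubgroup) (P : Ideal (𝓞 L)) :
    (v • P).under (𝓞 M) = P.under (𝓞 M) := by
  have h1 : v • P = (M.fixingSubgroupEquiv ⟨v, hv⟩) • P := by
    rw [← smul_coe', MulEquiv.symm_apply_apply]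
  rw [h1]
  exact P.under_smul (𝓞 M) _

lemma mem_smul_nat' {p : ℕ} {P : Ideal (𝓞 L)} (hmem : (p : 𝓞 L) ∈ P) (g : Gal(L/ℚ)) :
    (p : 𝓞 L) ∈ g • P := by
  rw [Ideal.mem_pointwise_smul_iff_inv_smul_mem]
  have h1 : g⁻¹ • (p : 𝓞 L) = (p : 𝓞 L) :=
    map_natCast (MulSemiringAction.toRingHom Gal(L/ℚ) (𝓞 L) g⁻¹) p
  rw [h1]
  exact hmem

end two

end Pool.Agent.Lib.MP_695920_nt.Tow
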