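import Mathlib
import Pool.Agent.Lib.MP_695920_nt.GroupPart
import Pool.Agent.Lib.MP_695920_nt.Decomp
import Pool.Agent.Lib.MP_695920_nt.NonSplit
import Pool.Agent.Lib.MP_695920_nt.Tow.Lat

set_option autoImplicit false

open Finset NumberField Module IsDedekindDomain
open scoped nonZeroDivisors Pointwise IntermediateField

namespace Pool.Agent.Lib.MP_695920_nt.Tow

section grp

variable {G : Type*} [Group G]

/-- the elements `g` such that every orbit of `N` on the cosets of `H` is contained in an orbit of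
the cyclic group generated by `g` -/
def cset (H N : Subgroup G) : Set G :=
  {g | ∀ n ∈ N, ∀ y : G, ∃ i : ℤ, ∃ h ∈ H, n * y = g ^ i * y * h}

lemma cset_conj {H N : Subgroup G} (hN : N.Normal) {g : G} (hg : g ∈ cset H N) (x : G) :
    x * g * x⁻¹ ∈ cset H N := by
  intro n hn y
  obtain ⟨i, h, hh, e⟩ := hg (x⁻¹ * n * x) (by
    have := hN.conj_mem n hn x⁻¹
    rwa [inv_inv] at this) (x⁻¹ * y)
  refine ⟨i, h, hh, ?_⟩
  rw [conj_zpow]
  have e2 : n * y = x * (x⁻¹ * n * x * (x⁻¹ * y)) := by group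
  rw [e2, e]
  group

/-- the group generated by `cset H N` and `N` -/
def cgrp (H N : Subgroup G) : Subgroup G := Subgroup.closure (cset H N ∪ N)

lemma cgrp_normal {H N : Subgroup G} (hN : N.Normal) : (cgrp H N).Normal := by
  constructor
  intro a ha x
  unfold cgrp at ha ⊢
  induction ha using Subgroup.closure_induction with
  | mem a ha =>
    apply Subgroup.subset_closure
    rcases ha with ha | ha
    · exact Or.inl (cset_conj hN ha x)
    · exact Or.inr (hN.conj_mem a ha x)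
  | one => rw [mul_one, mul_inv_cancel]; exact Subgroup.one_mem _
  | mul a b _ _ h1 h2 =>
    have : x * (a * b) * x⁻¹ = (x * a * x⁻¹) * (x * b * x⁻¹) := by group
    rw [this]
    exact Subgroup.mul_mem _ h1 h2
  | inv a _ h1 =>
    have : x * a⁻¹ * x⁻¹ = (x * a * x⁻¹)⁻¹ := by group
    rw [this]
    exact Subgroup.inv_mem _ h1

end grp

section two

variable {L : Type} [Field L] [NumberField L] [IsGalois ℚ L]

lemma frob_mem_cset (M S : IntermediateField ℚ L) {p : ℕ} {P : Ideal (𝓞 L)}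
    (hP : P.IsPrime) (hmem : (p : 𝓞 L) ∈ P) (hS : S.fixingSubgroup.Normal)
    (huniq : ¬ TwoUp (M ⊓ S : IntermediateField ℚ L) M L p) {g : Gal(L/ℚ)}
    (hg : MulAction.stabilizer Gal(L/ℚ) P ≤ Subgroup.zpowers g) :
    g ∈ cset M.fixingSubgroup S.fixingSubgroup := by
  intro n hn y
  have hm : y⁻¹ * n⁻¹ * y ∈ (M ⊓ S : IntermediateField ℚ L).fixingSubgroup := by
    have h1 : y⁻¹ * n⁻¹ * y ∈ S.fixingSubgroup := by
      have := hS.conj_mem n⁻¹ (S.fixingSubgroup.inv_mem hn) y⁻¹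
      rwa [inv_inv] at this
    exact IntermediateField.fixingSubgroup_antitone inf_le_right h1
  set P1 : Ideal (𝓞 L) := y⁻¹ • P with hP1
  set P2 : Ideal (𝓞 L) := (y⁻¹ * n⁻¹ * y) • P1 with hP2
  have hP1p : P1.IsPrime := inferInstance
  have hP2p : P2.IsPrime := inferInstance
  have hu : P1.under (𝓞 M) = P2.under (𝓞 M) := by
    by_contra hne
    exact huniq ⟨P1, P2, hP1p, hP2p, mem_smul_nat' hmem _, mem_smul_nat' (mem_smul_nat' hmem _) _,
      (under_smul_of' _ hm P1).symm, hne⟩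
  obtain ⟨v, hv, he⟩ := exists_conj M hP1p hP2p hu
  rw [hP2, hP1, smul_smul, smul_smul] at he
  have h2 : y * v⁻¹ * y⁻¹ * n⁻¹ ∈ MulAction.stabilizer Gal(L/ℚ) P := by
    rw [MulAction.mem_stabilizer_iff]
    have h3 := congrArg (fun J : Ideal (𝓞 L) => (y * v⁻¹) • J) he
    simp only [smul_smul] at h3
    have e1 : y * v⁻¹ * (y⁻¹ * n⁻¹ * y * y⁻¹) = y * v⁻¹ * y⁻¹ * n⁻¹ := by group
    have e2 : y * v⁻¹ * (v * y⁻¹) = 1 := by group
    rw [e1, e2, one_smul] at h3
    exact h3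
  obtain ⟨i, hi⟩ := hg h2
  refine ⟨-i, v⁻¹, Subgroup.inv_mem _ hv, ?_⟩
  have hi' : g ^ i = y * v⁻¹ * y⁻¹ * n⁻¹ := hi
  rw [zpow_neg, hi']
  group

/-- a generator of the decomposition group -/
lemma exists_frob {p : ℕ} (hp : p.Prime) (hunr : ¬ p ∣ (discr L).natAbs)
    {P : Ideal (𝓞 L)} (hP : P.IsPrime) (hP0 : P ≠ ⊥) (hmem : (p : 𝓞 L) ∈ P) :
    ∃ g : Gal(L/ℚ), MulAction.stabilizer Gal(L/ℚ) P = Subgroup.zpowers g := by
  have hc := isCyclic_stabilizer hp hunr hP hP0 hmem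
  obtain ⟨g, hg⟩ := hc.exists_generator
  refine ⟨g.1, le_antisymm ?_ ?_⟩
  · intro x hx
    obtain ⟨i, hi⟩ := hg ⟨x, hx⟩
    exact ⟨i, congrArg Subtype.val hi⟩
  · rw [Subgroup.zpowers_le]
    exact g.2

/-- primes of the second kind split completely in the fixed field of `cgrp` -/
lemma splits_cgrp (M S : IntermediateField ℚ L) {p : ℕ} (hp : p.Prime)
    (hunr : ¬ p ∣ (discr L).natAbs) (hS : S.fixingSubgroup.Normal)
    (huniq : ¬ TwoUp (M ⊓ S : IntermediateField ℚ L) M L p) :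
    (cset M.fixingSubgroup S.fixingSubgroup).Nonempty ∧
    finrank ℚ (fixF L (cgrp M.fixingSubgroup S.fixingSubgroup)) ≤
      (degOne (fixF L (cgrp M.fixingSubgroup S.fixingSubgroup)) p).card := by
  obtain ⟨P, hP, hP0, hmem⟩ := exists_prime_above (K := L) hp
  obtain ⟨g, hg⟩ := exists_frob hp hunr hP hP0 hmem
  have hgc := frob_mem_cset M S hP hmem hS huniq hg.le
  refine ⟨⟨g, hgc⟩, ?_⟩
  apply splits_of_le hp hP hP0 hmem (cgrp_normal hS)
  rw [hg, Subgroup.zpowers_le]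
  exact Subgroup.subset_closure (Or.inl hgc)

end two

end Pool.Agent.Lib.MP_695920_nt.Tow
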