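import Mathlib

/-!
Primes containing an element `m + θ` have degree one, up to few exceptions (task D1).
-/

set_option autoImplicit false

open Finset NumberField Module IsDedekindDomain
open scoped nonZeroDivisors IntermediateField

namespace Pool.Agent.Lib.MP_695920_nt.Tow

private theorem dega_pb {E : Type*} [Field E] [NumberField E] (θ : E) (hθ : ℚ⟮θ⟯ = ⊤) :
    ∃ B : PowerBasis ℚ E, B.gen = θ := by
  refine ⟨(IntermediateField.adjoin.powerBasis
    (Algebra.IsIntegral.isIntegral (R := ℚ) θ)).map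
      ((IntermediateField.equivOfEq hθ).trans IntermediateField.topEquiv), ?_⟩
  simp only [PowerBasis.map_gen, IntermediateField.adjoin.powerBasis_gen]
  rfl

private theorem dega_bound {E : Type*} [Field E] [NumberField E] (B : PowerBasis ℚ E)
    (Θ : ℝ) (hΘ1 : 1 ≤ Θ) (hΘ : ∀ φ : E →+* ℂ, ‖φ B.gen‖ ≤ Θ) :
    ‖(algebraMap ℚ ℂ (Algebra.discr ℚ B.basis))‖ ≤ (2 * Θ) ^ (finrank ℚ E) ^ 2 := by
  classical
  have hcard : Fintype.card (Fin B.dim) = Fintype.card (E →ₐ[ℚ] ℂ) := by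
    rw [Fintype.card_fin, AlgHom.card ℚ E ℂ, B.finrank]
  have e : Fin B.dim ≃ (E →ₐ[ℚ] ℂ) := Fintype.equivOfCardEq hcard
  rw [Algebra.discr_powerBasis_eq_prod ℚ ℂ B e, norm_prod]
  have h2 : (1 : ℝ) ≤ 2 * Θ := by linarith
  have h1 : ∀ i : Fin B.dim, ‖∏ j ∈ Ioi i, (e j B.gen - e i B.gen) ^ 2‖ ≤
      (2 * Θ) ^ (2 * (Ioi i).card) := by
    intro i
    rw [norm_prod, pow_mul, ← Finset.prod_const]
    refine Finset.prod_le_prod (fun j _ => norm_nonneg _) fun j _ => ?_
    rw [norm_pow]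
    refine pow_le_pow_left₀ (norm_nonneg _) ?_ 2
    refine (norm_sub_le _ _).trans ?_
    have := hΘ (e j : E →+* ℂ)
    have := hΘ (e i : E →+* ℂ)
    simp only [RingHom.coe_coe] at *
    linarith
  refine (Finset.prod_le_prod (fun i _ => norm_nonneg _) fun i _ => h1 i).trans ?_
  rw [Finset.prod_pow_eq_pow_sum]
  refine pow_le_pow_right₀ h2 ?_
  rw [B.finrank]
  have h3 : ∀ i : Fin B.dim, 2 * (Ioi i).card = 2 * (B.dim - 1 - i) := by
    intro i
    rw [Fin.card_Ioi]
  rw [Finset.sum_congr rfl fun i _ => h3 i, ← Finset.mul_sum,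
    Fin.sum_univ_eq_sum_range (fun i => B.dim - 1 - i) B.dim,
    Finset.sum_range_reflect (fun i => i) B.dim, mul_comm, Finset.sum_range_id_mul_two, sq]
  exact Nat.mul_le_mul_left _ (Nat.sub_le _ _)

private theorem dega_quot {R : Type*} [CommRing R] {p : ℕ} (hp : p.Prime) (Q : Ideal R)
    (hQ : Q ≠ ⊤) (hpQ : (p : R) ∈ Q)
    (hs : Function.Surjective (Int.castRingHom (R ⧸ Q))) : Nat.card (R ⧸ Q) = p := by
  have hker : RingHom.ker (Int.castRingHom (R ⧸ Q)) = Ideal.span {(p : ℤ)} := by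
    have hmax : (Ideal.span {(p : ℤ)}).IsMaximal := by
      exact PrincipalIdealRing.isMaximal_of_irreducible
        (Nat.prime_iff_prime_int.1 hp).irreducible
    symm
    refine hmax.eq_of_le ?_ ?_
    · intro h
      have h1 : (1 : ℤ) ∈ RingHom.ker (Int.castRingHom (R ⧸ Q)) := by rw [h]; trivial
      rw [RingHom.mem_ker, map_one] at h1
      exact hQ ((Ideal.eq_top_iff_one Q).2 (Ideal.Quotient.eq_zero_iff_mem.1 (by simpa using h1)))
    · rw [Ideal.span_singleton_le_iff_mem, RingHom.mem_ker]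
      have : (Ideal.Quotient.mk Q (p : R)) = 0 := Ideal.Quotient.eq_zero_iff_mem.2 hpQ
      simpa using this
  have e1 := RingHom.quotientKerEquivOfSurjective hs
  have h1 : Nat.card (ℤ ⧸ RingHom.ker (Int.castRingHom (R ⧸ Q))) = Nat.card (R ⧸ Q) :=
    Nat.card_congr e1.toEquiv
  rw [← h1, hker, Nat.card_congr (Int.quotientSpanNatEquivZMod p).toEquiv, Nat.card_zmod]

/-- Task D1: primes containing an element `m + θ` have degree one, up to few exceptions -/
theorem deg_one_of_mem {E : Type*} [Field E] [NumberField E] (θ : 𝓞 E) (hθ : ℚ⟮(θ : E)⟯ = ⊤)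
    (Θ : ℝ) (hΘ1 : 1 ≤ Θ) (hΘ : ∀ φ : E →+* ℂ, ‖φ (θ : E)‖ ≤ Θ) :
    ∃ Δ : ℕ, Δ ≠ 0 ∧ (Δ : ℝ) ≤ (2 * Θ) ^ (finrank ℚ E) ^ 2 ∧
      ∀ p : ℕ, p.Prime → ¬ p ∣ Δ → ∀ Q : Ideal (𝓞 E), Q.IsPrime → (p : 𝓞 E) ∈ Q →
        ∀ m : ℤ, (m : 𝓞 E) + θ ∈ Q → Ideal.absNorm Q = p := by
  classical
  obtain ⟨B, hB⟩ := dega_pb (θ : E) hθ
  have hint : IsIntegral ℤ B.gen := by rw [hB]; exact RingOfIntegers.isIntegral_coe θ
  have hdi : IsIntegral ℤ (Algebra.discr ℚ B.basis) := by
    refine Algebra.discr_isIntegral ℚ fun i => ?_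
    rw [B.coe_basis]
    exact hint.pow _
  obtain ⟨D, hD⟩ := IsIntegrallyClosed.isIntegral_iff.1 hdi
  have hD' : (D : ℚ) = Algebra.discr ℚ B.basis := by simpa using hD
  have hD0 : D ≠ 0 := by
    rintro rfl
    exact Algebra.discr_not_zero_of_basis ℚ B.basis (by rw [← hD']; simp)
  refine ⟨D.natAbs, Int.natAbs_ne_zero.2 hD0, ?_, ?_⟩
  · have h1 := dega_bound B Θ hΘ1 (by rw [hB]; exact hΘ)
    rw [← hD'] at h1
    have h2 : ‖(algebraMap ℚ ℂ (D : ℚ))‖ = (D.natAbs : ℝ) := by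
      simp [Complex.norm_intCast, Nat.cast_natAbs]
    rwa [h2] at h1
  · intro p hp hpD Q hQ hpQ m hm
    have hsurj : Function.Surjective (Int.castRingHom (𝓞 E ⧸ Q)) := by
      intro y
      obtain ⟨x, rfl⟩ := Ideal.Quotient.mk_surjective y
      have h1 := Algebra.discr_mul_isIntegral_mem_adjoin (R := ℤ) ℚ hint
        (RingOfIntegers.isIntegral_coe x)
      rw [hB, Algebra.adjoin_singleton_eq_range_aeval] at h1
      obtain ⟨P, hP⟩ := h1
      have hP' : Polynomial.aeval θ P = (D : 𝓞 E) * x := by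
        apply RingOfIntegers.coe_injective
        have h2 : algebraMap (𝓞 E) E (Polynomial.aeval θ P) = Polynomial.aeval (θ : E) P := by
          have := Polynomial.aeval_algebraMap_apply E θ P
          exact this.symm
        refine h2.trans ?_
        rw [map_mul, map_intCast]
        refine Eq.trans (b := Algebra.discr ℚ B.basis • (x : E)) hP ?_
        rw [← hD', Algebra.smul_def]
        simp
      -- reduce modulo `Q`
      have h3 : Ideal.Quotient.mk Q θ = ((-m : ℤ) : 𝓞 E ⧸ Q) := by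
        have := Ideal.Quotient.eq_zero_iff_mem.2 hm
        rw [map_add, map_intCast] at this
        rw [Int.cast_neg]
        exact eq_neg_of_add_eq_zero_right this
      have h4 : Ideal.Quotient.mk Q (Polynomial.aeval θ P) = ((P.eval (-m) : ℤ) : 𝓞 E ⧸ Q) := by
        have h5 : Ideal.Quotient.mk Q (Polynomial.aeval θ P) =
            Polynomial.aeval (Ideal.Quotient.mk Q θ) P := by
          have := Polynomial.aeval_algebraMap_apply (𝓞 E ⧸ Q) θ P
          exact this.symm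
        rw [h5, h3]
        have h6 := Polynomial.aeval_algebraMap_apply (𝓞 E ⧸ Q) (-m : ℤ) P
        simpa using h6
      have hcop : IsCoprime D (p : ℤ) := by
        rw [Int.isCoprime_iff_gcd_eq_one]
        have : Nat.Coprime p D.natAbs := (Nat.Prime.coprime_iff_not_dvd hp).2 hpD
        simpa [Int.gcd, Nat.Coprime, Nat.gcd_comm] using this
      obtain ⟨u, v, huv⟩ := hcop
      refine ⟨u * P.eval (-m), ?_⟩
      have hp0 : Ideal.Quotient.mk Q (p : 𝓞 E) = 0 := Ideal.Quotient.eq_zero_iff_mem.2 hpQ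
      have h7 : Ideal.Quotient.mk Q x = ((u * D + v * p : ℤ) : 𝓞 E ⧸ Q) * Ideal.Quotient.mk Q x := by
        rw [huv]; simp
      rw [h7]
      rw [hP', map_mul, map_intCast] at h4
      have hp1 : ((p : ℕ) : 𝓞 E ⧸ Q) = 0 := by simpa using hp0
      push_cast
      rw [hp1]
      simp only [eq_intCast, Int.cast_mul, mul_zero, add_zero]
      rw [← h4]
      ring
    rw [Ideal.absNorm_apply, Submodule.cardQuot_apply]
    exact dega_quot hp Q hQ.ne_top hpQ hsurj

end Pool.Agent.Lib.MP_695920_nt.Tow
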