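import Mathlib
import Pool.Agent.Lib.MP_695920_nt.Solv.DiscRam

set_option autoImplicit false

open Finset NumberField Module IsDedekindDomain
open scoped nonZeroDivisors

namespace Pool.Agent.Lib.MP_695920_nt.Tow

open Pool.Agent.Lib.MP_695920_nt.Solv

section

variable {E : Type*} [Field E] [NumberField E]

lemma finite_mult {Q I : Ideal (𝓞 E)} (hQ : Q.IsPrime) (hQ0 : Q ≠ ⊥) (hI : I ≠ ⊥) :
    FiniteMultiplicity Q I :=
  FiniteMultiplicity.of_prime_left (Ideal.prime_of_isPrime hQ0 hQ) hI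

/-- the valuation at `p` of the norm of a prime ideal -/
lemma fact_absNorm_prime {p : ℕ} (hp : p.Prime) (P : Ideal (𝓞 E)) (hP : P.IsPrime) (hP0 : P ≠ ⊥) :
    (Ideal.absNorm P).factorization p =
      ∑ Q ∈ IsDedekindDomain.primesOverFinset (Ideal.span {(p : ℤ)}) (𝓞 E),
        Q.inertiaDeg ℤ * multiplicity Q P := by
  classical
  have hPP : Prime P := Ideal.prime_of_isPrime hP0 hP
  have hmul : ∀ Q : Ideal (𝓞 E), Q.IsPrime → Q ≠ ⊥ → Q ≠ P → multiplicity Q P = 0 := by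
    intro Q hQ hQ0 hne
    rw [multiplicity_eq_zero]
    intro hd
    apply hne
    have hle : P ≤ Q := Ideal.le_of_dvd hd
    exact ((hP.isMaximal hP0).eq_of_le hQ.ne_top hle).symm
  by_cases hm : P ∈ IsDedekindDomain.primesOverFinset (Ideal.span {(p : ℤ)}) (𝓞 E)
  · rw [Finset.sum_eq_single_of_mem P hm]
    · obtain ⟨_, hPo⟩ := (mem_primesOverFinset_nat hp).mp hm
      rw [← Ideal.pow_inertiaDeg p P, hp.factorization_pow, Finsupp.single_eq_same,
        multiplicity_self, mul_one]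
    · intro Q hQ hne
      obtain ⟨hQp, hQo⟩ := (mem_primesOverFinset_nat hp).mp hQ
      rw [hmul Q hQp (ne_bot_of_liesOver hp hQo) hne, mul_zero]
  · rw [Finset.sum_eq_zero]
    · have : NeZero P := ⟨hP0⟩
      set q := Ideal.absNorm (Ideal.under ℤ P) with hq
      have hqp : q.Prime := Nat.absNorm_under_prime P
      have hqP : (q : 𝓞 E) ∈ P := Int.absNorm_under_mem P
      have hPo : P.LiesOver (Ideal.span {(q : ℤ)}) := liesOver_of_mem hP hqp hqP
      have hne : q ≠ p := by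
        intro h
        apply hm
        rw [mem_primesOverFinset_nat hp]
        rw [h] at hPo
        exact ⟨hP, hPo⟩
      rw [← Ideal.pow_inertiaDeg q P, hqp.factorization_pow, Finsupp.single_eq_of_ne]
      exact hne.symm
    · intro Q hQ
      obtain ⟨hQp, hQo⟩ := (mem_primesOverFinset_nat hp).mp hQ
      rw [hmul Q hQp (ne_bot_of_liesOver hp hQo), mul_zero]
      rintro rfl
      exact hm hQ

/-- the valuation at `p` of the norm of an ideal -/
lemma fact_absNorm {p : ℕ} (hp : p.Prime) (I : Ideal (𝓞 E)) (hI : I ≠ 0) :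
    (Ideal.absNorm I).factorization p =
      ∑ Q ∈ IsDedekindDomain.primesOverFinset (Ideal.span {(p : ℤ)}) (𝓞 E),
        Q.inertiaDeg ℤ * multiplicity Q I := by
  classical
  induction I using UniqueFactorizationMonoid.induction_on_prime with
  | h₁ => exact absurd rfl hI
  | h₂ x hx =>
    have hx1 : x = 1 := by simpa using hx
    subst hx1
    rw [Finset.sum_eq_zero]
    · simp
    · intro Q hQ
      obtain ⟨hQp, hQo⟩ := (mem_primesOverFinset_nat hp).mp hQ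
      have h0 : multiplicity Q (1 : Ideal (𝓞 E)) = 0 := by
        rw [multiplicity_eq_zero]
        intro hd
        exact (Ideal.prime_of_isPrime (ne_bot_of_liesOver hp hQo) hQp).not_isUnit
          (isUnit_of_dvd_one hd)
      rw [h0, mul_zero]
  | h₃ a P ha hP ih =>
    have hPb : P ≠ ⊥ := hP.ne_zero
    have h1 : Ideal.absNorm a ≠ 0 := by
      rw [Ne, Ideal.absNorm_eq_zero_iff]; exact ha
    have h2 : Ideal.absNorm P ≠ 0 := by
      rw [Ne, Ideal.absNorm_eq_zero_iff]; exact hPb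
    rw [map_mul, Nat.factorization_mul h2 h1, Finsupp.add_apply, ih ha,
      fact_absNorm_prime hp P (Ideal.isPrime_of_prime hP) hPb, ← Finset.sum_add_distrib]
    apply Finset.sum_congr rfl
    intro Q hQ
    obtain ⟨hQp, hQo⟩ := (mem_primesOverFinset_nat hp).mp hQ
    have hQ0 := ne_bot_of_liesOver hp hQo
    rw [← mul_add, multiplicity_mul (Ideal.prime_of_isPrime hQ0 hQp)
      (finite_mult hQp hQ0 (mul_ne_zero hP.ne_zero ha))]

lemma e_pos {p : ℕ} (hp : p.Prime) {Q : Ideal (𝓞 E)} (hQ : Q.IsPrime)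
    (hQo : Q.LiesOver (Ideal.span {(p : ℤ)})) : 0 < Q.ramificationIdx ℤ := by
  rcases Nat.eq_zero_or_pos (Q.ramificationIdx ℤ) with h | h
  · exfalso
    have hQ0 := ne_bot_of_liesOver hp hQo
    have hp0 : (Ideal.span {(p : ℤ)}).map (algebraMap ℤ (𝓞 E)) ≠ ⊥ := by
      rw [Ideal.map_span, Set.image_singleton]
      simpa using hp.ne_zero
    rw [Ideal.IsDedekindDomain.ramificationIdx_eq_multiplicity (Ideal.span {(p : ℤ)}) Q hp0,
      multiplicity_eq_zero] at h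
    apply h
    rw [Ideal.dvd_iff_le, Ideal.map_le_iff_le_comap]
    exact (hQo.over).le
  · exact h

/-- integers in a power of a prime above `p` -/
lemma dvd_of_mem_pow {p : ℕ} (hp : p.Prime) {Q : Ideal (𝓞 E)} (hQ : Q.IsPrime)
    (hQo : Q.LiesOver (Ideal.span {(p : ℤ)})) {i : ℕ} {a : ℤ} (ha : (a : 𝓞 E) ∈ Q ^ (i + 1)) :
    (p : ℤ) ^ (i / Q.ramificationIdx ℤ + 1) ∣ a := by
  rcases eq_or_ne a 0 with rfl | ha0
  · exact dvd_zero _
  have hQ0 := ne_bot_of_liesOver hp hQo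
  have hQP := Ideal.prime_of_isPrime hQ0 hQ
  have hp0 : (Ideal.span {(p : ℤ)}).map (algebraMap ℤ (𝓞 E)) ≠ ⊥ := by
    rw [Ideal.map_span, Set.image_singleton]
    simpa using hp.ne_zero
  have he := Ideal.IsDedekindDomain.ramificationIdx_eq_multiplicity (Ideal.span {(p : ℤ)}) Q hp0
  rw [Ideal.map_span, Set.image_singleton] at he hp0
  have hpZ : Prime (p : ℤ) := Nat.prime_iff_prime_int.mp hp
  obtain ⟨b, hab, hb⟩ := (FiniteMultiplicity.of_prime_left hpZ ha0).exists_eq_pow_mul_and_not_dvd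
  set j := multiplicity (p : ℤ) a with hj
  have hbQ : ¬ Q ∣ Ideal.span {(b : 𝓞 E)} := by
    rw [Ideal.dvd_span_singleton]
    intro h
    apply hb
    have h1 : b ∈ Q.under ℤ := by
      rw [Ideal.under, Ideal.mem_comap]
      simpa using h
    rw [← hQo.over, Ideal.mem_span_singleton] at h1
    exact h1
  have hfac : Ideal.span {(a : 𝓞 E)} =
      Ideal.span {(algebraMap ℤ (𝓞 E)) (p : ℤ)} ^ j * Ideal.span {(b : 𝓞 E)} := by
    rw [Ideal.span_singleton_pow, Ideal.span_singleton_mul_span_singleton]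
    congr 2
    rw [hab]
    push_cast
    simp
  have ha0' : Ideal.span {(a : 𝓞 E)} ≠ ⊥ := by
    rw [Ne, Ideal.span_singleton_eq_bot]
    exact_mod_cast ha0
  have hfin : FiniteMultiplicity Q (Ideal.span {(a : 𝓞 E)}) := finite_mult hQ hQ0 ha0'
  have hmu : multiplicity Q (Ideal.span {(a : 𝓞 E)}) = j * Q.ramificationIdx ℤ := by
    rw [hfac, multiplicity_mul hQP (by rw [← hfac]; exact hfin),
      (finite_mult hQ hQ0 hp0).multiplicity_pow hQP, ← he, multiplicity_eq_zero.mpr hbQ, add_zero]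
  have h1 : i + 1 ≤ multiplicity Q (Ideal.span {(a : 𝓞 E)}) := by
    rw [← hfin.pow_dvd_iff_le_multiplicity, Ideal.dvd_span_singleton]
    exact ha
  rw [hmu] at h1
  have h2 : i / Q.ramificationIdx ℤ < j := by
    rw [Nat.div_lt_iff_lt_mul (e_pos hp hQ hQo)]
    omega
  rw [hab]
  exact dvd_mul_of_dvd_left (pow_dvd_pow _ h2) _

lemma card_res_le (Z q : ℕ) (hq : 0 < q) (v : ℕ) :
    (((Ico Z (2 * Z)).filter (fun m => m ≡ v [MOD q])).card : ℝ) ≤ (Z : ℝ) / q + 1 := by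
  have h := Nat.Ico_filter_modEq_card Z (2 * Z) hq v
  have hq' : (0 : ℚ) < q := by exact_mod_cast hq
  have h1 : ((((Ico Z (2 * Z)).filter (fun m => m ≡ v [MOD q])).card : ℤ) : ℚ) ≤
      (Z : ℚ) / q + 1 := by
    rw [h]
    push_cast
    apply max_le
    · have h2 := Int.ceil_lt_add_one (((2 * Z : ℕ) - (v : ℚ)) / (q : ℚ))
      have h3 := Int.le_ceil (((Z : ℕ) - (v : ℚ)) / (q : ℚ))
      have h4 : ((2 * Z : ℕ) - (v : ℚ)) / (q : ℚ) = ((Z : ℕ) - (v : ℚ)) / (q : ℚ) + (Z : ℚ) / q := by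
        push_cast
        rw [← add_div]
        congr 1
        ring
      push_cast at h2 h3 h4 ⊢
      linarith
    · positivity
  have h2 : ((((Ico Z (2 * Z)).filter (fun m => m ≡ v [MOD q])).card : ℚ) : ℝ) ≤
      (((Z : ℚ) / q + 1 : ℚ) : ℝ) := by
    exact_mod_cast h1
  push_cast at h2
  exact h2

lemma count_pow_le {p : ℕ} (hp : p.Prime) {Q : Ideal (𝓞 E)} (hQ : Q.IsPrime)
    (hQo : Q.LiesOver (Ideal.span {(p : ℤ)})) (θ : 𝓞 E) (Z i : ℕ) [DecidablePred fun m : ℕ =>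
      (m : 𝓞 E) + θ ∈ Q ^ (i + 1)] :
    (((Ico Z (2 * Z)).filter (fun m : ℕ => (m : 𝓞 E) + θ ∈ Q ^ (i + 1))).card : ℝ) ≤
      (Z : ℝ) / (p : ℝ) ^ (i / Q.ramificationIdx ℤ + 1) + 1 := by
  rcases ((Ico Z (2 * Z)).filter (fun m : ℕ => (m : 𝓞 E) + θ ∈ Q ^ (i + 1))).eq_empty_or_nonempty
    with h | ⟨m0, hm0⟩
  · rw [h, Finset.card_empty]
    push_cast
    positivity
  · rw [Finset.mem_filter] at hm0
    have hsub : (Ico Z (2 * Z)).filter (fun m : ℕ => (m : 𝓞 E) + θ ∈ Q ^ (i + 1)) ⊆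
        (Ico Z (2 * Z)).filter (fun m => m ≡ m0 [MOD p ^ (i / Q.ramificationIdx ℤ + 1)]) := by
      intro m hm
      rw [Finset.mem_filter] at hm ⊢
      refine ⟨hm.1, ?_⟩
      have h1 : (((m0 : ℤ) - (m : ℤ) : ℤ) : 𝓞 E) ∈ Q ^ (i + 1) := by
        have h2 := Ideal.sub_mem _ hm0.2 hm.2
        push_cast
        convert h2 using 1
        ring
      have h3 := dvd_of_mem_pow hp hQ hQo h1
      rw [Nat.modEq_iff_dvd]
      push_cast
      exact h3
    have h4 := card_res_le Z (p ^ (i / Q.ramificationIdx ℤ + 1)) (pow_pos hp.pos _) m0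
    push_cast at h4
    refine le_trans ?_ h4
    exact_mod_cast Finset.card_le_card hsub

lemma geom_le (e p J : ℕ) (he : 0 < e) (hp : 2 ≤ p) :
    ∑ i ∈ range (e * J), 1 / (p : ℝ) ^ (i / e + 1) ≤ e / ((p : ℝ) - 1) := by
  have hp1 : (0 : ℝ) < (p : ℝ) - 1 := by
    have : (2 : ℝ) ≤ p := by exact_mod_cast hp
    linarith
  have hp0 : (0 : ℝ) < p := by linarith
  have h1 : ∑ i ∈ range (e * J), 1 / (p : ℝ) ^ (i / e + 1) =
      e / ((p : ℝ) - 1) * (1 - 1 / (p : ℝ) ^ J) := by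
    induction J with
    | zero => simp
    | succ J ih =>
      rw [mul_add, mul_one, Finset.sum_range_add, ih]
      have h2 : ∀ x ∈ range e, 1 / (p : ℝ) ^ ((e * J + x) / e + 1) = 1 / (p : ℝ) ^ (J + 1) := by
        intro x hx
        rw [Finset.mem_range] at hx
        rw [Nat.mul_add_div he, Nat.div_eq_of_lt hx, add_zero]
      rw [Finset.sum_congr rfl h2, Finset.sum_const, Finset.card_range, nsmul_eq_mul]
      field_simp
      ring
  rw [h1]
  have h2 : (0 : ℝ) ≤ 1 / (p : ℝ) ^ J := by positivity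
  have h3 : (0 : ℝ) ≤ e / ((p : ℝ) - 1) := by positivity
  nlinarith

lemma one_prime (θ : 𝓞 E) (Z : ℕ) (X : ℝ) (hX1 : 1 ≤ X)
    (h0 : ∀ m ∈ Ico Z (2 * Z), ((m : ℕ) : 𝓞 E) + θ ≠ 0)
    (hX : ∀ m ∈ Ico Z (2 * Z), (Ideal.absNorm (Ideal.span {((m : ℕ) : 𝓞 E) + θ}) : ℝ) ≤ X)
    {p : ℕ} (hp : p.Prime) {Q : Ideal (𝓞 E)} (hQ : Q.IsPrime)
    (hQo : Q.LiesOver (Ideal.span {(p : ℤ)})) :
    (∑ m ∈ Ico Z (2 * Z), (multiplicity Q (Ideal.span {((m : ℕ) : 𝓞 E) + θ}) : ℝ)) *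
      (Q.inertiaDeg ℤ * Real.log p) ≤
      ((Q.ramificationIdx ℤ * Q.inertiaDeg ℤ : ℕ) : ℝ) * Z * (Real.log p / ((p : ℝ) - 1)) +
        Real.log X := by
  classical
  have hQ0 := ne_bot_of_liesOver hp hQo
  have hf : 0 < Q.inertiaDeg ℤ := Ideal.inertiaDeg_pos Q ℤ
  have he := e_pos hp hQ hQo
  set f := Q.inertiaDeg ℤ with hfdef
  set e := Q.ramificationIdx ℤ with hedef
  have hp1 : (1 : ℝ) < p := by exact_mod_cast hp.one_lt
  have hlp : 0 < Real.log p := Real.log_pos hp1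
  have hf' : (0 : ℝ) < f := by exact_mod_cast hf
  have hflp : 0 < (f : ℝ) * Real.log p := mul_pos hf' hlp
  have hlX : 0 ≤ Real.log X := Real.log_nonneg hX1
  set K := ⌊Real.log X / (f * Real.log p)⌋₊ with hK
  have hKle : (K : ℝ) * (f * Real.log p) ≤ Real.log X := by
    rw [← le_div_iff₀ hflp]
    exact Nat.floor_le (div_nonneg hlX hflp.le)
  have hne : ∀ m ∈ Ico Z (2 * Z), Ideal.span {((m : ℕ) : 𝓞 E) + θ} ≠ ⊥ := by
    intro m hm
    rw [Ne, Ideal.span_singleton_eq_bot]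
    exact h0 m hm
  have hc : ∀ m ∈ Ico Z (2 * Z), multiplicity Q (Ideal.span {((m : ℕ) : 𝓞 E) + θ}) ≤ K := by
    intro m hm
    set c := multiplicity Q (Ideal.span {((m : ℕ) : 𝓞 E) + θ}) with hcdef
    have h1 : Q ^ c ∣ Ideal.span {((m : ℕ) : 𝓞 E) + θ} := pow_multiplicity_dvd _ _
    have h2 := Ideal.absNorm_dvd_absNorm_of_le (Ideal.le_of_dvd h1)
    have h3 : Ideal.absNorm (Ideal.span {((m : ℕ) : 𝓞 E) + θ}) ≠ 0 := by
      rw [Ne, Ideal.absNorm_eq_zero_iff]; exact hne m hm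
    have h4 := Nat.le_of_dvd (Nat.pos_of_ne_zero h3) h2
    rw [map_pow, ← Ideal.pow_inertiaDeg p Q, ← pow_mul] at h4
    have h5 : ((p ^ (f * c) : ℕ) : ℝ) ≤ X := le_trans (by exact_mod_cast h4) (hX m hm)
    push_cast at h5
    have h6 := Real.log_le_log (by positivity) h5
    rw [Real.log_pow] at h6
    push_cast at h6
    rw [hK, Nat.le_floor_iff (div_nonneg hlX hflp.le), le_div_iff₀ hflp]
    calc (c : ℝ) * (f * Real.log p) = f * c * Real.log p := by ring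
      _ ≤ Real.log X := h6
  have hcs : ∀ m ∈ Ico Z (2 * Z), (multiplicity Q (Ideal.span {((m : ℕ) : 𝓞 E) + θ}) : ℝ) =
      ∑ i ∈ range K, if (m : 𝓞 E) + θ ∈ Q ^ (i + 1) then (1 : ℝ) else 0 := by
    intro m hm
    rw [← Finset.sum_filter, Finset.sum_const, nsmul_eq_mul, mul_one]
    congr 1
    have h1 : (range K).filter (fun i => (m : 𝓞 E) + θ ∈ Q ^ (i + 1)) =
        range (multiplicity Q (Ideal.span {((m : ℕ) : 𝓞 E) + θ})) := by
      ext i
      have hfin : FiniteMultiplicity Q (Ideal.span {((m : ℕ) : 𝓞 E) + θ}) :=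
        finite_mult hQ hQ0 (hne m hm)
      have h2 : (m : 𝓞 E) + θ ∈ Q ^ (i + 1) ↔
          i + 1 ≤ multiplicity Q (Ideal.span {((m : ℕ) : 𝓞 E) + θ}) := by
        rw [← hfin.pow_dvd_iff_le_multiplicity, Ideal.dvd_span_singleton]
      rw [Finset.mem_filter, Finset.mem_range, Finset.mem_range, h2]
      have := hc m hm
      omega
    rw [h1, Finset.card_range]
  have hsum : (∑ m ∈ Ico Z (2 * Z), (multiplicity Q (Ideal.span {((m : ℕ) : 𝓞 E) + θ}) : ℝ)) ≤
      K + Z * (e / ((p : ℝ) - 1)) := by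
    rw [Finset.sum_congr rfl hcs, Finset.sum_comm]
    have h1 : ∀ i ∈ range K, (∑ m ∈ Ico Z (2 * Z),
        if (m : 𝓞 E) + θ ∈ Q ^ (i + 1) then (1 : ℝ) else 0) ≤
        (Z : ℝ) * (1 / (p : ℝ) ^ (i / e + 1)) + 1 := by
      intro i _
      rw [← Finset.sum_filter, Finset.sum_const, nsmul_eq_mul, mul_one, mul_one_div]
      exact count_pow_le hp hQ hQo θ Z i
    refine (Finset.sum_le_sum h1).trans ?_
    rw [Finset.sum_add_distrib, ← Finset.mul_sum, Finset.sum_const, Finset.card_range,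
      nsmul_eq_mul, mul_one]
    have h2 : ∑ i ∈ range K, 1 / (p : ℝ) ^ (i / e + 1) ≤ e / ((p : ℝ) - 1) := by
      refine le_trans ?_ (geom_le e p K he hp.two_le)
      apply Finset.sum_le_sum_of_subset_of_nonneg
      · intro i hi
        rw [Finset.mem_range] at hi ⊢
        exact lt_of_lt_of_le hi (Nat.le_mul_of_pos_left _ he)
      · intro i _ _
        positivity
    have h3 := mul_le_mul_of_nonneg_left h2 (Nat.cast_nonneg (α := ℝ) Z)
    linarith
  calc (∑ m ∈ Ico Z (2 * Z), (multiplicity Q (Ideal.span {((m : ℕ) : 𝓞 E) + θ}) : ℝ)) *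
        (f * Real.log p) ≤ (K + Z * (e / ((p : ℝ) - 1))) * (f * Real.log p) :=
        mul_le_mul_of_nonneg_right hsum hflp.le
    _ = K * (f * Real.log p) + ((e * f : ℕ) : ℝ) * Z * (Real.log p / ((p : ℝ) - 1)) := by
        push_cast
        ring
    _ ≤ _ := by linarith

/-- Task D2: the contribution of one prime to the norms of `m + θ` -/
theorem prime_contrib {E : Type*} [Field E] [NumberField E] (θ : 𝓞 E) (Z : ℕ) (hZ : 1 ≤ Z) (X : ℝ)
    (hX1 : 1 ≤ X)
    (h0 : ∀ m ∈ Ico Z (2 * Z), ((m : ℕ) : 𝓞 E) + θ ≠ 0)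
    (hX : ∀ m ∈ Ico Z (2 * Z), (Ideal.absNorm (Ideal.span {((m : ℕ) : 𝓞 E) + θ}) : ℝ) ≤ X)
    {p : ℕ} (hp : p.Prime) :
    (∑ m ∈ Ico Z (2 * Z), ((Ideal.absNorm (Ideal.span {((m : ℕ) : 𝓞 E) + θ})).factorization p : ℝ))
      * Real.log p ≤ finrank ℚ E * Z * (Real.log p / ((p : ℝ) - 1)) + finrank ℚ E * Real.log X := by
  classical
  have _ := hZ
  set F := IsDedekindDomain.primesOverFinset (Ideal.span {(p : ℤ)}) (𝓞 E) with hF
  have hlX : 0 ≤ Real.log X := Real.log_nonneg hX1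
  have hne : ∀ m ∈ Ico Z (2 * Z), Ideal.span {((m : ℕ) : 𝓞 E) + θ} ≠ 0 := by
    intro m hm
    rw [Ne, Ideal.zero_eq_bot, Ideal.span_singleton_eq_bot]
    exact h0 m hm
  have h1 : (∑ m ∈ Ico Z (2 * Z),
      ((Ideal.absNorm (Ideal.span {((m : ℕ) : 𝓞 E) + θ})).factorization p : ℝ)) * Real.log p =
      ∑ Q ∈ F, (∑ m ∈ Ico Z (2 * Z), (multiplicity Q (Ideal.span {((m : ℕ) : 𝓞 E) + θ}) : ℝ)) *
        (Q.inertiaDeg ℤ * Real.log p) := by
    have h2 : ∀ m ∈ Ico Z (2 * Z),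
        ((Ideal.absNorm (Ideal.span {((m : ℕ) : 𝓞 E) + θ})).factorization p : ℝ) =
        ∑ Q ∈ F, (Q.inertiaDeg ℤ : ℝ) *
          (multiplicity Q (Ideal.span {((m : ℕ) : 𝓞 E) + θ}) : ℝ) := by
      intro m hm
      rw [fact_absNorm hp _ (hne m hm)]
      push_cast
      rfl
    rw [Finset.sum_congr rfl h2, Finset.sum_comm, Finset.sum_mul]
    apply Finset.sum_congr rfl
    intro Q _
    rw [← Finset.mul_sum]
    ring
  rw [h1]
  have h3 : ∀ Q ∈ F, (∑ m ∈ Ico Z (2 * Z),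
      (multiplicity Q (Ideal.span {((m : ℕ) : 𝓞 E) + θ}) : ℝ)) * (Q.inertiaDeg ℤ * Real.log p) ≤
      ((Q.ramificationIdx ℤ * Q.inertiaDeg ℤ : ℕ) : ℝ) * Z * (Real.log p / ((p : ℝ) - 1)) +
        Real.log X := by
    intro Q hQ
    obtain ⟨hQp, hQo⟩ := (mem_primesOverFinset_nat hp).mp hQ
    exact one_prime θ Z X hX1 h0 hX hp hQp hQo
  refine (Finset.sum_le_sum h3).trans ?_
  rw [Finset.sum_add_distrib, Finset.sum_const, nsmul_eq_mul, ← Finset.sum_mul, ← Finset.sum_mul,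
    ← Nat.cast_sum, sum_ef hp]
  have h4 : F.card ≤ finrank ℚ E := by
    rw [← sum_ef (K := E) hp, ← hF, Finset.card_eq_sum_ones]
    apply Finset.sum_le_sum
    intro Q hQ
    obtain ⟨hQp, hQo⟩ := (mem_primesOverFinset_nat hp).mp hQ
    exact Nat.mul_pos (e_pos hp hQp hQo) (Ideal.inertiaDeg_pos Q ℤ)
  have h5 : (F.card : ℝ) * Real.log X ≤ finrank ℚ E * Real.log X :=
    mul_le_mul_of_nonneg_right (by exact_mod_cast h4) hlX
  linarith

end

end Pool.Agent.Lib.MP_695920_nt.Tow
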