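import Mathlib
import Pool.Agent.Lib.MP_695920_nt.NonSplit
import Pool.Agent.Lib.MP_695920_nt.Tow.DegA
import Pool.Agent.Lib.MP_695920_nt.Tow.DegB

/-!
Many small primes have a factor of degree one (task D3).
-/

set_option autoImplicit false

open Finset NumberField Module IsDedekindDomain
open scoped nonZeroDivisors IntermediateField

namespace Pool.Agent.Lib.MP_695920_nt.Tow

private lemma le_absNorm_span {E : Type*} [Field E] [NumberField E] (α : 𝓞 E) (X : ℝ) (hX0 : 0 ≤ X)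
    (hX : ∀ φ : E →ₐ[ℚ] ℂ, X ≤ ‖φ (α : E)‖) :
    X ^ finrank ℚ E ≤ (Ideal.absNorm (Ideal.span {α}) : ℝ) := by
  have h1 : (Ideal.absNorm (Ideal.span {α}) : ℝ) = ‖algebraMap ℚ ℂ (Algebra.norm ℚ (α : E))‖ := by
    rw [Ideal.absNorm_span_singleton, ← Algebra.coe_norm_int]
    simp
  rw [h1, Algebra.norm_eq_prod_embeddings ℚ ℂ, norm_prod]
  calc X ^ finrank ℚ E = ∏ σ : E →ₐ[ℚ] ℂ, X := by
        rw [Finset.prod_const, Finset.card_univ, AlgHom.card]
    _ ≤ ∏ σ : E →ₐ[ℚ] ℂ, ‖σ (α : E)‖ :=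
        Finset.prod_le_prod (fun _ _ => hX0) (fun σ _ => hX σ)

private lemma log_le_two_sqrt (x : ℝ) (hx : 0 < x) : Real.log x ≤ 2 * Real.sqrt x := by
  have h1 : Real.log x = 2 * Real.log (Real.sqrt x) := by
    rw [Real.log_sqrt hx.le]
    ring
  have h2 := Real.log_le_sub_one_of_pos (Real.sqrt_pos.mpr hx)
  rw [h1]
  linarith

/-- the number of prime factors is at most logarithmic -/
private lemma card_primeFactors_le (Δ : ℕ) (hΔ : Δ ≠ 0) :
    (Δ.primeFactors.card : ℝ) * (1 / 2) ≤ Real.log Δ := by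
  have h1 : ∏ p ∈ Δ.primeFactors, p ∣ Δ := Nat.prod_primeFactors_dvd Δ
  have h2 := Nat.le_of_dvd (Nat.pos_of_ne_zero hΔ) h1
  have h3 : 2 ^ Δ.primeFactors.card ≤ ∏ p ∈ Δ.primeFactors, p := by
    rw [← Finset.prod_const]
    exact Finset.prod_le_prod' fun p hp => (Nat.prime_of_mem_primeFactors hp).two_le
  have h4 : ((2 : ℝ) ^ Δ.primeFactors.card) ≤ (Δ : ℝ) := by exact_mod_cast h3.trans h2
  have h5 := Real.log_le_log (by positivity) h4
  rw [Real.log_pow] at h5
  have h6 : (1 / 2 : ℝ) ≤ Real.log 2 := by linarith [Real.log_two_gt_d9]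
  exact (mul_le_mul_of_nonneg_left h6 (Nat.cast_nonneg _)).trans h5

/-- the sum of `log p / (p - 1)` over few primes is small -/
private lemma sum_log_div_few (w : ℕ) (hw : 3 ≤ w) (T : Finset ℕ) (hT : ∀ p ∈ T, p.Prime)
    (hc : (T.card : ℝ) ≤ 2 * w) :
    ∑ p ∈ T, Real.log p / ((p : ℝ) - 1) ≤ 6 * Real.log w + 4 * Real.log 2 := by
  have hw3 : (3 : ℝ) ≤ w := by exact_mod_cast hw
  have hw0 : (0 : ℝ) < w := by linarith
  have hlogw : 0 < Real.log w := Real.log_pos (by linarith)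
  have h1 : ∑ p ∈ T, Real.log p / ((p : ℝ) - 1) ≤ ∑ p ∈ T, 2 * (Real.log p / (p : ℝ)) := by
    apply Finset.sum_le_sum
    intro p hp
    have hp2 : (2 : ℝ) ≤ p := by exact_mod_cast (hT p hp).two_le
    have hlogp : 0 ≤ Real.log p := Real.log_nonneg (by linarith)
    rw [← mul_div_assoc, div_le_div_iff₀ (by linarith) (by linarith)]
    nlinarith
  refine h1.trans ?_
  rw [← Finset.mul_sum, ← Finset.sum_filter_add_sum_filter_not T (fun p => p ≤ w)]
  have h2 : ∑ p ∈ T.filter (fun p => p ≤ w), Real.log p / (p : ℝ) ≤ Real.log w + Real.log 4 := by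
    refine le_trans ?_ (mert_le w (by omega))
    unfold mert
    apply Finset.sum_le_sum_of_subset_of_nonneg
    · intro p hp
      rw [mem_filter] at hp
      rw [mem_filter, mem_Icc]
      exact ⟨⟨Nat.zero_le _, hp.2⟩, hT p hp.1⟩
    · intro p hp _
      rw [mem_filter] at hp
      have := Real.log_nonneg (show (1 : ℝ) ≤ p by exact_mod_cast hp.2.one_lt.le)
      positivity
  have h3 : ∑ p ∈ T.filter (fun p => ¬ p ≤ w), Real.log p / (p : ℝ) ≤ 2 * Real.log w := by
    calc ∑ p ∈ T.filter (fun p => ¬ p ≤ w), Real.log p / (p : ℝ)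
        ≤ ∑ p ∈ T.filter (fun p => ¬ p ≤ w), Real.log w / w := by
          apply Finset.sum_le_sum
          intro p hp
          rw [mem_filter] at hp
          have h4 : (w : ℝ) ≤ p := by
            have : w ≤ p := by omega
            exact_mod_cast this
          have he : Real.exp 1 ≤ (w : ℝ) := by linarith [Real.exp_one_lt_d9]
          exact Real.log_div_self_antitoneOn he (he.trans h4) h4
      _ = (T.filter (fun p => ¬ p ≤ w)).card * (Real.log w / w) := by
          rw [Finset.sum_const, nsmul_eq_mul]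
      _ ≤ (2 * w) * (Real.log w / w) := by
          apply mul_le_mul_of_nonneg_right _ (by positivity)
          refine le_trans ?_ hc
          exact_mod_cast Finset.card_filter_le _ _
      _ = 2 * Real.log w := by field_simp
  have h5 : Real.log 4 = 2 * Real.log 2 := by
    rw [show (4 : ℝ) = 2 ^ 2 by norm_num, Real.log_pow]
    norm_num
  rw [h5] at h2
  linarith

/-- the main estimate -/
private lemma degone_aux {E : Type*} [Field E] [NumberField E] (θ : 𝓞 E) (Z : ℕ) (hZ : 1 ≤ Z) (Θ : ℝ)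
    (hΘZ : 2 * Θ ≤ Z) (hΘ : ∀ φ : E →+* ℂ, ‖φ (θ : E)‖ ≤ Θ) (T : Finset ℕ)
    (hT : ∀ p ∈ T, p.Prime)
    (hTm : ∀ m ∈ Ico Z (2 * Z), ∀ p : ℕ, p.Prime →
      p ∣ Ideal.absNorm (Ideal.span {((m : ℕ) : 𝓞 E) + θ}) → p ∈ T) :
    Real.log (Z / 2) ≤ (∑ p ∈ T, Real.log p / ((p : ℝ) - 1)) +
      T.card * (finrank ℚ E * Real.log (3 * Z)) / Z := by
  classical
  set n := finrank ℚ E with hn
  have hn0 : (0 : ℝ) < n := by exact_mod_cast finrank_pos
  have hZ1 : (1 : ℝ) ≤ Z := by exact_mod_cast hZ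
  set N : ℕ → ℕ := fun m => Ideal.absNorm (Ideal.span {((m : ℕ) : 𝓞 E) + θ}) with hN
  have hcoe : ∀ m : ℕ, ((((m : ℕ) : 𝓞 E) + θ : 𝓞 E) : E) = (m : E) + (θ : E) := by
    intro m; simp
  have hup : ∀ m ∈ Ico Z (2 * Z), (N m : ℝ) ≤ (3 * Z) ^ n := by
    intro m hm
    rw [mem_Ico] at hm
    have hm2 : (m : ℝ) ≤ 2 * Z := by exact_mod_cast hm.2.le
    apply absNorm_span_le
    intro φ
    rw [hcoe, map_add, map_natCast]
    have h1 : ‖φ (θ : E)‖ ≤ Θ := hΘ φ.toRingHom
    calc ‖(m : ℂ) + φ (θ : E)‖ ≤ ‖(m : ℂ)‖ + ‖φ (θ : E)‖ := norm_add_le _ _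
      _ ≤ 3 * Z := by
        rw [Complex.norm_natCast]
        linarith
  have hlow : ∀ m ∈ Ico Z (2 * Z), ((Z : ℝ) / 2) ^ n ≤ (N m : ℝ) := by
    intro m hm
    rw [mem_Ico] at hm
    have hm2 : (Z : ℝ) ≤ m := by exact_mod_cast hm.1
    apply le_absNorm_span _ _ (by positivity)
    intro φ
    rw [hcoe, map_add, map_natCast]
    have h1 : ‖φ (θ : E)‖ ≤ Θ := hΘ φ.toRingHom
    have h2 : ‖(m : ℂ)‖ - ‖φ (θ : E)‖ ≤ ‖(m : ℂ) + φ (θ : E)‖ := by
      have := norm_sub_norm_le (m : ℂ) (-φ (θ : E))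
      rwa [norm_neg, sub_neg_eq_add] at this
    rw [Complex.norm_natCast] at h2
    linarith
  have hN0 : ∀ m ∈ Ico Z (2 * Z), N m ≠ 0 := by
    intro m hm h
    have h1 := hlow m hm
    rw [h] at h1
    have h2 : (0 : ℝ) < ((Z : ℝ) / 2) ^ n := by positivity
    push_cast at h1
    linarith
  have h0 : ∀ m ∈ Ico Z (2 * Z), ((m : ℕ) : 𝓞 E) + θ ≠ 0 := by
    intro m hm h
    apply hN0 m hm
    rw [hN]
    simp only
    rw [h, Ideal.span_singleton_eq_bot.mpr rfl, Ideal.absNorm_bot]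
  -- the logarithm of the norm
  have hlog : ∀ m ∈ Ico Z (2 * Z), Real.log (N m) =
      ∑ p ∈ T, ((N m).factorization p : ℝ) * Real.log p := by
    intro m hm
    have h1 : (N m).primeFactors ⊆ T := by
      intro p hp
      exact hTm m hm p (Nat.prime_of_mem_primeFactors hp) (Nat.dvd_of_mem_primeFactors hp)
    rw [← Finset.sum_subset h1]
    · conv_lhs => rw [← Nat.prod_factorization_pow_eq_self (hN0 m hm)]
      rw [Finsupp.prod, Nat.support_factorization]
      push_cast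
      rw [Real.log_prod]
      · apply Finset.sum_congr rfl
        intro p _
        rw [Real.log_pow]
      · intro p hp
        have := (Nat.prime_of_mem_primeFactors hp).pos
        positivity
    · intro p hpT hp
      have h2 : (N m).factorization p = 0 := by
        rw [← Finsupp.notMem_support_iff, Nat.support_factorization]
        exact hp
      rw [h2]
      simp
  have hsumlow : (Z : ℝ) * (n * Real.log (Z / 2)) ≤ ∑ m ∈ Ico Z (2 * Z), Real.log (N m) := by
    have h1 : ∑ m ∈ Ico Z (2 * Z), (n * Real.log (Z / 2)) ≤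
        ∑ m ∈ Ico Z (2 * Z), Real.log (N m) := by
      apply Finset.sum_le_sum
      intro m hm
      have h2 := Real.log_le_log (by positivity) (hlow m hm)
      rwa [Real.log_pow] at h2
    rw [Finset.sum_const, Nat.card_Ico, nsmul_eq_mul] at h1
    rw [show 2 * Z - Z = Z by omega] at h1
    exact h1
  have hsumup : ∑ m ∈ Ico Z (2 * Z), Real.log (N m) ≤
      ∑ p ∈ T, (n * Z * (Real.log p / ((p : ℝ) - 1)) + n * (n * Real.log (3 * Z))) := by
    rw [Finset.sum_congr rfl hlog, Finset.sum_comm]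
    apply Finset.sum_le_sum
    intro p hp
    have h1 := prime_contrib θ Z hZ ((3 * Z : ℝ) ^ n) (one_le_pow₀ (by linarith)) h0 hup (hT p hp)
    rw [Real.log_pow] at h1
    rw [← Finset.sum_mul]
    exact h1
  rw [Finset.sum_add_distrib, ← Finset.mul_sum, Finset.sum_const, nsmul_eq_mul] at hsumup
  have h3 := hsumlow.trans hsumup
  have h4 : (n * Z : ℝ) * Real.log (Z / 2) ≤ (n * Z) * ((∑ p ∈ T, Real.log p / ((p : ℝ) - 1)) +
      T.card * (n * Real.log (3 * Z)) / Z) := by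
    calc (n * Z : ℝ) * Real.log (Z / 2) = (Z : ℝ) * (n * Real.log (Z / 2)) := by ring
      _ ≤ _ := h3
      _ = _ := by
        field_simp
  exact le_of_mul_le_mul_left h4 (by positivity)

/-- Task D3: many small primes have a factor of degree one -/
theorem degone_many (n : ℕ) (hn : 0 < n) : ∃ w0 : ℕ, ∀ (E : Type) [Field E] [NumberField E],
    finrank ℚ E = n → ∀ w : ℕ, w0 ≤ w → Real.log |(discr E : ℝ)| ≤ Real.log w →
    (w : ℝ) ≤ (((Icc 0 (w ^ (20 * n))).filter Nat.Prime).filter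
      (fun p => (degOne E p).Nonempty)).card := by
  classical
  refine ⟨4 ^ (n + 1) + 32 * n ^ 4 + 24 * n + 4, ?_⟩
  intro E _ _ hE w hw hD
  by_contra hcon
  rw [not_le] at hcon
  obtain ⟨θ, hgen, hφ⟩ := exists_small_gen' E
  rw [hE] at hφ
  have hw4 : 4 ≤ w := le_trans (Nat.le_add_left _ _) hw
  have hw4' : (4 : ℝ) ≤ w := by exact_mod_cast hw4
  have hwr : (4 : ℝ) ^ (n + 1) + 32 * (n : ℝ) ^ 4 + 24 * n + 4 ≤ w := by exact_mod_cast hw
  have hn0 : (1 : ℝ) ≤ n := by exact_mod_cast hn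
  have hlogw : 0 < Real.log w := Real.log_pos (by linarith)
  have hDpos : (0 : ℝ) < |(discr E : ℝ)| := abs_pos.mpr (by exact_mod_cast discr_ne_zero E)
  have hDw : |(discr E : ℝ)| ≤ w := by
    rwa [Real.log_le_log_iff hDpos (by linarith)] at hD
  -- the size of θ
  have hΘ : ∀ φ : E →+* ℂ, ‖φ (θ : E)‖ ≤ (w : ℝ) := by
    intro φ
    refine (hφ φ).trans ?_
    have h1 : Real.sqrt |(discr E : ℝ)| ≤ Real.sqrt w := Real.sqrt_le_sqrt hDw
    have h2 : (2 : ℝ) ^ (n + 1) ≤ Real.sqrt w := by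
      apply Real.le_sqrt_of_sq_le
      rw [← pow_mul, mul_comm (n + 1) 2, pow_mul]
      have : (2 : ℝ) ^ 2 = 4 := by norm_num
      rw [this]
      have h3 : (0 : ℝ) ≤ 32 * (n : ℝ) ^ 4 + 24 * n + 4 := by positivity
      linarith
    have h4 : Real.sqrt w * Real.sqrt w = w := Real.mul_self_sqrt (by linarith)
    have h5 : Real.sqrt |(discr E : ℝ)| * 2 ^ n ≤ Real.sqrt w * 2 ^ n :=
      mul_le_mul_of_nonneg_right h1 (by positivity)
    have h6 : Real.sqrt w * 2 ^ (n + 1) ≤ Real.sqrt w * Real.sqrt w :=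
      mul_le_mul_of_nonneg_left h2 (Real.sqrt_nonneg _)
    rw [h4, pow_succ] at h6
    linarith
  have hΘ1 : (1 : ℝ) ≤ w := by linarith
  obtain ⟨Δ, hΔ0, hΔle, hΔ⟩ := deg_one_of_mem θ hgen w hΘ1 hΘ
  rw [hE] at hΔle
  set S := ((Icc 0 (w ^ (20 * n))).filter Nat.Prime).filter (fun p => (degOne E p).Nonempty)
    with hS
  set T := S ∪ Δ.primeFactors with hTdef
  have hTp : ∀ p ∈ T, p.Prime := by
    intro p hp
    rw [hTdef, mem_union] at hp
    rcases hp with hp | hp
    · rw [hS, mem_filter, mem_filter] at hp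
      exact hp.1.2
    · exact Nat.prime_of_mem_primeFactors hp
  -- the size of T
  have hΔc : (Δ.primeFactors.card : ℝ) ≤ w := by
    have h1 := card_primeFactors_le Δ hΔ0
    have h2 : Real.log Δ ≤ (n : ℝ) ^ 2 * Real.log (2 * w) := by
      have h3 : (0 : ℝ) < Δ := by exact_mod_cast Nat.pos_of_ne_zero hΔ0
      have h4 := Real.log_le_log h3 hΔle
      rw [Real.log_pow] at h4
      push_cast at h4
      exact h4
    have h5 := log_le_two_sqrt (2 * w) (by linarith)
    have h6 : (n : ℝ) ^ 2 * Real.log (2 * w) ≤ (n : ℝ) ^ 2 * (2 * Real.sqrt (2 * w)) :=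
      mul_le_mul_of_nonneg_left h5 (by positivity)
    have h7 : 4 * (n : ℝ) ^ 2 * Real.sqrt (2 * w) ≤ w := by
      have h8 : Real.sqrt (2 * w) ≤ w / (4 * (n : ℝ) ^ 2) := by
        rw [Real.sqrt_le_left (by positivity), div_pow, le_div_iff₀ (by positivity)]
        have h9 : 32 * (n : ℝ) ^ 4 ≤ w := by
          have : (0 : ℝ) ≤ 4 ^ (n + 1) + 24 * n + 4 := by positivity
          linarith
        calc 2 * (w : ℝ) * (4 * (n : ℝ) ^ 2) ^ 2 = (w : ℝ) * (32 * (n : ℝ) ^ 4) := by ring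
          _ ≤ (w : ℝ) * w := mul_le_mul_of_nonneg_left h9 (by linarith)
          _ = (w : ℝ) ^ 2 := by ring
      rw [le_div_iff₀ (by positivity)] at h8
      linarith
    linarith
  have hTc : (T.card : ℝ) ≤ 2 * w := by
    have h1 : (T.card : ℝ) ≤ S.card + Δ.primeFactors.card := by
      exact_mod_cast Finset.card_union_le _ _
    linarith
  -- the estimate
  have hZ1 : 1 ≤ w ^ 10 := Nat.one_le_pow _ _ (by omega)
  have hZr : ((w ^ 10 : ℕ) : ℝ) = (w : ℝ) ^ 10 := by push_cast; rfl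
  have hw9 : (4 : ℝ) ≤ (w : ℝ) ^ 9 := by
    calc (4 : ℝ) ≤ w := hw4'
      _ = (w : ℝ) ^ 1 := (pow_one _).symm
      _ ≤ (w : ℝ) ^ 9 := pow_le_pow_right₀ hΘ1 (by norm_num)
  have hΘZ : 2 * (w : ℝ) ≤ ((w ^ 10 : ℕ) : ℝ) := by
    rw [hZr, show (w : ℝ) ^ 10 = (w : ℝ) ^ 9 * w by ring]
    nlinarith
  have haux := degone_aux θ (w ^ 10) hZ1 w hΘZ hΘ T hTp (by
    intro m hm p hp hpd
    by_cases hpΔ : p ∣ Δ
    · rw [hTdef, mem_union]
      right
      exact Nat.mem_primeFactors.mpr ⟨hp, hpΔ, hΔ0⟩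
    · rw [hTdef, mem_union]
      left
      rw [hS, mem_filter, mem_filter, mem_Icc]
      have hNup : (Ideal.absNorm (Ideal.span {((m : ℕ) : 𝓞 E) + θ}) : ℝ) ≤
          (3 * (w : ℝ) ^ 10) ^ n := by
        rw [← hE]
        apply absNorm_span_le
        intro φ
        rw [mem_Ico] at hm
        have hm2 : (m : ℝ) ≤ 2 * (w : ℝ) ^ 10 := by exact_mod_cast hm.2.le
        have h1 : ‖φ (θ : E)‖ ≤ w := hΘ φ.toRingHom
        have hcoe : ((((m : ℕ) : 𝓞 E) + θ : 𝓞 E) : E) = (m : E) + (θ : E) := by simp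
        rw [hcoe, map_add, map_natCast]
        rw [hZr] at hΘZ
        calc ‖(m : ℂ) + φ (θ : E)‖ ≤ ‖(m : ℂ)‖ + ‖φ (θ : E)‖ := norm_add_le _ _
          _ ≤ 3 * (w : ℝ) ^ 10 := by
            rw [Complex.norm_natCast]
            linarith
      have hN0 : 0 < Ideal.absNorm (Ideal.span {((m : ℕ) : 𝓞 E) + θ}) := by
        apply absNorm_pos_of_ne_bot
        intro h
        rw [Ideal.span_singleton_eq_bot] at h
        -- θ = -m is too large
        obtain ⟨φ⟩ : Nonempty (E →+* ℂ) := inferInstance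
        have h1 := hΘ φ
        have h2 : (θ : E) = -(m : E) := by
          have h3 := congrArg (algebraMap (𝓞 E) E) h
          rw [map_add, map_natCast, map_zero] at h3
          exact eq_neg_of_add_eq_zero_right h3
        rw [h2, map_neg, norm_neg, map_natCast, Complex.norm_natCast] at h1
        rw [mem_Ico] at hm
        have h4 : ((w ^ 10 : ℕ) : ℝ) ≤ m := by exact_mod_cast hm.1
        linarith
      refine ⟨⟨⟨Nat.zero_le _, ?_⟩, hp⟩, ?_⟩
      · have h1 : p ≤ Ideal.absNorm (Ideal.span {((m : ℕ) : 𝓞 E) + θ}) := Nat.le_of_dvd hN0 hpd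
        have h2 : (p : ℝ) ≤ (3 * (w : ℝ) ^ 10) ^ n := by
          refine le_trans ?_ hNup
          exact_mod_cast h1
        have h3 : (3 * (w : ℝ) ^ 10) ^ n ≤ (w : ℝ) ^ (20 * n) := by
          rw [pow_mul]
          apply pow_le_pow_left₀ (by positivity)
          have h4 : (3 : ℝ) ≤ (w : ℝ) ^ 10 := by
            calc (3 : ℝ) ≤ (w : ℝ) ^ 9 := by linarith
              _ ≤ (w : ℝ) ^ 10 := pow_le_pow_right₀ hΘ1 (by norm_num)
          calc 3 * (w : ℝ) ^ 10 ≤ (w : ℝ) ^ 10 * (w : ℝ) ^ 10 :=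
                mul_le_mul_of_nonneg_right h4 (by positivity)
            _ = (w : ℝ) ^ 20 := by ring
        exact_mod_cast h2.trans h3
      · obtain ⟨Q, hQ, hQu, hQd⟩ := Ideal.exists_isMaximal_dvd_of_dvd_absNorm' hp _ hpd
        refine ⟨Q, (mem_degOne hp).mpr ?_⟩
        have hpQ : (p : 𝓞 E) ∈ Q := by
          have h1 : (p : ℤ) ∈ Q.under ℤ := by
            rw [hQu]
            exact Ideal.mem_span_singleton_self _
          rw [Ideal.under_def, Ideal.mem_comap] at h1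
          simpa using h1
        have hmQ : ((m : ℤ) : 𝓞 E) + θ ∈ Q := by
          have h1 := Ideal.le_of_dvd hQd (Ideal.mem_span_singleton_self _)
          simpa using h1
        exact hΔ p hp hpΔ Q hQ.isPrime hpQ m hmQ)
  have hsum := sum_log_div_few w (by omega) T hTp hTc
  rw [hZr, hE] at haux
  have hlog1 : Real.log ((w : ℝ) ^ 10 / 2) = 10 * Real.log w - Real.log 2 := by
    rw [Real.log_div (by positivity) (by norm_num), Real.log_pow]
    norm_num
  have hlog3 : Real.log (3 * (w : ℝ) ^ 10) ≤ 11 * Real.log w := by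
    rw [Real.log_mul (by norm_num) (by positivity), Real.log_pow]
    have : Real.log 3 ≤ Real.log w := Real.log_le_log (by norm_num) (by linarith)
    push_cast
    linarith
  have herr : (T.card : ℝ) * (n * Real.log (3 * (w : ℝ) ^ 10)) / (w : ℝ) ^ 10 ≤ 1 := by
    rw [div_le_one (by positivity)]
    have h1 : Real.log w ≤ w := (Real.log_le_sub_one_of_pos (by linarith)).trans (by linarith)
    have h2 : (n : ℝ) * Real.log (3 * (w : ℝ) ^ 10) ≤ n * (11 * w) :=
      mul_le_mul_of_nonneg_left (by linarith) (by linarith)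
    have h3 : (0 : ℝ) ≤ n * (11 * w) := by positivity
    have h24 : 24 * (n : ℝ) ≤ w := by
      have : (0 : ℝ) ≤ 4 ^ (n + 1) + 32 * (n : ℝ) ^ 4 + 4 := by positivity
      linarith
    calc (T.card : ℝ) * (n * Real.log (3 * (w : ℝ) ^ 10)) ≤ T.card * (n * (11 * w)) :=
          mul_le_mul_of_nonneg_left h2 (Nat.cast_nonneg _)
      _ ≤ (2 * w) * (n * (11 * w)) := mul_le_mul_of_nonneg_right hTc h3
      _ = (22 * n) * (w : ℝ) ^ 2 := by ring
      _ ≤ w * (w : ℝ) ^ 2 := mul_le_mul_of_nonneg_right (by linarith) (by positivity)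
      _ = (w : ℝ) ^ 3 := by ring
      _ ≤ (w : ℝ) ^ 10 := pow_le_pow_right₀ hΘ1 (by norm_num)
  rw [hlog1] at haux
  have hlog4w : 2 * Real.log 2 ≤ Real.log w := by
    have h1 : Real.log 4 ≤ Real.log w := Real.log_le_log (by norm_num) hw4'
    have h5 : Real.log 4 = 2 * Real.log 2 := by
      rw [show (4 : ℝ) = 2 ^ 2 by norm_num, Real.log_pow]
      norm_num
    linarith
  have hlog2 := Real.log_two_gt_d9
  linarith

end Pool.Agent.Lib.MP_695920_nt.Tow
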