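import Mathlib
import Pool.Agent.Lib.MP_695920_nt.Tow.Crit

set_option autoImplicit false

open Finset NumberField Module IsDedekindDomain
open scoped nonZeroDivisors Pointwise IntermediateField

namespace Pool.Agent.Lib.MP_695920_nt.Tow

variable {L : Type} [Field L] [NumberField L] [IsGalois ℚ L]

/-- the decomposition group lies in the group of a subfield where the prime below has degree one -/
lemma stab_le_of_deg_one {p : ℕ} (hp : p.Prime) (hunr : ¬ p ∣ (discr L).natAbs)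
    {P : Ideal (𝓞 L)} (hP : P.IsPrime) (hP0 : P ≠ ⊥)
    (hmem : (p : 𝓞 L) ∈ P) {R : Subgroup Gal(L/ℚ)}
    (hdeg : Ideal.absNorm (P.under (𝓞 (fixF L R))) = p) :
    MulAction.stabilizer Gal(L/ℚ) P ≤ R := by
  classical
  have hover : P.LiesOver (Ideal.span {(p : ℤ)}) := liesOver_of_mem hP hp hmem
  have hmax := span_int_isMaximal hp
  have hpr : (Ideal.span {(p : ℤ)}).IsPrime := hmax.isPrime
  have hne : Ideal.span {(p : ℤ)} ≠ ⊥ := by simpa using hp.ne_zero
  have hPmax : P.IsMaximal := hP.isMaximal hP0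
  have hfin : Finite (ℤ ⧸ Ideal.span {(p : ℤ)}) := Ring.HasFiniteQuotients.finiteQuotient hne
  have he1 : P.ramificationIdx ℤ = 1 := by
    have h1 : Ideal.ramificationIdx' (Ideal.span {(p : ℤ)}) P = 1 := by
      have h2 : ¬ 2 ≤ Ideal.ramificationIdx' (Ideal.span {(p : ℤ)}) P := fun h =>
        hunr (ramified_dvd hp hP hP0 hmem h)
      have h3 := Ideal.IsDedekindDomain.ramificationIdx'_ne_zero_of_liesOver P hne
      omega
    rwa [Ideal.ramificationIdx'_eq_ramificationIdx _ P hne] at h1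
  have hgal := gal_fix (L := L) R
  set Q := P.under (𝓞 (fixF L R)) with hQ
  have hQp : Q.IsPrime := inferInstance
  have hPQ : P.LiesOver Q := ⟨rfl⟩
  have hmemQ : (p : 𝓞 (fixF L R)) ∈ Q := mem_of_under hmem _
  have hQ0 : Q ≠ ⊥ := by
    intro h
    rw [h, Ideal.mem_bot] at hmemQ
    exact hp.ne_zero (by exact_mod_cast hmemQ)
  have hQmax : Q.IsMaximal := hQp.isMaximal hQ0
  have hfinQ : Finite (𝓞 (fixF L R) ⧸ Q) := Ring.HasFiniteQuotients.finiteQuotient hQ0
  have hQover : Q.LiesOver (Ideal.span {(p : ℤ)}) := liesOver_of_mem hQp hp hmemQ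
  have hf1 : Q.inertiaDeg ℤ = 1 := by
    have h3 := Ideal.pow_inertiaDeg p Q
    rw [hdeg] at h3
    exact Nat.pow_right_injective hp.two_le (by simpa using h3)
  -- the two orders of the decomposition groups
  have h1 := Ideal.card_stabilizer_eq (G := Gal(L/ℚ)) (Ideal.span {(p : ℤ)}) P
  have h2 := Ideal.card_stabilizer_eq (G := R) Q P
  rw [Ideal.ramificationIdxIn_eq_ramificationIdx (Ideal.span {(p : ℤ)}) P Gal(L/ℚ),
    Ideal.inertiaDegIn_eq_inertiaDeg (Ideal.span {(p : ℤ)}) P Gal(L/ℚ)] at h1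
  rw [Ideal.ramificationIdxIn_eq_ramificationIdx Q P R,
    Ideal.inertiaDegIn_eq_inertiaDeg Q P R] at h2
  have h4 := Ideal.ramificationIdx_tower (R := ℤ) Q P
  have h5 := Ideal.inertiaDeg_tower (R := ℤ) Q P
  rw [he1] at h4
  have he2 : P.ramificationIdx (𝓞 (fixF L R)) = 1 := Nat.eq_one_of_mul_eq_one_left h4.symm
  rw [hf1, one_mul] at h5
  rw [he1, one_mul, h5] at h1
  rw [he2, one_mul] at h2
  have h3 : Nat.card (MulAction.stabilizer R P) =
      Nat.card (MulAction.stabilizer Gal(L/ℚ) P ⊓ R : Subgroup Gal(L/ℚ)) := by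
    have h4 : MulAction.stabilizer R P = (MulAction.stabilizer Gal(L/ℚ) P).subgroupOf R := by
      ext g
      rw [MulAction.mem_stabilizer_iff, Subgroup.mem_subgroupOf, MulAction.mem_stabilizer_iff]
      rfl
    rw [h4, ← Subgroup.inf_subgroupOf_right]
    exact Nat.card_congr (Subgroup.subgroupOfEquivOfLe inf_le_right).toEquiv
  have h6 : Nat.card (MulAction.stabilizer Gal(L/ℚ) P ⊓ R : Subgroup Gal(L/ℚ)) =
      Nat.card (MulAction.stabilizer Gal(L/ℚ) P) := by
    rw [← h3, h1]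
    exact h2
  have h7 : (MulAction.stabilizer Gal(L/ℚ) P ⊓ R : Subgroup Gal(L/ℚ)) =
      MulAction.stabilizer Gal(L/ℚ) P := Subgroup.eq_of_le_of_card_ge inf_le_left h6.ge
  exact inf_eq_left.mp h7

/-- a prime of the second kind with a factor of degree one in `S` has its Frobenius element in
the group of `S` -/
lemma frob_mem_both (M S : IntermediateField ℚ L) {p : ℕ} (hp : p.Prime)
    (hunr : ¬ p ∣ (discr L).natAbs) (hS : S.fixingSubgroup.Normal)
    (huniq : ¬ TwoUp (M ⊓ S : IntermediateField ℚ L) M L p)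
    (hdeg : (degOne (fixF L S.fixingSubgroup) p).Nonempty) :
    ∃ g ∈ S.fixingSubgroup, g ∈ cset M.fixingSubgroup S.fixingSubgroup := by
  obtain ⟨Q, hQ⟩ := hdeg
  rw [mem_degOne hp] at hQ
  have hQ0 : Q ≠ ⊥ := by
    rintro rfl
    rw [Ideal.absNorm_bot] at hQ
    exact hp.ne_zero hQ.symm
  have hQp : Q.IsPrime := Ideal.isPrime_of_irreducible_absNorm (by rw [hQ]; exact hp)
  have hQmax : Q.IsMaximal := hQp.isMaximal hQ0
  obtain ⟨P, hPmax, hPover⟩ := Ideal.exists_maximal_ideal_liesOver_of_isIntegral (S := 𝓞 L) Q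
  have hPQ : P.under (𝓞 (fixF L S.fixingSubgroup)) = Q := hPover.over.symm
  have hpQ : (p : 𝓞 (fixF L S.fixingSubgroup)) ∈ Q := by
    rw [← hQ]
    exact Ideal.absNorm_mem Q
  have hmem : (p : 𝓞 L) ∈ P := by
    rw [← hPQ, Ideal.under_def, Ideal.mem_comap] at hpQ
    simpa using hpQ
  have hP0 : P ≠ ⊥ := by
    intro h
    rw [h, Ideal.mem_bot] at hmem
    exact hp.ne_zero (by exact_mod_cast hmem)
  obtain ⟨g, hg⟩ := exists_frob hp hunr hPmax.isPrime hP0 hmem
  have hle := stab_le_of_deg_one hp hunr hPmax.isPrime hP0 hmem (R := S.fixingSubgroup)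
    (by rw [hPQ]; exact hQ)
  refine ⟨g, hle ?_, frob_mem_cset M S hPmax.isPrime hmem hS huniq hg.le⟩
  rw [hg]
  exact Subgroup.mem_zpowers g

end Pool.Agent.Lib.MP_695920_nt.Tow
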