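import Mathlib
import Pool.Agent.Lib.MP_695920_nt.Tow.KeyR
import Pool.Agent.Lib.MP_695920_nt.Tow.RelDisc
import Pool.Agent.Lib.MP_695920_nt.Solv.Red

set_option autoImplicit false

open Finset NumberField Module IsDedekindDomain
open scoped nonZeroDivisors Pointwise IntermediateField

namespace Pool.Agent.Lib.MP_695920_nt.Tow

open Pool.Agent.Lib.MP_695920_nt.Solv

section lift

variable {F L : Type*} [Field F] [Field L] [Algebra F L]

lemma fixingSubgroup_lift (L' : IntermediateField F L) [Normal F L'] (E : IntermediateField F L') :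
    (IntermediateField.lift E).fixingSubgroup =
      E.fixingSubgroup.comap (AlgEquiv.restrictNormalHom L' : Gal(L/F) →* Gal(L'/F)) := by
  ext g
  rw [Subgroup.mem_comap, IntermediateField.mem_fixingSubgroup_iff,
    IntermediateField.mem_fixingSubgroup_iff]
  constructor
  · intro h x hx
    apply Subtype.ext
    have h1 := AlgEquiv.restrictNormal_commutes g L' x
    have h2 := h x.1 ((IntermediateField.mem_lift x).mpr hx)
    change ((AlgEquiv.restrictNormal g L') x : L) = x.1
    rw [← h2]
    exact h1
  · intro h x hx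
    have hxL : x ∈ L' := IntermediateField.lift_le E hx
    have h1 := AlgEquiv.restrictNormal_commutes g L' ⟨x, hxL⟩
    have h2 := h ⟨x, hxL⟩ ((IntermediateField.mem_lift (⟨x, hxL⟩ : L')).mp hx)
    have h3 : (AlgEquiv.restrictNormal g L') ⟨x, hxL⟩ = ⟨x, hxL⟩ := h2
    rw [h3] at h1
    exact h1.symm

end lift

lemma finrank_index {F L : Type*} [Field F] [Field L] [Algebra F L] [FiniteDimensional F L]
    [IsGalois F L] (M : IntermediateField F L) : finrank F M = M.fixingSubgroup.index := by
  have h1 := finrank_mul_finrank F M L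
  have h2 : Nat.card M.fixingSubgroup = finrank M L := IsGalois.card_fixingSubgroup_eq_finrank M
  have h3 : Nat.card Gal(L/F) = finrank F L := IsGalois.card_aut_eq_finrank F L
  have h4 := M.fixingSubgroup.index_mul_card
  rw [← h2, ← h3, ← h4] at h1
  exact Nat.eq_of_mul_eq_mul_right Nat.card_pos h1

section transfer

variable {F A B : Type} [Field F] [CharZero F] [Field A] [NumberField A] [Field B]
  [NumberField B] [Algebra F A] [Algebra F B]

lemma discr_eqF (e : A ≃ₐ[F] B) : discr A = discr B :=
  discr_eq_discr_of_algEquiv A (AlgEquiv.restrictScalars ℚ e)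

lemma card_torsF (e : A ≃ₐ[F] B) (l : ℕ) :
    Nat.card {x : ClassGroup (𝓞 A) // x ^ l = 1} ≤ Nat.card {x : ClassGroup (𝓞 B) // x ^ l = 1} :=
  card_tors_le_of_equiv (RingOfIntegers.mapRingEquiv e.toRingEquiv) l

end transfer

lemma log_discr_mono {A B : Type} [Field A] [NumberField A] [Field B] [NumberField B]
    [Algebra A B] : Real.log |(discr A : ℝ)| ≤ Real.log |(discr B : ℝ)| := by
  have h1 := one_le_absdiscr A
  apply Real.log_le_log (by linarith)
  have h2 : discr A ∣ discr B := by
    have h3 := NumberField.discr_dvd_discr A B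
    exact h3
  have h3 : |discr A| ≤ |discr B| := Int.le_of_dvd (abs_pos.mpr (discr_ne_zero B)) (by
    rw [abs_dvd, dvd_abs]; exact h2)
  exact_mod_cast h3

/-- Task W: the relative step -/
theorem rel_step (l n : ℕ) (hl : l.Prime) (hl2 : l ≠ 2) (ε : ℝ) (hε : 0 < ε) :
    ∃ C c : ℝ, 0 < C ∧ 0 ≤ c ∧ ∀ (F L : Type) [Field F] [NumberField F] [Field L] [NumberField L]
      [Algebra F L] [IsGalois F L] (M : IntermediateField F L)
      [Group.IsSolvable (Gal(L/F) ⧸ M.fixingSubgroup.normalCore)],
      finrank ℚ L = n → finrank F M = l →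
      ∃ (E : IntermediateField F L) (a : ℕ), 1 ≤ a ∧ finrank F E * a = l - 1 ∧
        E.fixingSubgroup.Normal ∧
        (∀ g : Gal(L/F), g ∉ E.fixingSubgroup → ∃ x : Gal(L/F), x * g * x⁻¹ ∈ M.fixingSubgroup) ∧
        (Nat.card {x : ClassGroup (𝓞 M) // x ^ l = 1} : ℝ) ≤
          C * Real.exp (ε * Real.log |(discr L : ℝ)|) *
          (Nat.card {x : ClassGroup (𝓞 E) // x ^ l = 1} : ℝ) ^ a *
          (Nat.card {x : ClassGroup (𝓞 F) // x ^ l = 1} : ℝ) ∧
        (a : ℝ) * Real.log |(discr E : ℝ)| + Real.log |(discr F : ℝ)| ≤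
          Real.log |(discr M : ℝ)| + c := by
  classical
  choose C hC hkey using fun (a m : ℕ) => rel_key l a m hl ε hε
  have hl1 : 1 ≤ l := hl.one_lt.le
  have hlR : (1 : ℝ) ≤ l := by exact_mod_cast hl1
  refine ⟨∑ a ∈ range (l + 1), ∑ m ∈ range (n + 1), C a m, n * (l - 1 : ℕ) * Real.log l, ?_, ?_, ?_⟩
  · apply Finset.sum_pos
    · intro a _
      exact Finset.sum_pos (fun m _ => hC a m) ⟨0, by simp⟩
    · exact ⟨0, by simp⟩
  · have := Real.log_nonneg hlR
    positivity
  intro F L _ _ _ _ _ _ M hsol hn hM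
  set V : Subgroup Gal(L/F) := M.fixingSubgroup with hV
  let L' : IntermediateField F L := IntermediateField.fixedField V.normalCore
  have hgal : IsGalois F L' := inferInstance
  have hML : M ≤ L' := by
    rw [IntermediateField.le_iff_le]
    exact Subgroup.normalCore_le V
  have hsolv : Group.IsSolvable Gal(L'/F) :=
    Group.isSolvable_of_surjective (f := (IsGalois.normalAutEquivQuotient V.normalCore).toMonoidHom)
      (IsGalois.normalAutEquivQuotient V.normalCore).surjective
  let r : Gal(L/F) →* Gal(L'/F) := AlgEquiv.restrictNormalHom L'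
  have hr : Function.Surjective r := AlgEquiv.restrictNormalHom_surjective (F := F) (K₁ := L') L
  let M' : IntermediateField F L' := IntermediateField.restrict hML
  let H : Subgroup Gal(L'/F) := M'.fixingSubgroup
  have hVH : V = H.comap r := by
    have h1 := fixingSubgroup_lift L' M'
    rw [show IntermediateField.lift M' = M from IntermediateField.lift_restrict hML] at h1
    exact h1
  have hrfix : ∀ g : Gal(L/F), g ∈ V.normalCore → r g = 1 := by
    intro g hg
    ext x
    have h1 := AlgEquiv.restrictNormal_commutes g L' x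
    have h2 : g x.1 = x.1 := x.2 ⟨g, hg⟩
    change ((AlgEquiv.restrictNormal g L') x : L) = x.1
    rw [← h2]
    exact h1
  have hidx : H.index = l := by
    rw [← hM]
    have h1 : H.index = finrank F M' := by
      have h2 := finrank_index (F := F) M'
      exact h2.symm
    rw [h1]
    exact (IntermediateField.restrictAlgEquiv hML).toLinearEquiv.finrank_eq.symm
  have hcore : H.normalCore = ⊥ := by
    rw [Subgroup.eq_bot_iff_forall]
    intro g hg
    obtain ⟨g, rfl⟩ := hr g
    apply hrfix
    intro x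
    rw [hVH, Subgroup.mem_comap, map_mul, map_mul, map_inv]
    exact hg (r x)
  obtain ⟨N, hN, hNcard, hinf, hsup, hcomm, hfix, hout, σ, τ, m, hNσ, hHτ, hσ, hrel, hord, hdvd⟩ :=
    frob_structure H hl hidx hcore
  obtain ⟨a, ha⟩ := hdvd
  have hl2' := hl.two_le
  have ha1 : 1 ≤ a := by
    rcases Nat.eq_zero_or_pos a with h | h
    · rw [h, mul_zero] at ha; omega
    · exact h
  have hdpos : 0 < Nat.card H := Nat.card_pos
  have hal : a < l + 1 := by
    have h1 : a ≤ Nat.card H * a := Nat.le_mul_of_pos_left a hdpos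
    omega
  let E' : IntermediateField F L' := IntermediateField.fixedField N
  let E : IntermediateField F L := IntermediateField.lift E'
  have hE'N : E'.fixingSubgroup = N := IntermediateField.fixingSubgroup_fixedField N
  have hEN : E.fixingSubgroup = N.comap r := by
    have h1 := fixingSubgroup_lift L' E'
    rw [hE'N] at h1
    exact h1
  have hcompl := compl_bij hN hinf hsup
  have hNidx : N.index = Nat.card H := hcompl.index_eq_card
  have hEdeg : finrank F E = Nat.card H := by
    rw [← hNidx]
    have h2 := finrank_index (F := F) E'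
    rw [hE'N] at h2
    rw [← h2]
    exact (IntermediateField.liftAlgEquiv E').toLinearEquiv.finrank_eq.symm
  have hτo : orderOf τ = Nat.card H := by rw [← Nat.card_zpowers, ← hHτ]
  have hnL' : finrank ℚ L' < n + 1 := by
    rw [← hn, ← finrank_mul_finrank ℚ L' L]
    exact Nat.lt_succ_of_le (Nat.le_mul_of_pos_right _ finrank_pos)
  -- the fixed fields
  have hM'fix : (FixedPoints.intermediateField H : IntermediateField F L') = M' :=
    IsGalois.fixedField_fixingSubgroup M'
  have hE'fix : (FixedPoints.intermediateField N : IntermediateField F L') = E' := rfl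
  have hk := hkey a (finrank ℚ L') F L' σ τ m rfl hσ (by rw [hτo]; exact ha.symm) hrel
    (by rw [hord, hτo]) (by
      have h1 := hcompl
      rw [hHτ, hNσ] at h1
      exact h1)
  rw [← hHτ, ← hNσ, hM'fix, hE'fix] at hk
  have hd := rel_disc_ineq N H hN (by rw [hNcard]; exact hl) hinf hsup hcomm hfix a
    (by rw [hNcard]; exact ha.symm)
  rw [hM'fix, hE'fix, hNcard] at hd
  refine ⟨E, a, ha1, ?_, ?_, ?_, ?_, ?_⟩
  · rw [hEdeg, ← ha]
  · rw [hEN]; infer_instance
  · intro g hg
    rw [hEN, Subgroup.mem_comap] at hg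
    obtain ⟨x, hx⟩ := hout (r g) hg
    obtain ⟨y, rfl⟩ := hr x
    refine ⟨y, ?_⟩
    rw [hVH, Subgroup.mem_comap, map_mul, map_mul, map_inv]
    exact hx
  · have h1 : (Nat.card {x : ClassGroup (𝓞 M) // x ^ l = 1} : ℝ) ≤
        (Nat.card {x : ClassGroup (𝓞 M') // x ^ l = 1} : ℝ) := by
      exact_mod_cast card_torsF (IntermediateField.restrictAlgEquiv hML) l
    have h2 : (Nat.card {x : ClassGroup (𝓞 E') // x ^ l = 1} : ℝ) ≤
        (Nat.card {x : ClassGroup (𝓞 E) // x ^ l = 1} : ℝ) := by
      exact_mod_cast card_torsF (IntermediateField.liftAlgEquiv E') l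
    have h3 : Real.exp (ε * Real.log |(discr L' : ℝ)|) ≤ Real.exp (ε * Real.log |(discr L : ℝ)|) :=
      Real.exp_le_exp.mpr (mul_le_mul_of_nonneg_left (log_discr_mono (A := L') (B := L)) hε.le)
    have h4 : C a (finrank ℚ L') ≤ ∑ a ∈ range (l + 1), ∑ m ∈ range (n + 1), C a m := by
      refine le_trans ?_ (Finset.single_le_sum (f := fun a => ∑ m ∈ range (n + 1), C a m)
        (fun a _ => Finset.sum_nonneg fun m _ => (hC a m).le) (Finset.mem_range.mpr hal))
      exact Finset.single_le_sum (f := fun m => C a m) (fun m _ => (hC a m).le)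
        (Finset.mem_range.mpr hnL')
    refine h1.trans (hk.trans ?_)
    have hS : 0 ≤ ∑ a ∈ range (l + 1), ∑ m ∈ range (n + 1), C a m :=
      (hC a (finrank ℚ L')).le.trans h4
    apply mul_le_mul_of_nonneg_right _ (Nat.cast_nonneg _)
    apply mul_le_mul _ (pow_le_pow_left₀ (Nat.cast_nonneg _) h2 a) (by positivity)
      (mul_nonneg hS (Real.exp_pos _).le)
    exact mul_le_mul h4 h3 (Real.exp_pos _).le hS
  · have e1 : discr M = discr M' := discr_eqF (IntermediateField.restrictAlgEquiv hML)
    have e2 : discr E = discr E' := (discr_eqF (IntermediateField.liftAlgEquiv E')).symm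
    rw [e1, e2]
    have h2 : (((discr E').natAbs : ℕ) : ℝ) ^ a * (((discr F).natAbs : ℕ) : ℝ) ≤
        (Nat.card H : ℝ) ^ (finrank ℚ F * (l - 1)) * (((discr M').natAbs : ℕ) : ℝ) := by
      exact_mod_cast hd
    rw [Nat.cast_natAbs, Nat.cast_natAbs, Nat.cast_natAbs, Int.cast_abs, Int.cast_abs,
      Int.cast_abs] at h2
    have p1 := one_le_absdiscr E'
    have p2 := one_le_absdiscr F
    have p3 := one_le_absdiscr M'
    have hd0 : (0 : ℝ) < Nat.card H := by exact_mod_cast hdpos
    have h3 := Real.log_le_log (by positivity) h2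
    rw [Real.log_mul (by positivity) (by positivity), Real.log_pow,
      Real.log_mul (by positivity) (by positivity), Real.log_pow] at h3
    have hHl : Real.log (Nat.card H) ≤ Real.log l := by
      apply Real.log_le_log hd0
      have h4 : Nat.card H ≤ Nat.card H * a := Nat.le_mul_of_pos_right _ ha1
      have h5 : Nat.card H ≤ l := by omega
      exact_mod_cast h5
    have hHl0 : 0 ≤ Real.log (Nat.card H) := Real.log_nonneg (by exact_mod_cast hdpos)
    have hFn : finrank ℚ F * (l - 1) ≤ n * (l - 1) := by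
      apply Nat.mul_le_mul_right
      rw [← hn, ← finrank_mul_finrank ℚ F L]
      exact Nat.le_mul_of_pos_right _ finrank_pos
    have hFn' : ((finrank ℚ F * (l - 1) : ℕ) : ℝ) ≤ (n : ℝ) * ((l - 1 : ℕ) : ℝ) := by
      exact_mod_cast hFn
    have h5 : ((finrank ℚ F * (l - 1) : ℕ) : ℝ) * Real.log (Nat.card H) ≤
        (n : ℝ) * ((l - 1 : ℕ) : ℝ) * Real.log l :=
      mul_le_mul hFn' hHl hHl0 (by positivity)
    linarith

end Pool.Agent.Lib.MP_695920_nt.Tow
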