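import Mathlib
import Pool.Agent.Lib.MP_695920_nt.Tow.Lat
import Pool.Agent.Lib.MP_695920_nt.Tow.Step

set_option autoImplicit false

open Finset NumberField Module IsDedekindDomain
open scoped nonZeroDivisors Pointwise IntermediateField

namespace Pool.Agent.Lib.MP_695920_nt.Tow

open Pool.Agent.Lib.MP_695920_nt.Solv

/-- logarithm of the number of classes killed by `l` -/
noncomputable def hh (l : ℕ) (X : Type) [Field X] [NumberField X] : ℝ :=
  Real.log (Nat.card {x : ClassGroup (𝓞 X) // x ^ l = 1} : ℝ)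

/-- logarithm of the absolute discriminant -/
noncomputable def dd (X : Type) [Field X] [NumberField X] : ℝ := Real.log |(discr X : ℝ)|

lemma dd_nonneg (X : Type) [Field X] [NumberField X] : 0 ≤ dd X :=
  Real.log_nonneg (one_le_absdiscr X)

lemma one_le_card (l : ℕ) (X : Type) [Field X] [NumberField X] :
    (1 : ℝ) ≤ (Nat.card {x : ClassGroup (𝓞 X) // x ^ l = 1} : ℝ) := by
  have h1 : Nonempty {x : ClassGroup (𝓞 X) // x ^ l = 1} := ⟨⟨1, one_pow l⟩⟩
  have h2 : 0 < Nat.card {x : ClassGroup (𝓞 X) // x ^ l = 1} := Nat.card_pos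
  exact_mod_cast h2

lemma hh_nonneg (l : ℕ) (X : Type) [Field X] [NumberField X] : 0 ≤ hh l X :=
  Real.log_nonneg (one_le_card l X)

lemma log_le_eps {ε y : ℝ} (hε : 0 < ε) (hy : 0 < y) : Real.log y ≤ ε * y + |Real.log ε| := by
  have h1 : Real.log (ε * y) ≤ ε * y - 1 := Real.log_le_sub_one_of_pos (by positivity)
  rw [Real.log_mul hε.ne' hy.ne'] at h1
  have h2 := neg_abs_le (Real.log ε)
  linarith

section lat

variable {L : Type} [Field L] [NumberField L]

lemma dd_le_top (X : IntermediateField ℚ L) : dd X ≤ dd L := log_discr_mono (A := X) (B := L)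

lemma dd_mono {X Y : IntermediateField ℚ L} (h : X ≤ Y) : dd X ≤ dd Y := by
  let _ : Algebra X Y := (IntermediateField.inclusion h).toAlgebra
  exact log_discr_mono (A := X) (B := Y)

lemma finrank_le_top (X : IntermediateField ℚ L) : finrank ℚ X ≤ finrank ℚ L := by
  rw [← finrank_mul_finrank ℚ X L]
  exact Nat.le_mul_of_pos_right _ finrank_pos

lemma one_lt_finrank_of_not_le {X S : IntermediateField ℚ L} (h : ¬ X ≤ S) : 1 < finrank ℚ X := by
  have h0 : 0 < finrank ℚ X := finrank_pos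
  rcases Nat.lt_or_ge 1 (finrank ℚ X) with h1 | h1
  · exact h1
  · exfalso
    apply h
    have h2 : finrank ℚ X = 1 := by omega
    rw [IntermediateField.finrank_eq_one_iff.mp h2]
    exact bot_le

end lat

/-- the logarithm of the right hand side of the counting bound -/
lemma log_rhs (N : ℕ) (ε : ℝ) (hε : 0 < ε) : ∃ C : ℝ, 0 ≤ C ∧ ∀ (L : Type) [Field L] [NumberField L]
    (X : IntermediateField ℚ L), finrank ℚ L = N → 1 < finrank ℚ X →
    Real.log (Bn (finrank ℚ X) * Real.sqrt |(discr X : ℝ)| *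
      Real.log |(discr X : ℝ)| ^ finrank ℚ X) ≤ dd X / 2 + (C + ε * dd L) := by
  rcases Nat.eq_zero_or_pos N with rfl | hN
  · refine ⟨0, le_refl _, ?_⟩
    intro L _ _ X hL
    have : 0 < finrank ℚ L := finrank_pos
    omega
  have hNr : (0 : ℝ) < N := by exact_mod_cast hN
  set e : ℝ := ε / N with he
  have he0 : 0 < e := by positivity
  refine ⟨∑ m ∈ range (N + 1), |Real.log (Bn m)| + N * |Real.log e|, by positivity, ?_⟩
  intro L _ _ X hL hX
  have hD := three_le_discr hX
  have hB := Bn_pos (finrank ℚ X) hX.le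
  have hlog : 0 < Real.log |(discr X : ℝ)| := Real.log_pos (by linarith)
  have hXN : finrank ℚ X ≤ N := by rw [← hL]; exact finrank_le_top X
  have hlog1 : 1 ≤ Real.log |(discr X : ℝ)| := by
    rw [← Real.log_exp 1]
    apply Real.log_le_log (Real.exp_pos _)
    have := Real.exp_one_lt_d9
    linarith
  rw [Real.log_mul (by positivity) (by positivity), Real.log_mul (by positivity) (by positivity),
    Real.log_sqrt (by linarith), Real.log_pow]
  have h1 : Real.log (Bn (finrank ℚ X)) ≤ ∑ m ∈ range (N + 1), |Real.log (Bn m)| := by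
    refine (le_abs_self _).trans ?_
    exact Finset.single_le_sum (f := fun m => |Real.log (Bn m)|) (fun _ _ => abs_nonneg _)
      (Finset.mem_range.mpr (Nat.lt_succ_of_le hXN))
  have h2 : (finrank ℚ X : ℝ) * Real.log (Real.log |(discr X : ℝ)|) ≤
      N * |Real.log e| + ε * dd L := by
    have h3 : 0 ≤ Real.log (Real.log |(discr X : ℝ)|) := Real.log_nonneg hlog1
    have h4 : (finrank ℚ X : ℝ) ≤ N := by exact_mod_cast hXN
    have h5 := log_le_eps he0 hlog
    have h6 : Real.log |(discr X : ℝ)| ≤ dd L := dd_le_top X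
    calc (finrank ℚ X : ℝ) * Real.log (Real.log |(discr X : ℝ)|)
        ≤ N * Real.log (Real.log |(discr X : ℝ)|) := mul_le_mul_of_nonneg_right h4 h3
      _ ≤ N * (e * Real.log |(discr X : ℝ)| + |Real.log e|) :=
          mul_le_mul_of_nonneg_left h5 hNr.le
      _ ≤ N * (e * dd L + |Real.log e|) := by
          apply mul_le_mul_of_nonneg_left _ hNr.le
          have := mul_le_mul_of_nonneg_left h6 he0.le
          linarith
      _ = _ := by rw [he]; field_simp; ring
  unfold dd at h2 ⊢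
  linarith

/-- the trivial bound, uniformly for subfields -/
lemma triv_lat (l N : ℕ) (hl : 0 < l) (ε : ℝ) (hε : 0 < ε) : ∃ C : ℝ, 0 ≤ C ∧
    ∀ (L : Type) [Field L] [NumberField L], finrank ℚ L = N →
    (∀ X : IntermediateField ℚ L, hh l X ≤ dd X / 2 + (C + ε * dd L)) ∧
    (∀ (X : IntermediateField ℚ L) (g : ℝ), 1 < finrank ℚ X → 0 < g →
      g * (Nat.card {x : ClassGroup (𝓞 X) // x ^ l = 1} : ℝ) ≤
        Bn (finrank ℚ X) * Real.sqrt |(discr X : ℝ)| * Real.log |(discr X : ℝ)| ^ finrank ℚ X →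
      Real.log g + hh l X ≤ dd X / 2 + (C + ε * dd L)) := by
  obtain ⟨C, hC, hmain⟩ := log_rhs N ε hε
  refine ⟨C, hC, ?_⟩
  intro L _ _ hL
  have h2 : ∀ (X : IntermediateField ℚ L) (g : ℝ), 1 < finrank ℚ X → 0 < g →
      g * (Nat.card {x : ClassGroup (𝓞 X) // x ^ l = 1} : ℝ) ≤
        Bn (finrank ℚ X) * Real.sqrt |(discr X : ℝ)| * Real.log |(discr X : ℝ)| ^ finrank ℚ X →
      Real.log g + hh l X ≤ dd X / 2 + (C + ε * dd L) := by
    intro X g hX hg h
    have h1 := one_le_card l X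
    have h3 := Real.log_le_log (by positivity) h
    rw [Real.log_mul hg.ne' (by positivity)] at h3
    exact h3.trans (hmain L X hL hX)
  refine ⟨?_, h2⟩
  intro X
  rcases Nat.lt_or_ge 1 (finrank ℚ X) with hX | hX
  · have h3 := h2 X 1 hX one_pos (by rw [one_mul]; exact triv_bound (M := X) hl hX)
    rw [Real.log_one, zero_add] at h3
    exact h3
  · have h0 : 0 < finrank ℚ X := finrank_pos
    have h1 : finrank ℚ X = 1 := by omega
    have h3 := card_tors_of_finrank_one h1 l
    have h4 : hh l X ≤ 0 := by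
      unfold hh
      apply Real.log_nonpos (Nat.cast_nonneg _)
      exact_mod_cast h3
    have := dd_nonneg X
    have := dd_nonneg L
    have : 0 ≤ ε * dd L := by positivity
    linarith

/-- the induction along a tower -/
lemma tower_ind {L : Type} [Field L] [NumberField L] (M S : IntermediateField ℚ L)
    (H D : IntermediateField ℚ L → ℝ) (l : ℕ) (τ s e0 s0 st c e : ℝ)
    (hs : 0 ≤ s) (he0 : 0 ≤ e0) (hs0 : 0 ≤ s0) (he : 0 ≤ e)
    (hT : ∀ X, H X ≤ D X / 2 + e0)
    (hsmall : ∀ X ≤ S, D X ≤ s) (hbig : ∀ X, ¬ X ≤ S → τ ≤ D X)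
    (hst : ∀ F X, M ⊓ S ≤ F → X ≤ M → F ⋖ X → ∃ (E : IntermediateField ℚ L) (a : ℕ),
      1 ≤ a ∧ a + 1 ≤ l ∧ (F = M ⊓ S → ¬ E ≤ S → H E ≤ D E / 2 + e0 - s0) ∧
      H X ≤ st + a * H E + H F ∧ a * D E + D F ≤ D X + c)
    (hnum : st + l * (s / 2 + e0) + s0 ≤ τ / 2 + e) (hnum2 : st + c / 2 + l * e0 ≤ e) :
    ∀ (k : ℕ) (X : IntermediateField ℚ L), finrank ℚ X = k → M ⊓ S < X → X ≤ M →
      H X ≤ D X / 2 - s0 + finrank ℚ X * e := by
  intro k
  induction k using Nat.strong_induction_on with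
  | _ k ih =>
  intro X hk hFX hXM
  -- a field just below
  obtain ⟨F, hF1, hF2⟩ : ∃ F, M ⊓ S ≤ F ∧ F ⋖ X := by
    have hfin : Finite (IntermediateField ℚ L) :=
      Field.finite_intermediateField_of_exists_primitive_element ℚ L (Field.exists_primitive_element ℚ L)
    obtain ⟨F, hF, hF'⟩ := exists_le_covBy_of_lt hFX
    exact ⟨F, hF, hF'⟩
  obtain ⟨E, a, ha1, hal, hsave, hcl, hdd⟩ := hst F X hF1 hXM hF2
  have ha1' : (1 : ℝ) ≤ a := by exact_mod_cast ha1
  have hal' : (a : ℝ) + 1 ≤ l := by exact_mod_cast hal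
  have hlt : finrank ℚ F < finrank ℚ X := by
    have h1 : finrank ℚ F ≤ finrank ℚ X := by
      exact LinearMap.finrank_le_finrank_of_injective (f := (IntermediateField.inclusion
        hF2.le).toLinearMap) (IntermediateField.inclusion hF2.le).injective
    rcases h1.lt_or_eq with h | h
    · exact h
    · exact absurd (IntermediateField.eq_of_le_of_finrank_eq hF2.le h) hF2.lt.ne
  have hXe : e ≤ finrank ℚ X * e := by
    have h1 : (1 : ℝ) ≤ finrank ℚ X := by exact_mod_cast (finrank_pos : 0 < finrank ℚ X)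
    calc e = 1 * e := (one_mul e).symm
      _ ≤ _ := mul_le_mul_of_nonneg_right h1 he
  by_cases hF0 : F = M ⊓ S
  · by_cases hE : E ≤ S
    · have h1 := hT E
      have h2 := hsmall E hE
      have h3 := hT F
      have h4 := hsmall F (by rw [hF0]; exact inf_le_right)
      have h5 : ¬ X ≤ S := by
        intro h
        have h6 : X ≤ M ⊓ S := le_inf hXM h
        exact hFX.not_ge h6
      have h6 := hbig X h5
      have h7 : (a : ℝ) * H E ≤ a * (s / 2 + e0) :=
        mul_le_mul_of_nonneg_left (by linarith) (by linarith)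
      have h8 : ((a : ℝ) + 1) * (s / 2 + e0) ≤ l * (s / 2 + e0) :=
        mul_le_mul_of_nonneg_right hal' (by positivity)
      linarith
    · have h1 := hsave hF0 hE
      have h3 := hT F
      have h7 : (a : ℝ) * H E ≤ a * (D E / 2 + e0 - s0) :=
        mul_le_mul_of_nonneg_left h1 (by linarith)
      have h8 : ((a : ℝ) + 1) * e0 ≤ l * e0 := mul_le_mul_of_nonneg_right hal' he0
      have h9 : 1 * s0 ≤ (a : ℝ) * s0 := mul_le_mul_of_nonneg_right ha1' hs0
      linarith
  · have hlt' : M ⊓ S < F := lt_of_le_of_ne hF1 (Ne.symm hF0)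
    have h1 := ih (finrank ℚ F) (by rw [← hk]; exact hlt) F rfl hlt' (hF2.le.trans hXM)
    have h2 := hT E
    have h7 : (a : ℝ) * H E ≤ a * (D E / 2 + e0) :=
      mul_le_mul_of_nonneg_left h2 (by linarith)
    have h8 : ((a : ℝ) + 1) * e0 ≤ l * e0 := mul_le_mul_of_nonneg_right hal' he0
    have h9 : (finrank ℚ F : ℝ) + 1 ≤ finrank ℚ X := by exact_mod_cast hlt
    have h10 : ((finrank ℚ F : ℝ) + 1) * e ≤ finrank ℚ X * e := mul_le_mul_of_nonneg_right h9 he
    linarith

end Pool.Agent.Lib.MP_695920_nt.Tow
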