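import Mathlib
import Pool.Agent.Lib.MP_695920_nt.Composite
import Pool.Agent.Lib.MP_695920_nt.Tow.Defs

set_option autoImplicit false

open Finset NumberField Module IsDedekindDomain
open scoped nonZeroDivisors Pointwise IntermediateField

namespace Pool.Agent.Lib.MP_695920_nt.Tow

lemma cc_nonneg (n r : ℕ) : 0 ≤ cc n r := by
  unfold cc
  apply mul_nonneg (by positivity)
  rcases Nat.eq_zero_or_pos r with h | h
  · subst h
    simp
    positivity
  · have h1 : (1 : ℝ) ≤ r := by exact_mod_cast h
    have h2 : (1 : ℝ) ≤ (n * r + 1 : ℝ) ^ r := by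
      apply one_le_pow₀
      have : (0 : ℝ) ≤ n * r := by positivity
      linarith
    have h3 : 0 ≤ Real.log (2 * (r * (n * r + 1) ^ r)) := by
      apply Real.log_nonneg
      nlinarith
    positivity

lemma discr_bot_eq {L : Type*} [Field L] [NumberField L] :
    discr (⊥ : IntermediateField ℚ L) = 1 := by
  rw [← discr_rat]
  exact discr_eq_discr_of_algEquiv _ (IntermediateField.botEquiv ℚ L)

theorem sup_bound_aux {L : Type*} [Field L] [NumberField L] [IsGalois ℚ L]
    (S : Finset (IntermediateField ℚ L)) (hSne : S.Nonempty) (T : ℝ) (hT1 : 1 ≤ T)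
    (hT : ∀ F ∈ S, |(discr F : ℝ)| ≤ T) :
    Real.log |(discr (S.sup id : IntermediateField ℚ L) : ℝ)| ≤
      cc (finrank ℚ L) S.card + (finrank ℚ L : ℝ) ^ 2 * Real.log T := by
  classical
  set M : IntermediateField ℚ L := S.sup id with hM
  set n := finrank ℚ L with hn
  set r := S.card with hr
  have hn1 : 1 ≤ n := finrank_pos
  have hr1 : 1 ≤ r := Finset.card_pos.mpr hSne
  have hcardG : Fintype.card Gal(L/ℚ) = n := by
    rw [← Nat.card_eq_fintype_card, IsGalois.card_aut_eq_finrank]
  let e : S ≃ Fin r := S.equivFin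
  have hle : ∀ i : Fin r, (e.symm i).1 ≤ M := fun i => Finset.le_sup (f := id) (e.symm i).2
  -- generators
  have hgen := fun i : Fin r => exists_small_gen' (e.symm i).1
  choose a ha hφ using hgen
  let x : Fin r → L := fun i => (((a i : 𝓞 (e.symm i).1) : (e.symm i).1) : L)
  have hxM : ∀ i, x i ∈ M := fun i => hle i (((a i : 𝓞 (e.symm i).1) : (e.symm i).1)).2
  set B : ℝ := Real.sqrt T * 2 ^ n + 2 with hB
  have hB0 : 0 < B := by positivity
  have hxB : ∀ i, ∀ φ : M →ₐ[ℚ] ℂ, ‖φ ⟨x i, hxM i⟩‖ ≤ B := by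
    intro i φ
    have h1 := hφ i (φ.comp (IntermediateField.inclusion (hle i))).toRingHom
    have h2 : (φ.comp (IntermediateField.inclusion (hle i))).toRingHom
      ((a i : 𝓞 (e.symm i).1) : (e.symm i).1) = φ ⟨x i, hxM i⟩ := rfl
    rw [h2] at h1
    refine h1.trans ?_
    rw [hB]
    apply add_le_add_left
    apply mul_le_mul
    · exact Real.sqrt_le_sqrt (hT _ (e.symm i).2)
    · apply pow_le_pow_right₀ (by norm_num)
      have h3 := finrank_mul_finrank ℚ (e.symm i).1 L
      rw [hn, ← h3]
      exact Nat.le_mul_of_pos_right _ finrank_pos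
    · positivity
    · positivity
  -- the polynomials
  let Pg : Gal(L/ℚ) → Polynomial L := fun g =>
    ∑ i : Fin r, Polynomial.monomial (i : ℕ) (g (x i) - x i)
  have hfix : ∀ g : Gal(L/ℚ), (∀ i, g (x i) = x i) → g ∈ M.fixingSubgroup := by
    intro g hg
    have h1 : M ≤ IntermediateField.fixedField (Subgroup.zpowers g) := by
      rw [hM]
      apply Finset.sup_le
      intro F hF
      have h2 := ha (e ⟨F, hF⟩)
      have h3 := hg (e ⟨F, hF⟩)
      have hFe : (e.symm (e ⟨F, hF⟩)).1 = F := by simp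
      intro y hy
      have hy' : y ∈ (e.symm (e ⟨F, hF⟩)).1 := by rw [hFe]; exact hy
      let F0 : IntermediateField ℚ (e.symm (e ⟨F, hF⟩)).1 :=
        (fixF L (Subgroup.zpowers g)).comap (e.symm (e ⟨F, hF⟩)).1.val
      have h4 : ((a (e ⟨F, hF⟩) : 𝓞 (e.symm (e ⟨F, hF⟩)).1) : (e.symm (e ⟨F, hF⟩)).1) ∈ F0 := by
        change x (e ⟨F, hF⟩) ∈ fixF L (Subgroup.zpowers g)
        rw [mem_fixF]
        intro g' hg'
        obtain ⟨k, rfl⟩ := Subgroup.mem_zpowers_iff.mp hg'
        have h5 : g ∈ MulAction.stabilizer Gal(L/ℚ) (x (e ⟨F, hF⟩)) := h3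
        exact (zpow_mem h5 k : _)
      have h6 : (⊤ : IntermediateField ℚ (e.symm (e ⟨F, hF⟩)).1) ≤ F0 := by
        rw [← h2, IntermediateField.adjoin_simple_le_iff]
        exact h4
      have h7 : (⟨y, hy'⟩ : (e.symm (e ⟨F, hF⟩)).1) ∈ F0 := h6 (IntermediateField.mem_top)
      exact h7
    rw [IntermediateField.mem_fixingSubgroup_iff]
    intro y hy
    have h2 := h1 hy
    have h3 : y ∈ fixF L (Subgroup.zpowers g) := h2
    rw [mem_fixF] at h3
    exact h3 g (Subgroup.mem_zpowers g)
  have hPg0 : ∀ g : Gal(L/ℚ), g ∉ M.fixingSubgroup → Pg g ≠ 0 := by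
    intro g hg h0
    apply hg
    apply hfix
    intro i
    have h1 : (Pg g).coeff (i : ℕ) = 0 := by rw [h0, Polynomial.coeff_zero]
    simp only [Pg, Polynomial.finsetSum_coeff, Polynomial.coeff_monomial] at h1
    rw [Finset.sum_eq_single i] at h1
    · rw [if_pos rfl, sub_eq_zero] at h1
      exact h1
    · intro j _ hj
      rw [if_neg]
      intro h
      exact hj (Fin.ext h)
    · intro h
      exact absurd (Finset.mem_univ _) h
  have hdeg : ∀ g, (Pg g).natDegree ≤ r := by
    intro g
    apply Polynomial.natDegree_sum_le_of_forall_le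
    intro i _
    exact (Polynomial.natDegree_monomial_le _).trans i.2.le
  let PP : Polynomial L := ∏ g ∈ (Finset.univ : Finset Gal(L/ℚ)).filter
    (fun g => g ∉ M.fixingSubgroup), Pg g
  have hPP0 : PP ≠ 0 := by
    rw [Finset.prod_ne_zero_iff]
    intro g hg
    exact hPg0 g (Finset.mem_filter.mp hg).2
  have hPPdeg : PP.natDegree ≤ n * r := by
    refine (Polynomial.natDegree_prod_le _ _).trans ?_
    calc ∑ g ∈ (Finset.univ : Finset Gal(L/ℚ)).filter
          (fun g => g ∉ M.fixingSubgroup), (Pg g).natDegree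
        ≤ ∑ g ∈ (Finset.univ : Finset Gal(L/ℚ)).filter
          (fun g => g ∉ M.fixingSubgroup), r := Finset.sum_le_sum fun g _ => hdeg g
      _ = ((Finset.univ : Finset Gal(L/ℚ)).filter
          (fun g => g ∉ M.fixingSubgroup)).card * r := by
          rw [Finset.sum_const, smul_eq_mul]
      _ ≤ n * r := by
          apply Nat.mul_le_mul_right
          refine (Finset.card_le_card (Finset.filter_subset _ _)).trans ?_
          rw [Finset.card_univ, hcardG]
  obtain ⟨t, ht⟩ : ∃ t : Fin (n * r + 1), PP.eval (((t : ℕ) : L)) ≠ 0 := by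
    by_contra hcon
    push Not at hcon
    apply hPP0
    apply Polynomial.eq_zero_of_natDegree_lt_card_of_eval_eq_zero PP
      (f := fun t : Fin (n * r + 1) => (((t : ℕ) : L)))
    · intro s t hst
      have hst' : ((s : ℕ) : L) = ((t : ℕ) : L) := hst
      exact Fin.ext (by exact_mod_cast hst')
    · exact hcon
    · rw [Fintype.card_fin]
      omega
  rw [Polynomial.eval_prod, Finset.prod_ne_zero_iff] at ht
  -- the generator
  let θ : M := ∑ i : Fin r, ((t : ℕ) : M) ^ (i : ℕ) * ⟨x i, hxM i⟩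
  have hθL : (θ : L) = ∑ i : Fin r, ((t : ℕ) : L) ^ (i : ℕ) * x i := by
    simp only [θ]
    push_cast
    rfl
  have hθint : IsIntegral ℤ θ := by
    apply IsIntegral.sum
    intro i _
    apply IsIntegral.mul
    · exact IsIntegral.pow (isIntegral_natCast _) _
    · have h1 : IsIntegral ℤ ((a i : 𝓞 (e.symm i).1) : (e.symm i).1) :=
        RingOfIntegers.isIntegral_coe (a i)
      exact h1.map (IntermediateField.inclusion (hle i))
  have hgenθL : M ≤ ℚ⟮(θ : L)⟯ := by
    rw [← IsGalois.fixedField_fixingSubgroup ℚ⟮(θ : L)⟯]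
    intro y hy
    change y ∈ fixF L _
    rw [mem_fixF]
    intro g hg
    have hgM : g ∈ M.fixingSubgroup := by
      by_contra hcon
      apply ht g (Finset.mem_filter.mpr ⟨Finset.mem_univ _, hcon⟩)
      have h1 : Polynomial.eval (((t : ℕ) : L)) (Pg g) = g (θ : L) - (θ : L) := by
        rw [hθL]
        simp only [Pg, Polynomial.eval_finsetSum, Polynomial.eval_monomial, map_sum, map_mul,
          map_pow, map_natCast]
        rw [← Finset.sum_sub_distrib]
        apply Finset.sum_congr rfl
        intro i _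
        ring
      rw [IntermediateField.mem_fixingSubgroup_iff] at hg
      rw [h1, hg _ (IntermediateField.mem_adjoin_simple_self ℚ (θ : L)), sub_self]
    rw [IntermediateField.mem_fixingSubgroup_iff] at hgM
    exact hgM y hy
  have hgenθ : ℚ⟮θ⟯ = ⊤ := by
    rw [eq_top_iff]
    intro y _
    have h1 : (y : L) ∈ ℚ⟮(θ : L)⟯ := hgenθL y.2
    let F3 : IntermediateField ℚ L :=
      (((ℚ⟮θ⟯ : IntermediateField ℚ M).toSubfield).map (algebraMap M L)).toIntermediateField (by
        intro q
        refine ⟨(q : M), ?_, by simp⟩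
        exact SubfieldClass.ratCast_mem (ℚ⟮θ⟯ : IntermediateField ℚ M) q)
    have h2 : ℚ⟮(θ : L)⟯ ≤ F3 := by
      rw [IntermediateField.adjoin_simple_le_iff]
      exact ⟨θ, IntermediateField.mem_adjoin_simple_self ℚ θ, rfl⟩
    obtain ⟨z, hz, hzy⟩ := h2 h1
    have h3 : z = y := Subtype.ext hzy
    rw [← h3]
    exact hz
  set X : ℝ := r * (n * r + 1) ^ r * B with hX
  have hθX : ∀ φ : M →ₐ[ℚ] ℂ, ‖φ θ‖ ≤ X := by
    intro φ
    simp only [θ]
    rw [map_sum]
    refine (norm_sum_le _ _).trans ?_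
    calc ∑ i : Fin r, ‖φ (((t : ℕ) : M) ^ (i : ℕ) * ⟨x i, hxM i⟩)‖
        ≤ ∑ i : Fin r, ((n * r + 1 : ℝ) ^ r * B) := by
          apply Finset.sum_le_sum
          intro i _
          rw [map_mul, map_pow, map_natCast, norm_mul, norm_pow, Complex.norm_natCast]
          apply mul_le_mul _ (hxB i φ) (norm_nonneg _) (by positivity)
          have h1 : ((t : ℕ) : ℝ) ≤ n * r + 1 := by
            have := t.2
            exact_mod_cast this.le
          calc ((t : ℕ) : ℝ) ^ (i : ℕ) ≤ (n * r + 1 : ℝ) ^ (i : ℕ) :=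
                pow_le_pow_left₀ (Nat.cast_nonneg _) h1 _
            _ ≤ (n * r + 1 : ℝ) ^ r := by
                apply pow_le_pow_right₀ _ i.2.le
                have : (0 : ℝ) ≤ n * r := by positivity
                linarith
      _ = X := by
          rw [Finset.sum_const, Finset.card_univ, Fintype.card_fin, nsmul_eq_mul, hX]
          ring
  let θ' : 𝓞 M := ⟨θ, hθint⟩
  have hdisc := disc_le_of_gen θ' hgenθ X hθX
  have hmn : finrank ℚ M ≤ n := by
    have h3 := finrank_mul_finrank ℚ M L
    rw [hn, ← h3]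
    exact Nat.le_mul_of_pos_right _ finrank_pos
  set m := finrank ℚ M with hm
  have hr1' : (1 : ℝ) ≤ r := by exact_mod_cast hr1
  have hn1' : (1 : ℝ) ≤ n := by exact_mod_cast hn1
  have hnr1 : (1 : ℝ) ≤ (n * r + 1 : ℝ) ^ r := by
    apply one_le_pow₀
    have : (0 : ℝ) ≤ n * r := by positivity
    linarith
  have hX0 : 0 < X := by rw [hX]; positivity
  have hDpos : (0 : ℝ) < |(discr M : ℝ)| := abs_pos.mpr (by exact_mod_cast discr_ne_zero M)
  have hlog := Real.log_le_log hDpos hdisc
  rw [Real.log_pow] at hlog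
  have hsT : 1 ≤ Real.sqrt T := by
    apply Real.le_sqrt_of_sq_le
    linarith
  have hlogB : Real.log B ≤ (n + 2) + Real.log T / 2 := by
    have h1 : B ≤ 2 ^ (n + 1) * Real.sqrt T := by
      rw [hB, pow_succ]
      have h2 : (2 : ℝ) ≤ 2 ^ n := by
        calc (2 : ℝ) = 2 ^ 1 := by norm_num
          _ ≤ 2 ^ n := pow_le_pow_right₀ (by norm_num) hn1
      nlinarith
    have h2 := Real.log_le_log hB0 h1
    rw [Real.log_mul (by positivity) (by positivity), Real.log_pow, Real.log_sqrt (by linarith)] at h2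
    have h3 : Real.log 2 ≤ 1 := by linarith [Real.log_two_lt_d9]
    have h4 : ((n + 1 : ℕ) : ℝ) * Real.log 2 ≤ ((n + 1 : ℕ) : ℝ) * 1 :=
      mul_le_mul_of_nonneg_left h3 (Nat.cast_nonneg _)
    push_cast at h2 h4
    linarith
  have hlog2X : Real.log (2 * X) = Real.log (2 * (r * (n * r + 1) ^ r)) + Real.log B := by
    rw [← Real.log_mul (by positivity) (by positivity)]
    congr 1
    rw [hX]; ring
  have hlog0 : 0 ≤ Real.log (2 * (r * (n * r + 1) ^ r)) := by
    apply Real.log_nonneg
    nlinarith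
  have hlogT : 0 ≤ Real.log T := Real.log_nonneg hT1
  have h1 : Real.log (2 * X) ≤ Real.log (2 * (r * (n * r + 1) ^ r)) + (n + 2) + Real.log T := by
    rw [hlog2X]
    linarith
  have h2 : ((m * (m - 1) : ℕ) : ℝ) ≤ (n : ℝ) ^ 2 := by
    have h3 : m * (m - 1) ≤ n ^ 2 := by
      rw [sq]
      exact Nat.mul_le_mul hmn ((Nat.sub_le m 1).trans hmn)
    exact_mod_cast h3
  have h3 : 0 ≤ Real.log (2 * (r * (n * r + 1) ^ r)) + (n + 2) + Real.log T := by positivity
  calc Real.log |(discr M : ℝ)| ≤ ((m * (m - 1) : ℕ) : ℝ) * Real.log (2 * X) := hlog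
    _ ≤ ((m * (m - 1) : ℕ) : ℝ) *
        (Real.log (2 * (r * (n * r + 1) ^ r)) + (n + 2) + Real.log T) :=
        mul_le_mul_of_nonneg_left h1 (Nat.cast_nonneg _)
    _ ≤ (n : ℝ) ^ 2 *
        (Real.log (2 * (r * (n * r + 1) ^ r)) + (n + 2) + Real.log T) :=
        mul_le_mul_of_nonneg_right h2 h3
    _ = _ := by unfold cc; ring

lemma card_intermediateField_le (L : Type*) [Field L] [NumberField L] [IsGalois ℚ L]
    (S : Finset (IntermediateField ℚ L)) : S.card ≤ 2 ^ finrank ℚ L := by
  classical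
  have hinj : Function.Injective (fun F : IntermediateField ℚ L =>
      (Finset.univ.filter (fun g : Gal(L/ℚ) => g ∈ F.fixingSubgroup))) := by
    intro F1 F2 h
    have h1 : F1.fixingSubgroup = F2.fixingSubgroup := by
      ext g
      have := congrArg (fun s => g ∈ s) h
      simpa using this
    rw [← IsGalois.fixedField_fixingSubgroup F1, h1, IsGalois.fixedField_fixingSubgroup F2]
  have h1 : S.card ≤ ((Finset.univ : Finset Gal(L/ℚ)).powerset).card := by
    apply Finset.card_le_card_of_injOn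
      (fun F : IntermediateField ℚ L =>
        (Finset.univ.filter (fun g : Gal(L/ℚ) => g ∈ F.fixingSubgroup)))
    · intro F _
      simp
    · exact hinj.injOn
  rw [Finset.card_powerset, Finset.card_univ, ← Nat.card_eq_fintype_card,
    IsGalois.card_aut_eq_finrank] at h1
  exact h1

/-- Task Q1: discriminant of a compositum (generalise helper39's `composite_bound`, Fields.lean) -/
theorem sup_bound (n : ℕ) : ∃ c : ℝ, 0 ≤ c ∧ ∀ (L : Type) [Field L] [NumberField L] [IsGalois ℚ L],
    finrank ℚ L = n → ∀ (S : Finset (IntermediateField ℚ L)) (t : ℝ), 0 ≤ t →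
      (∀ F ∈ S, Real.log |(discr F : ℝ)| ≤ t) →
      Real.log |(discr (S.sup id : IntermediateField ℚ L) : ℝ)| ≤ c + (n : ℝ) ^ 2 * t := by
  refine ⟨∑ r ∈ Finset.range (2 ^ n + 1), cc n r, Finset.sum_nonneg fun r _ => cc_nonneg n r, ?_⟩
  intro L _ _ _ hL S t ht hS
  have hc : cc n S.card ≤ ∑ r ∈ Finset.range (2 ^ n + 1), cc n r := by
    apply Finset.single_le_sum (f := fun r => cc n r) (fun r _ => cc_nonneg n r)
    rw [Finset.mem_range, Nat.lt_succ_iff, ← hL]
    exact card_intermediateField_le L S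
  rcases S.eq_empty_or_nonempty with h | h
  · subst h
    rw [Finset.sup_empty, discr_bot_eq]
    simp only [Int.cast_one, abs_one, Real.log_one]
    have : 0 ≤ ∑ r ∈ Finset.range (2 ^ n + 1), cc n r :=
      Finset.sum_nonneg fun r _ => cc_nonneg n r
    positivity
  · have h1 := sup_bound_aux S h (Real.exp t) (Real.one_le_exp ht) (by
      intro F hF
      have hpos : (0 : ℝ) < |(discr F : ℝ)| := abs_pos.mpr (by exact_mod_cast discr_ne_zero F)
      exact (Real.log_le_iff_le_exp hpos).mp (hS F hF))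
    rw [hL, Real.log_exp] at h1
    linarith

lemma finrank_le_of_int {L : Type*} [Field L] [NumberField L] (F : IntermediateField ℚ L) :
    finrank ℚ F ≤ finrank ℚ L := by
  have h3 := finrank_mul_finrank ℚ F L
  rw [← h3]
  exact Nat.le_mul_of_pos_right _ finrank_pos

/-- Task Q2: choice of the scale -/
theorem exists_scale (n : ℕ) : ∃ c : ℝ, 0 ≤ c ∧ ∀ (L : Type) [Field L] [NumberField L]
    [IsGalois ℚ L], finrank ℚ L = n → ∀ (B t : ℝ), 1 ≤ B → 0 ≤ t →
      ∃ (i : ℕ) (S : IntermediateField ℚ L), i ≤ n ∧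
        Real.log |(discr S : ℝ)| ≤ c + (n : ℝ) ^ 2 * (B ^ i * t) ∧
        ∀ F : IntermediateField ℚ L, ¬ F ≤ S → B ^ (i + 1) * t < Real.log |(discr F : ℝ)| := by
  classical
  obtain ⟨c, hc, hb⟩ := sup_bound n
  refine ⟨c, hc, ?_⟩
  intro L _ _ _ hL B t hB ht
  have hfin : Finite (IntermediateField ℚ L) := by
    apply Finite.of_injective (fun F : IntermediateField ℚ L => F.fixingSubgroup)
    intro F1 F2 h
    have h1 : F1.fixingSubgroup = F2.fixingSubgroup := h
    rw [← IsGalois.fixedField_fixingSubgroup F1, h1, IsGalois.fixedField_fixingSubgroup F2]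
  let _ : Fintype (IntermediateField ℚ L) := Fintype.ofFinite _
  let SS : ℕ → Finset (IntermediateField ℚ L) := fun i =>
    Finset.univ.filter (fun F => Real.log |(discr F : ℝ)| ≤ B ^ i * t)
  let S : ℕ → IntermediateField ℚ L := fun i => (SS i).sup id
  have hmono : ∀ i, S i ≤ S (i + 1) := by
    intro i
    apply Finset.sup_mono
    intro F hF
    simp only [SS, Finset.mem_filter, Finset.mem_univ, true_and] at hF ⊢
    refine hF.trans (mul_le_mul_of_nonneg_right ?_ ht)
    exact pow_le_pow_right₀ hB (Nat.le_succ i)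
  obtain ⟨i, hin, hi⟩ : ∃ i, i ≤ n ∧ S i = S (i + 1) := by
    by_contra hcon
    push Not at hcon
    have key : ∀ i, i ≤ n + 1 → i + 1 ≤ finrank ℚ (S i) := by
      intro i
      induction i with
      | zero => intro _; exact finrank_pos
      | succ i ih =>
        intro hi
        have h1 := ih (by omega)
        have h2 := hcon i (by omega)
        have h3 : finrank ℚ (S i) < finrank ℚ (S (i + 1)) := by
          by_contra h4
          push Not at h4
          exact h2 (IntermediateField.eq_of_le_of_finrank_le (hmono i) h4)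
        omega
    have h1 := key (n + 1) le_rfl
    have h2 : finrank ℚ (S (n + 1)) ≤ n := (finrank_le_of_int (S (n + 1))).trans hL.le
    omega
  refine ⟨i, S i, hin, ?_, ?_⟩
  · apply hb L hL (SS i) (B ^ i * t) (by positivity)
    intro F hF
    simpa only [SS, Finset.mem_filter, Finset.mem_univ, true_and] using hF
  · intro F hF
    by_contra hcon
    push Not at hcon
    apply hF
    rw [hi]
    apply Finset.le_sup (f := id)
    simpa only [SS, Finset.mem_filter, Finset.mem_univ, true_and] using hcon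

end Pool.Agent.Lib.MP_695920_nt.Tow
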