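import Pool.Agent.Lib.MP_695920_nt.Solv.Grp

/-!
Task U: a solvable primitive permutation group of degree `l ^ j` with a transitive cyclic subgroup
has `j = 1` when `l` is odd.
-/

set_option autoImplicit false

open Subgroup

namespace Pool.Agent.Lib.MP_695920_nt.Tow

open Solv

/-- linear algebra in characteristic `l` -/
private theorem nil_sum' {M : Type*} [AddCommGroup M] [Finite M] {l j : ℕ} [Fact l.Prime]
    [Module (ZMod l) M] (hcard : Nat.card M = l ^ j) (U : Module.End (ZMod l) M)
    (hu : U ^ l ^ j = 1) (k : ℕ) (hk : j + 1 ≤ l ^ k) :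
    ∑ i ∈ Finset.range (l ^ k), U ^ i = 0 := by
  have hl : l.Prime := Fact.out
  have : Module.Finite (ZMod l) M := Module.Finite.of_finite
  have hfin : Module.finrank (ZMod l) M = j := by
    have h1 := Module.natCard_eq_pow_finrank (K := ZMod l) (V := M)
    rw [hcard, Nat.card_zmod] at h1
    exact (Nat.pow_right_injective hl.two_le h1).symm
  have hpoly : ∀ n : ℕ, ((Polynomial.X - 1 : Polynomial (ZMod l)) ^ l ^ n) =
      Polynomial.X ^ l ^ n - 1 := by
    intro n
    rw [sub_pow_char_pow, one_pow]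
  have hU1 : (U - 1) ^ l ^ j = 0 := by
    have h1 := congrArg (Polynomial.aeval U) (hpoly j)
    simp only [map_pow, map_sub, Polynomial.aeval_X, map_one] at h1
    rw [h1, sub_eq_zero, hu]
  have hU2 : (U - 1) ^ j = 0 := by
    have h1 := Module.End.ker_pow_le_ker_pow_finrank (U - 1) (l ^ j)
    rw [hU1, hfin] at h1
    ext x
    have h2 : x ∈ LinearMap.ker ((U - 1) ^ j) := h1 (by simp)
    simpa using h2
  have hU3 : (U - 1) ^ (l ^ k - 1) = 0 := by
    have h1 : l ^ k - 1 = j + (l ^ k - 1 - j) := by omega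
    rw [h1, pow_add, hU2, zero_mul]
  have hpoly2 : (∑ i ∈ Finset.range (l ^ k), (Polynomial.X : Polynomial (ZMod l)) ^ i) =
      (Polynomial.X - 1) ^ (l ^ k - 1) := by
    have h1 : (Polynomial.X - 1 : Polynomial (ZMod l)) ≠ 0 := by
      have := Polynomial.X_sub_C_ne_zero (1 : ZMod l)
      simpa using this
    apply mul_right_cancel₀ h1
    rw [geom_sum_mul, ← pow_succ, Nat.sub_add_cancel (by omega), hpoly]
  have h1 := congrArg (Polynomial.aeval U) hpoly2
  simp only [map_sum, map_pow, map_sub, Polynomial.aeval_X, map_one] at h1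
  rw [hU3] at h1
  exact h1

private theorem nil_sum {M : Type*} [AddCommGroup M] [Finite M] {l j : ℕ} (hl : l.Prime)
    (h0 : ∀ x : M, l • x = 0) (hcard : Nat.card M = l ^ j) (u : M →+ M)
    (hu : ∀ x, u^[l ^ j] x = x) (k : ℕ) (hk : j + 1 ≤ l ^ k) (b : M) :
    ∑ i ∈ Finset.range (l ^ k), u^[i] b = 0 := by
  have : Fact l.Prime := ⟨hl⟩
  obtain ⟨inst⟩ : Nonempty (Module (ZMod l) M) := ⟨AddCommGroup.zmodModule h0⟩
  let U : M →ₗ[ZMod l] M := u.toZModLinearMap l
  have hU : ∀ (n : ℕ) (x : M), ((U ^ n : M →ₗ[ZMod l] M)) x = u^[n] x := by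
    intro n x
    rw [Module.End.pow_apply]
    rfl
  have h1 := nil_sum' hcard U (by
    ext x
    rw [hU, hu]
    rfl) k hk
  have h2 := congrArg (fun f : M →ₗ[ZMod l] M => f b) h1
  simp only [LinearMap.sum_apply, hU, LinearMap.zero_apply] at h2
  exact h2

section
variable {G : Type*} [Group G]

private theorem compl_of {V : Subgroup G} (hcore : V.normalCore = ⊥) (hmax : IsCoatom V)
    {A : Subgroup G} (hA : A.Normal) (hA0 : A ≠ ⊥) (hab : ∀ a ∈ A, ∀ b ∈ A, a * b = b * a) :
    A ⊓ V = ⊥ ∧ A ⊔ V = ⊤ ∧ Nat.card A = V.index := by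
  have hAV : ¬ A ≤ V := fun h => hA0 (le_bot_of_core hcore hA h)
  have hsup : A ⊔ V = ⊤ := by
    refine hmax.2 _ (lt_of_le_of_ne le_sup_right fun h => hAV ?_)
    rw [h]; exact le_sup_left
  have hinf : A ⊓ V = ⊥ := by
    apply le_bot_of_core hcore _ inf_le_right
    apply normal_of_sup hsup
    · intro a ha x hx
      have : a * x * a⁻¹ = x := by rw [hab a ha x hx.1, mul_inv_cancel_right]
      rw [this]; exact hx
    · intro a ha x hx
      exact ⟨hA.conj_mem x hx.1 a, V.mul_mem (V.mul_mem ha hx.2) (V.inv_mem ha)⟩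
  refine ⟨hinf, hsup, ?_⟩
  have hcompl : IsComplement' A V := by
    apply isComplement'_of_disjoint_and_mul_eq_univ (disjoint_iff.mpr hinf)
    rw [Set.eq_univ_iff_forall]
    intro g
    have hg : g ∈ A ⊔ V := by rw [hsup]; exact mem_top g
    obtain ⟨n, hn, h, hh, rfl⟩ := Subgroup.mem_sup_of_normal_left.mp hg
    exact Set.mul_mem_mul hn hh
  exact (hcompl.index_eq_card).symm

/-- the core-free case -/
private theorem core_free [Finite G] [Group.IsSolvable G] (V : Subgroup G) (hcore : V.normalCore = ⊥)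
    (hmax : IsCoatom V) {l j : ℕ} (hl : l.Prime) (hl2 : l ≠ 2) (hidx : V.index = l ^ j) (c : G)
    (htrans : ∀ g : G, ∃ v ∈ V, ∃ s ∈ zpowers c, v * s = g) : V.index = l := by
  have hj0 : j ≠ 0 := by
    rintro rfl
    rw [pow_zero, Subgroup.index_eq_one] at hidx
    exact hmax.1 hidx
  by_contra hne
  have hj : 2 ≤ j := by
    by_contra h
    have : j = 1 := by omega
    rw [this, pow_one] at hidx
    exact hne hidx
  have hnt : Nontrivial G := by
    by_contra hcon
    rw [not_nontrivial_iff_subsingleton] at hcon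
    exact hmax.1 (Subsingleton.elim _ _)
  -- the cyclic group
  have hcinf : zpowers c ⊓ V = ⊥ := by
    rw [eq_bot_iff, ← hcore]
    rintro x ⟨hx1, hx2⟩ g
    obtain ⟨v, hv, s, hs, rfl⟩ := htrans g
    have hcomm : s * x = x * s := by
      obtain ⟨a, rfl⟩ := Subgroup.mem_zpowers_iff.mp hx1
      obtain ⟨b, rfl⟩ := Subgroup.mem_zpowers_iff.mp hs
      exact ((Commute.refl c).zpow_zpow b a).eq
    have h1 : v * s * x * (v * s)⁻¹ = v * x * v⁻¹ := by
      calc v * s * x * (v * s)⁻¹ = v * (s * x) * s⁻¹ * v⁻¹ := by group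
        _ = v * (x * s) * s⁻¹ * v⁻¹ := by rw [hcomm]
        _ = v * x * v⁻¹ := by group
    rw [h1]
    exact V.mul_mem (V.mul_mem hv hx2) (V.inv_mem hv)
  have hcord : orderOf c = l ^ j := by
    have hcompl : IsComplement' V (zpowers c) := by
      apply isComplement'_of_disjoint_and_mul_eq_univ
      · rw [disjoint_iff, inf_comm]; exact hcinf
      · rw [Set.eq_univ_iff_forall]
        intro g
        obtain ⟨n, hn, h, hh, rfl⟩ := htrans g
        exact Set.mul_mem_mul hn hh
    rw [← Nat.card_zpowers, ← hidx, hcompl.symm.index_eq_card]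
  -- the abelian normal subgroup
  obtain ⟨A, hA, hA0, hab⟩ := exists_abelian_normal (G := G)
  let B : Subgroup G :=
    { carrier := {x | x ∈ A ∧ x ^ l = 1}
      one_mem' := ⟨A.one_mem, one_pow l⟩
      mul_mem' := by
        rintro a b ⟨ha, ha'⟩ ⟨hb, hb'⟩
        have : Commute a b := hab a ha b hb
        exact ⟨A.mul_mem ha hb, by rw [this.mul_pow, ha', hb', one_mul]⟩
      inv_mem' := by
        rintro a ⟨ha, ha'⟩
        exact ⟨A.inv_mem ha, by rw [inv_pow, ha', inv_one]⟩ }
  have hB : B.Normal := by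
    refine ⟨?_⟩
    rintro a ⟨ha, ha'⟩ g
    exact ⟨hA.conj_mem a ha g, by rw [conj_pow, ha']; group⟩
  have hBab : ∀ a ∈ B, ∀ b ∈ B, a * b = b * a := fun a ha b hb => hab a ha.1 b hb.1
  have hB0 : B ≠ ⊥ := by
    have h1 : l ∣ Nat.card A := by
      rw [(compl_of hcore hmax hA hA0 hab).2.2, hidx]
      exact dvd_pow_self l hj0
    have : Fact l.Prime := ⟨hl⟩
    obtain ⟨x, hx⟩ := exists_prime_orderOf_dvd_card' (G := A) l h1
    intro h
    have h2 : (x : G) ∈ B := by
      refine ⟨x.2, ?_⟩
      have := pow_orderOf_eq_one x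
      rw [hx] at this
      exact_mod_cast congrArg Subtype.val this
    rw [h, mem_bot] at h2
    have h3 : x = 1 := Subtype.ext h2
    rw [h3, orderOf_one] at hx
    exact hl.one_lt.ne hx
  obtain ⟨hBV, hBsup, hBcard⟩ := compl_of hcore hmax hB hB0 hBab
  rw [hidx] at hBcard
  let _ : CommGroup B := { (inferInstance : Group B) with
    mul_comm := fun a b => Subtype.ext (hBab a a.2 b b.2) }
  have hcB : c ∈ B ⊔ V := by rw [hBsup]; exact mem_top c
  obtain ⟨b, hb, v, hv, hbv⟩ := Subgroup.mem_sup_of_normal_left.mp hcB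
  let u : Additive B →+ Additive B := (MulAut.conjNormal (H := B) v).toMonoidHom.toAdditive
  have hu1 : ∀ x : Additive B, ((u x).toMul : G) = v * (x.toMul : G) * v⁻¹ := fun x => rfl
  have hun : ∀ (n : ℕ) (x : Additive B), ((u^[n] x).toMul : G) = v ^ n * (x.toMul : G) * (v ^ n)⁻¹ := by
    intro n
    induction n with
    | zero => intro x; simp
    | succ n ih =>
      intro x
      rw [Function.iterate_succ_apply', hu1, ih, pow_succ']
      group
  have hsum : ∀ n : ℕ, c ^ n = ((∑ i ∈ Finset.range n, u^[i] (Additive.ofMul ⟨b, hb⟩)).toMul : G) *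
      v ^ n := by
    intro n
    induction n with
    | zero => simp
    | succ n ih =>
      have h1 : ∑ i ∈ Finset.range (n + 1), u^[i] (Additive.ofMul ⟨b, hb⟩) =
          Additive.ofMul ⟨b, hb⟩ + u (∑ i ∈ Finset.range n, u^[i] (Additive.ofMul ⟨b, hb⟩)) := by
        rw [Finset.sum_range_succ', map_sum, add_comm]
        simp only [Function.iterate_succ_apply', Function.iterate_zero, id]
      rw [h1, pow_succ', ih, toMul_add, Subgroup.coe_mul, hu1, pow_succ', ← hbv]
      simp only [toMul_ofMul]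
      group
  have hN : ∀ n : ℕ, c ^ n = 1 → v ^ n = 1 := by
    intro n hn
    have h1 := hsum n
    rw [hn] at h1
    have h2 : v ^ n ∈ B ⊓ V := by
      refine ⟨?_, V.pow_mem hv n⟩
      have h3 : v ^ n = ((∑ i ∈ Finset.range n, u^[i] (Additive.ofMul ⟨b, hb⟩)).toMul : G)⁻¹ :=
        eq_inv_of_mul_eq_one_right h1.symm
      change v ^ n ∈ B
      rw [h3]
      exact B.inv_mem (Subtype.property _)
    rw [hBV] at h2
    exact mem_bot.mp h2
  have hv1 : v ^ l ^ j = 1 := hN _ (by rw [← hcord, pow_orderOf_eq_one])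
  have hl0 : ∀ x : Additive B, l • x = 0 := by
    intro x
    apply Additive.toMul.injective
    apply Subtype.ext
    have h5 : ((Additive.toMul x : B) : G) ^ l = 1 := (Additive.toMul x).2.2
    simpa using h5
  have hkey := nil_sum (M := Additive B) (l := l) (j := j) hl hl0 hBcard u (fun x => by
      apply Additive.toMul.injective
      apply Subtype.ext
      rw [hun, hv1]
      group) (j - 1) (by
      have hl3 : 3 ≤ l := by
        have := hl.two_le
        omega
      obtain ⟨i, rfl⟩ : ∃ i, j = i + 2 := ⟨j - 2, by omega⟩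
      have h1 : ∀ i : ℕ, i + 3 ≤ 3 ^ (i + 1) := by
        intro i
        induction i with
        | zero => norm_num
        | succ i ih => rw [pow_succ]; omega
      exact (h1 i).trans (Nat.pow_le_pow_left hl3 _)) (Additive.ofMul ⟨b, hb⟩)
  have h1 := hsum (l ^ (j - 1))
  rw [hkey] at h1
  have h2 : c ^ l ^ (j - 1) ∈ zpowers c ⊓ V := by
    refine ⟨Subgroup.pow_mem _ (Subgroup.mem_zpowers c) _, ?_⟩
    change c ^ l ^ (j - 1) ∈ V
    rw [h1]
    simpa using V.pow_mem hv _
  rw [hcinf, mem_bot, ← orderOf_dvd_iff_pow_eq_one, hcord] at h2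
  have h3 := (Nat.pow_dvd_pow_iff_le_right hl.one_lt).mp h2
  omega

end

/-- Task U: a solvable primitive permutation group of degree `l ^ j` with a transitive cyclic
subgroup has `j = 1` (`l` odd) -/
theorem index_eq_of_cyclic {G : Type*} [Group G] [Finite G] (V : Subgroup G)
    [Group.IsSolvable (G ⧸ V.normalCore)] (hmax : IsCoatom V) {l j : ℕ} (hl : l.Prime) (hl2 : l ≠ 2)
    (hidx : V.index = l ^ j) (C : Subgroup G) (hC : IsCyclic C)
    (htrans : ∀ g : G, ∃ v ∈ V, ∃ s ∈ C, v * s = g) : V.index = l := by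
  let π : G →* G ⧸ V.normalCore := QuotientGroup.mk' V.normalCore
  have hπ : Function.Surjective π := QuotientGroup.mk'_surjective _
  have hker : π.ker ≤ V := by
    rw [QuotientGroup.ker_mk']
    exact V.normalCore_le
  have hcm : (V.map π).comap π = V := Subgroup.comap_map_eq_self hker
  have hcore : (V.map π).normalCore = ⊥ := by
    have h1 : (V.map π).normalCore.comap π ≤ V.normalCore := by
      rw [Subgroup.normal_le_normalCore]
      have h3 : (V.map π).normalCore.comap π ≤ (V.map π).comap π :=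
        Subgroup.comap_mono (Subgroup.normalCore_le _)
      rwa [hcm] at h3
    rw [eq_bot_iff]
    intro y hy
    obtain ⟨x, rfl⟩ := hπ y
    have h2 := h1 (show x ∈ (V.map π).normalCore.comap π from hy)
    rw [mem_bot]
    exact (QuotientGroup.eq_one_iff x).mpr h2
  have hmax' : IsCoatom (V.map π) := by
    constructor
    · intro h
      apply hmax.1
      rw [← hcm, h, Subgroup.comap_top]
    · intro W hW
      have h1 : V < W.comap π := by
        nth_rewrite 1 [← hcm]
        exact (Subgroup.comap_lt_comap_of_surjective hπ).mpr hW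
      have h2 := hmax.2 _ h1
      rw [eq_top_iff]
      intro y _
      obtain ⟨x, rfl⟩ := hπ y
      have : x ∈ W.comap π := by rw [h2]; exact mem_top x
      exact this
  have hidx' : (V.map π).index = V.index := Subgroup.index_map_eq V hπ hker
  obtain ⟨c, hc⟩ := hC.exists_generator
  have h := core_free (V.map π) hcore hmax' hl hl2 (hidx'.trans hidx) (π c) (by
    intro g
    obtain ⟨x, rfl⟩ := hπ g
    obtain ⟨v, hv, s, hs, rfl⟩ := htrans x
    refine ⟨π v, Subgroup.mem_map_of_mem π hv, π s, ?_, (map_mul π v s).symm⟩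
    obtain ⟨n, hn⟩ := Subgroup.mem_zpowers_iff.mp (hc ⟨s, hs⟩)
    rw [Subgroup.mem_zpowers_iff]
    refine ⟨n, ?_⟩
    rw [← map_zpow]
    congr 1
    have := congrArg Subtype.val hn
    simpa using this)
  rw [hidx'] at h
  exact h

end Pool.Agent.Lib.MP_695920_nt.Tow
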