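import Pool.Agent.Lib.MP_695920_nt.Decomp
import Pool.Agent.Lib.MP_695920_nt.Tow.Defs

/-!
Task V: decomposition groups and primes which split in a relative extension.
-/

set_option autoImplicit false

open Finset NumberField Module IsDedekindDomain
open scoped nonZeroDivisors Pointwise

namespace Pool.Agent.Lib.MP_695920_nt.Tow

section aux

variable {F L : Type*} [Field F] [NumberField F] [Field L] [NumberField L] [Algebra F L]

private lemma mem_smul_nat {p : ℕ} {P : Ideal (𝓞 L)} (hmem : (p : 𝓞 L) ∈ P) (g : Gal(L/F)) :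
    (p : 𝓞 L) ∈ g • P := by
  rw [Ideal.mem_pointwise_smul_iff_inv_smul_mem]
  have h1 : g⁻¹ • (p : 𝓞 L) = (p : 𝓞 L) :=
    map_natCast (MulSemiringAction.toRingHom Gal(L/F) (𝓞 L) g⁻¹) p
  rw [h1]
  exact hmem

private lemma smul_coe (M : IntermediateField F L) (g : Gal(L/M)) (P : Ideal (𝓞 L)) :
    ((M.fixingSubgroupEquiv.symm g : Gal(L/F))) • P = g • P := by
  rfl

private lemma exists_of_under [IsGalois F L] (M : IntermediateField F L) {P Q : Ideal (𝓞 L)}
    (hP : P.IsPrime) (hQ : Q.IsPrime) (h : P.under (𝓞 M) = Q.under (𝓞 M)) :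
    ∃ v ∈ M.fixingSubgroup, Q = v • P := by
  obtain ⟨g, hg⟩ := Algebra.IsInvariant.exists_smul_of_under_eq (𝓞 M) (𝓞 L) Gal(L/M) P Q h
  refine ⟨M.fixingSubgroupEquiv.symm g, (M.fixingSubgroupEquiv.symm g).2, ?_⟩
  rw [smul_coe, hg]

private lemma under_smul_of [IsGalois F L] (M : IntermediateField F L) {v : Gal(L/F)}
    (hv : v ∈ M.fixingSubgroup) (P : Ideal (𝓞 L)) :
    (v • P).under (𝓞 M) = P.under (𝓞 M) := by
  have h1 : v • P = (M.fixingSubgroupEquiv ⟨v, hv⟩) • P := by
    rw [← smul_coe, MulEquiv.symm_apply_apply]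
  rw [h1]
  exact P.under_smul (𝓞 M) _

end aux

/-- Task V0 -/
theorem isCyclic_stabilizer_rel {F L : Type*} [Field F] [NumberField F] [Field L] [NumberField L]
    [Algebra F L] [IsGalois F L] {p : ℕ} (hp : p.Prime) (hunr : ¬ p ∣ (discr L).natAbs)
    {P : Ideal (𝓞 L)} (hP : P.IsPrime) (hP0 : P ≠ ⊥) (hmem : (p : 𝓞 L) ∈ P) :
    IsCyclic (MulAction.stabilizer Gal(L/F) P) := by
  classical
  have hover : P.LiesOver (Ideal.span {(p : ℤ)}) := liesOver_of_mem hP hp hmem
  have hmaxp := span_int_isMaximal hp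
  have hnep : Ideal.span {(p : ℤ)} ≠ ⊥ := by simpa using hp.ne_zero
  set q := P.under (𝓞 F) with hq
  have hqp : q.IsPrime := inferInstance
  have hover' : P.LiesOver q := ⟨rfl⟩
  have hmemq : (p : 𝓞 F) ∈ q := by
    rw [hq, Ideal.under, Ideal.mem_comap, map_natCast]
    exact hmem
  have hne : q ≠ ⊥ := by
    intro h
    rw [h, Ideal.mem_bot] at hmemq
    exact hp.ne_zero (by exact_mod_cast hmemq)
  have hmax : q.IsMaximal := hqp.isMaximal hne
  have hPmax : P.IsMaximal := hP.isMaximal hP0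
  have hfin : Finite (𝓞 F ⧸ q) := Ring.HasFiniteQuotients.finiteQuotient hne
  have hfinP : Finite (𝓞 L ⧸ P) := Ring.HasFiniteQuotients.finiteQuotient hP0
  have h1 : Ideal.ramificationIdx' q P = 1 := by
    have h2 : ¬ 2 ≤ Ideal.ramificationIdx' q P := by
      intro h
      apply hunr
      have h3 : Ideal.map (algebraMap (𝓞 F) (𝓞 L)) q ≤ P ^ 2 := Ideal.le_pow_of_le_ramificationIdx' h
      have h4 : Ideal.map (algebraMap ℤ (𝓞 L)) (Ideal.span {(p : ℤ)}) ≤ P ^ 2 := by
        rw [Ideal.map_span, Set.image_singleton, Ideal.span_singleton_le_iff_mem]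
        apply h3
        have h5 := Ideal.mem_map_of_mem (algebraMap (𝓞 F) (𝓞 L)) hmemq
        simpa using h5
      have h6 := pow_sub_one_dvd_differentIdeal ℤ P 2 hnep (Ideal.dvd_iff_le.mpr h4)
      rw [Nat.add_sub_cancel_left 1 1, pow_one] at h6
      have h7 := Ideal.absNorm_dvd_absNorm_of_le (Ideal.le_of_dvd h6)
      rw [absNorm_differentIdeal L] at h7
      exact (dvd_absNorm_of_mem hp hP hP0 hmem).trans h7
    have h3 := Ideal.IsDedekindDomain.ramificationIdx'_ne_zero_of_liesOver P hne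
    omega
  rw [Ideal.ramificationIdx'_eq_ramificationIdx _ P hne] at h1
  have h2 := Ideal.card_inertia_eq_ramificationIdxIn (G := Gal(L/F)) q P
  rw [Ideal.ramificationIdxIn_eq_ramificationIdx q P Gal(L/F), h1] at h2
  have h3 : Ideal.inertia Gal(L/F) P = ⊥ := Subgroup.eq_bot_of_card_eq _ h2
  let _ : Field (𝓞 F ⧸ q) := Ideal.Quotient.field _
  let _ : Field (𝓞 L ⧸ P) := Ideal.Quotient.field _
  apply isCyclic_of_injective (Ideal.Quotient.stabilizerHom P q Gal(L/F))
  rw [← MonoidHom.ker_eq_bot_iff, Ideal.Quotient.ker_stabilizerHom, Subgroup.eq_bot_iff_forall]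
  intro g hg
  have h4 : (g : Gal(L/F)) ∈ Ideal.inertia Gal(L/F) P := hg
  rw [h3, Subgroup.mem_bot] at h4
  exact Subtype.ext h4

/-- Task V1 -/
theorem exists_mul_of_not_two {F L : Type*} [Field F] [NumberField F] [Field L] [NumberField L]
    [Algebra F L] [IsGalois F L] {p : ℕ} (M : IntermediateField F L) (huniq : ¬ TwoUp F M L p)
    {P : Ideal (𝓞 L)} (hP : P.IsPrime) (hmem : (p : 𝓞 L) ∈ P) (g : Gal(L/F)) :
    ∃ v ∈ M.fixingSubgroup, ∃ s ∈ MulAction.stabilizer Gal(L/F) P, v * s = g := by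
  have h1 : P.under (𝓞 M) = (g • P).under (𝓞 M) := by
    by_contra hne
    exact huniq ⟨P, g • P, hP, hP.smul g, hmem, mem_smul_nat hmem g, (P.under_smul (𝓞 F) g).symm, hne⟩
  obtain ⟨v, hv, hvP⟩ := exists_of_under M hP (hP.smul g) h1
  refine ⟨v, hv, v⁻¹ * g, ?_, by group⟩
  rw [MulAction.mem_stabilizer_iff, mul_smul, hvP, inv_smul_smul]

/-- Task V2 -/
theorem two_resolvent {F L : Type*} [Field F] [NumberField F] [Field L] [NumberField L]
    [Algebra F L] [IsGalois F L] {p : ℕ} (hp : p.Prime) (hunr : ¬ p ∣ (discr L).natAbs)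
    (M E E0 : IntermediateField F L) (hM : M ≠ ⊥) (hE : E.fixingSubgroup.Normal)
    (hout : ∀ g : Gal(L/F), g ∉ E.fixingSubgroup → ∃ x : Gal(L/F), x * g * x⁻¹ ∈ M.fixingSubgroup)
    (huniq : ¬ TwoUp F M L p) (hE0 : E0 < E) : TwoUp E0 E L p := by
  obtain ⟨P, hP, hP0, hmem⟩ := exists_prime_above (K := L) hp
  have hcyc := isCyclic_stabilizer_rel (F := F) hp hunr hP hP0 hmem
  obtain ⟨g0, hg0⟩ := hcyc.exists_generator
  have hgen : ∀ s ∈ MulAction.stabilizer Gal(L/F) P, ∃ n : ℤ, (g0 : Gal(L/F)) ^ n = s := by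
    intro s hs
    obtain ⟨n, hn⟩ := Subgroup.mem_zpowers_iff.mp (hg0 ⟨s, hs⟩)
    refine ⟨n, ?_⟩
    have := congrArg Subtype.val hn
    simpa using this
  have hle : MulAction.stabilizer Gal(L/F) P ≤ E.fixingSubgroup := by
    have hg : (g0 : Gal(L/F)) ∈ E.fixingSubgroup := by
      by_contra hg
      obtain ⟨x, hx⟩ := hout _ hg
      -- some element outside the group of `M`
      obtain ⟨y, hy⟩ : ∃ y : Gal(L/F), y ∉ M.fixingSubgroup := by
        by_contra hcon
        push Not at hcon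
        apply hM
        have h1 : M.fixingSubgroup = ⊤ := by
          rw [eq_top_iff]; intro y _; exact hcon y
        rw [← IsGalois.fixedField_fixingSubgroup M, h1, IsGalois.fixedField_top]
      obtain ⟨v, hv, s, hs, hvs⟩ := exists_mul_of_not_two M huniq (hP.smul x) (mem_smul_nat hmem x) y
      apply hy
      rw [← hvs]
      refine mul_mem hv ?_
      have h2 : x⁻¹ * s * x ∈ MulAction.stabilizer Gal(L/F) P := by
        rw [MulAction.mem_stabilizer_iff] at hs ⊢
        rw [mul_smul, mul_smul, hs, inv_smul_smul]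
      obtain ⟨n, hn⟩ := hgen _ h2
      have h3 : s = (x * g0 * x⁻¹) ^ n := by
        rw [conj_zpow, hn]
        group
      rw [h3]
      exact zpow_mem hx n
    intro s hs
    obtain ⟨n, rfl⟩ := hgen s hs
    exact zpow_mem hg n
  obtain ⟨z, hz0, hz⟩ : ∃ z ∈ E0.fixingSubgroup, z ∉ E.fixingSubgroup := by
    by_contra hcon
    push Not at hcon
    have h1 : E ≤ E0 := by
      rw [← IsGalois.fixedField_fixingSubgroup E0, ← IsGalois.fixedField_fixingSubgroup E]
      exact IntermediateField.fixedField_antitone hcon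
    exact absurd hE0 (not_lt_of_ge h1)
  refine ⟨P, z • P, hP, hP.smul z, hmem, mem_smul_nat hmem z, (under_smul_of E0 hz0 P).symm, ?_⟩
  intro h
  obtain ⟨n, hn, hnP⟩ := exists_of_under E hP (hP.smul z) h
  apply hz
  have h1 : n⁻¹ * z ∈ MulAction.stabilizer Gal(L/F) P := by
    rw [MulAction.mem_stabilizer_iff, mul_smul, hnP, inv_smul_smul]
  have h2 : n * (n⁻¹ * z) ∈ E.fixingSubgroup := mul_mem hn (hle h1)
  rwa [mul_inv_cancel_left] at h2

end Pool.Agent.Lib.MP_695920_nt.Tow
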