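import Mathlib
import Pool.Agent.Lib.MP_695920_nt.Tow.Step
import Pool.Agent.Lib.MP_695920_nt.Tow.Prim
import Pool.Agent.Lib.MP_695920_nt.Tow.Split
import Pool.Agent.Lib.MP_695920_nt.Tow.Lat

set_option autoImplicit false

open Finset NumberField Module IsDedekindDomain
open scoped nonZeroDivisors Pointwise IntermediateField

namespace Pool.Agent.Lib.MP_695920_nt.Tow

open Pool.Agent.Lib.MP_695920_nt.Solv

lemma solvable_quot {G : Type*} [Group G] (V : Subgroup G) (k : ℕ) (h : derivedSeries G k ≤ V) :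
    Group.IsSolvable (G ⧸ V.normalCore) := by
  refine ⟨⟨k, ?_⟩⟩
  rw [← map_derivedSeries_eq (QuotientGroup.mk'_surjective V.normalCore) k,
    Subgroup.map_eq_bot_iff, QuotientGroup.ker_mk']
  have hn : (derivedSeries G k).Normal := derivedSeries_normal G k
  exact Subgroup.normal_le_normalCore.mpr h

section gal

variable {F L : Type*} [Field F] [Field L] [Algebra F L] [FiniteDimensional F L] [IsGalois F L]

lemma isCoatom_fixing {M : IntermediateField F L} (hM : IsAtom M) : IsCoatom M.fixingSubgroup := by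
  have h1 : IsAtom (IsGalois.intermediateFieldEquivSubgroup M) :=
    (OrderIso.isAtom_iff _ M).mpr hM
  rw [← isAtom_dual_iff_isCoatom]
  exact h1

end gal

section lat

variable {L : Type} [Field L] [NumberField L]

lemma isAtom_extend {F M : IntermediateField ℚ L} (h : F ⋖ M) :
    IsAtom (IntermediateField.extendScalars h.le : IntermediateField F L) := by
  constructor
  · intro h0
    apply h.lt.ne
    apply le_antisymm h.le
    intro x hx
    have h1 : x ∈ (IntermediateField.extendScalars h.le : IntermediateField F L) := hx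
    rw [h0, IntermediateField.mem_bot] at h1
    obtain ⟨y, rfl⟩ := h1
    exact y.2
  · intro A hA
    have hFA : F ≤ A.restrictScalars ℚ := by
      intro x hx
      exact A.algebraMap_mem ⟨x, hx⟩
    have hAM : A.restrictScalars ℚ ≤ M := by
      intro x hx
      exact hA.le hx
    have hne : A.restrictScalars ℚ ≠ M := by
      intro h1
      apply hA.not_ge
      intro x hx
      have h2 : x ∈ M := hx
      rw [← h1] at h2
      exact h2
    have h2 : A.restrictScalars ℚ = F := by
      by_contra hne2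
      exact h.2 (lt_of_le_of_ne hFA (Ne.symm hne2)) (lt_of_le_of_ne hAM hne)
    rw [eq_bot_iff]
    intro x hx
    have h3 : x ∈ A.restrictScalars ℚ := hx
    rw [h2] at h3
    exact IntermediateField.mem_bot.mpr ⟨⟨x, h3⟩, rfl⟩

end lat

/-- the relative step in the lattice of subfields of `L` -/
theorem step_lat (l n : ℕ) (hl : l.Prime) (hl2 : l ≠ 2) (ε : ℝ) (hε : 0 < ε) :
    ∃ C c : ℝ, 0 < C ∧ 0 ≤ c ∧ ∀ (L : Type) [Field L] [NumberField L] [IsGalois ℚ L]
      (F M : IntermediateField ℚ L), F ⋖ M → finrank ℚ L = n →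
      (∃ k, ∀ x ∈ derivedSeries F.fixingSubgroup k, (x : Gal(L/ℚ)) ∈ M.fixingSubgroup) →
      (∃ j, finrank ℚ M = finrank ℚ F * l ^ j) →
      (∃ p : ℕ, p.Prime ∧ ¬ p ∣ (discr L).natAbs ∧ ¬ TwoUp F M L p) →
      ∃ (E : IntermediateField ℚ L) (a : ℕ), F ≤ E ∧ 1 ≤ a ∧ a < l ∧
        (∀ p : ℕ, p.Prime → ¬ p ∣ (discr L).natAbs → ¬ TwoUp F M L p →
          ∀ E0 : IntermediateField ℚ L, F ≤ E0 → E0 < E → TwoUp E0 E L p) ∧
        (Nat.card {x : ClassGroup (𝓞 M) // x ^ l = 1} : ℝ) ≤
          C * Real.exp (ε * Real.log |(discr L : ℝ)|) *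
          (Nat.card {x : ClassGroup (𝓞 E) // x ^ l = 1} : ℝ) ^ a *
          (Nat.card {x : ClassGroup (𝓞 F) // x ^ l = 1} : ℝ) ∧
        (a : ℝ) * Real.log |(discr E : ℝ)| + Real.log |(discr F : ℝ)| ≤
          Real.log |(discr M : ℝ)| + c := by
  classical
  obtain ⟨C, c, hC, hc, hmain⟩ := rel_step l n hl hl2 ε hε
  refine ⟨C, c, hC, hc, ?_⟩
  intro L _ _ _ F M hFM hn hsol hdeg hex
  let M' : IntermediateField F L := IntermediateField.extendScalars hFM.le
  obtain ⟨k, hk⟩ := hsol
  have hder : derivedSeries Gal(L/F) k ≤ M'.fixingSubgroup := by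
    let e : F.fixingSubgroup ≃* Gal(L/F) := IntermediateField.fixingSubgroupEquiv F
    rw [← map_derivedSeries_eq (f := e.toMonoidHom) e.surjective k]
    rintro _ ⟨y, hy, rfl⟩
    rw [IntermediateField.mem_fixingSubgroup_iff]
    intro m hm
    have h1 := hk y hy
    rw [IntermediateField.mem_fixingSubgroup_iff] at h1
    exact h1 m hm
  have hsolv : Group.IsSolvable (Gal(L/F) ⧸ M'.fixingSubgroup.normalCore) := solvable_quot _ k hder
  obtain ⟨j, hj⟩ := hdeg
  have hfr : finrank F M' = l ^ j := by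
    have h1 : finrank ℚ F * finrank F M' = finrank ℚ M' := finrank_mul_finrank ℚ F M'
    have h2 : finrank ℚ M' = finrank ℚ M := rfl
    rw [h2, hj] at h1
    exact Nat.eq_of_mul_eq_mul_left finrank_pos h1
  have hatom := isAtom_extend hFM
  have hco := isCoatom_fixing hatom
  have hidx : M'.fixingSubgroup.index = l ^ j := by rw [← finrank_index (F := F) M', hfr]
  obtain ⟨p, hp, hunr, huniq⟩ := hex
  obtain ⟨P, hP, hP0, hmem⟩ := exists_prime_above (K := L) hp
  have hcyc := isCyclic_stabilizer_rel (F := F) hp hunr hP hP0 hmem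
  have hl' := index_eq_of_cyclic M'.fixingSubgroup hco hl hl2 hidx
    (MulAction.stabilizer Gal(L/F) P) hcyc (exists_mul_of_not_two M' huniq hP hmem)
  have hfrl : finrank F M' = l := by rw [finrank_index (F := F) M', hl']
  obtain ⟨E', a, ha1, ha, hEn, hout, hcl, hdd⟩ := hmain F L M' hn hfrl
  have hl1 := hl.two_le
  have hEpos : 0 < finrank F E' := finrank_pos
  refine ⟨E'.restrictScalars ℚ, a, ?_, ha1, ?_, ?_, hcl, hdd⟩
  · intro x hx
    exact E'.algebraMap_mem ⟨x, hx⟩
  · have h1 : a ≤ finrank F E' * a := Nat.le_mul_of_pos_left a hEpos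
    omega
  · intro q hq hqunr hquniq E0 hFE0 hE0
    let E0' : IntermediateField F L := IntermediateField.extendScalars hFE0
    have hlt : E0' < E' := by
      refine lt_of_le_of_ne ?_ ?_
      · intro x hx
        exact hE0.le hx
      · intro h1
        apply hE0.not_ge
        intro x hx
        have h2 : x ∈ E' := hx
        rw [← h1] at h2
        exact h2
    exact two_resolvent hq hqunr M' E' E0' hatom.1 hEn hout hquniq hlt

end Pool.Agent.Lib.MP_695920_nt.Tow
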