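import Mathlib
import Pool.Agent.Lib.MP_695920_nt.Tow.Crit
import Pool.Agent.Lib.MP_695920_nt.Tow.StepQ
import Pool.Agent.Lib.MP_695920_nt.Tow.Logs
import Pool.Agent.Lib.MP_695920_nt.Tow.Scale

set_option autoImplicit false

open Finset NumberField Module IsDedekindDomain
open scoped nonZeroDivisors Pointwise IntermediateField

namespace Pool.Agent.Lib.MP_695920_nt.Tow

open Pool.Agent.Lib.MP_695920_nt.Solv

/-- the criterion for one normal subgroup -/
def Crit (l : ℕ) {G : Type*} [Group G] (H N : Subgroup G) : Prop :=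
  cset H N = ∅ ∨ cgrp H N ≠ ⊤ ∨ (l.Prime ∧ l ≠ 2 ∧
    (∃ j : ℕ, H.relIndex (H ⊔ N) = l ^ j) ∧
    ∃ k : ℕ, ∀ x ∈ derivedSeries (H ⊔ N : Subgroup G) k, (x : G) ∈ H)

section lat

variable {L : Type} [Field L] [NumberField L]

lemma finrank_dvd {X Y : IntermediateField ℚ L} (h : X ≤ Y) : ∃ b, finrank ℚ Y = finrank ℚ X * b := by
  let _ : Algebra X Y := (IntermediateField.inclusion h).toAlgebra
  exact ⟨finrank X Y, (finrank_mul_finrank ℚ X Y).symm⟩

variable [IsGalois ℚ L]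

lemma fixing_inf (M S : IntermediateField ℚ L) :
    (M ⊓ S : IntermediateField ℚ L).fixingSubgroup = M.fixingSubgroup ⊔ S.fixingSubgroup := by
  have h1 := OrderIso.map_inf (IsGalois.intermediateFieldEquivSubgroup (F := ℚ) (E := L)) M S
  exact h1

lemma fix_normal (S : IntermediateField ℚ L)
    (hS : ∀ F : IntermediateField ℚ L, ¬ F ≤ S → dd S < dd F) : S.fixingSubgroup.Normal := by
  constructor
  intro n hn g
  rw [IntermediateField.mem_fixingSubgroup_iff] at hn ⊢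
  intro x hx
  let S' : IntermediateField ℚ L := S.map ((g⁻¹ : Gal(L/ℚ)) : L →ₐ[ℚ] L)
  have e : S ≃ₐ[ℚ] S' := IntermediateField.equivMap S _
  have h1 : dd S = dd S' := by
    unfold dd
    rw [discr_eq_discr_of_algEquiv S e]
  have h2 : S' ≤ S := by
    by_contra h
    have := hS S' h
    linarith
  have h3 : g⁻¹ x ∈ S := h2 ⟨x, hx, rfl⟩
  have h4 := hn _ h3
  change g (n (g⁻¹ x)) = x
  rw [h4, ← AlgEquiv.mul_apply, mul_inv_cancel, AlgEquiv.one_apply]

lemma le_of_fixing {K S : IntermediateField ℚ L} (h : S.fixingSubgroup ≤ K.fixingSubgroup) :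
    K ≤ S := by
  have h1 := IntermediateField.fixedField_antitone h
  rwa [IsGalois.fixedField_fixingSubgroup, IsGalois.fixedField_fixingSubgroup] at h1

end lat

lemma prime_count (w : ℕ) (hw : 1 < w) :
    (w : ℝ) ≤ ((Icc 0 (w ^ 32)).filter Nat.Prime).card := by
  have hw2 : (2 : ℝ) ≤ w := by exact_mod_cast hw
  have h1 : (10 : ℝ) ^ 8 ≤ ((w ^ 32 : ℕ) : ℝ) := by
    push_cast
    calc (10 : ℝ) ^ 8 ≤ 2 ^ 32 := by norm_num
      _ ≤ (w : ℝ) ^ 32 := pow_le_pow_left₀ (by norm_num) hw2 32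
  have h2 := pi_lower (w ^ 32) h1
  have h3 : (((Ioc 0 (w ^ 32)).filter Nat.Prime).card : ℝ) ≤
      ((Icc 0 (w ^ 32)).filter Nat.Prime).card := by
    exact_mod_cast Finset.card_le_card (Finset.filter_subset_filter _ Ioc_subset_Icc_self)
  refine le_trans ?_ (h2.trans h3)
  have hlog : 0 < Real.log w := Real.log_pos (by linarith)
  have e1 : Real.log ((w ^ 32 : ℕ) : ℝ) = 32 * Real.log w := by
    push_cast
    rw [Real.log_pow]
    norm_num
  rw [e1, le_div_iff₀ (by positivity)]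
  push_cast
  have h4 : Real.log w ≤ w := (Real.log_le_sub_one_of_pos (by linarith)).trans (by linarith)
  have h5 : (64 : ℝ) ≤ (w : ℝ) ^ 30 := by
    calc (64 : ℝ) ≤ 2 ^ 30 := by norm_num
      _ ≤ (w : ℝ) ^ 30 := pow_le_pow_left₀ (by norm_num) hw2 30
  calc (w : ℝ) * (2 * (32 * Real.log w)) = 64 * (w * Real.log w) := by ring
    _ ≤ (w : ℝ) ^ 30 * (w * w) := by
        apply mul_le_mul h5 _ (by positivity) (by positivity)
        exact mul_le_mul_of_nonneg_left h4 (by linarith)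
    _ = (w : ℝ) ^ 32 := by ring

/-- the Galois closure has controlled discriminant -/
lemma dd_closure {L : Type} [Field L] [NumberField L] [IsGalois ℚ L] (M : IntermediateField ℚ L)
    (hcore : M.fixingSubgroup.normalCore = ⊥) :
    dd L ≤ ccs (finrank ℚ L) + (finrank ℚ L : ℝ) ^ 2 * dd M := by
  have h1 := log_discr_le M.fixingSubgroup hcore
  have h2 : (fixF L M.fixingSubgroup) = M := IsGalois.fixedField_fixingSubgroup M
  rw [h2] at h1
  exact h1

/-- the scale -/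
lemma scale_lat (N l : ℕ) (hN : 0 < N) (hl : 0 < l) : ∃ cs κ : ℝ, 0 ≤ cs ∧ 0 < κ ∧
    ∀ (L : Type) [Field L] [NumberField L] [IsGalois ℚ L] (K : IntermediateField ℚ L),
      finrank ℚ L = N → 2 * cs < dd K →
      ∃ (S : IntermediateField ℚ L) (τ : ℝ), κ * dd K ≤ τ ∧ ¬ K ≤ S ∧
        dd S ≤ cs + 1 / (64 * l * (N : ℝ) ^ 2) * τ ∧
        ∀ F : IntermediateField ℚ L, ¬ F ≤ S → τ < dd F := by
  obtain ⟨cs, hcs, hsc⟩ := exists_scale N
  have hNr : (1 : ℝ) ≤ N := by exact_mod_cast hN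
  have hlr : (1 : ℝ) ≤ l := by exact_mod_cast hl
  have hN2 : (1 : ℝ) ≤ (N : ℝ) ^ 2 := one_le_pow₀ hNr
  set B : ℝ := (N : ℝ) ^ 2 * (64 * l * (N : ℝ) ^ 2) with hB
  have hB1 : 1 ≤ B := by
    rw [hB]
    have h1 : (1 : ℝ) ≤ 64 * l * (N : ℝ) ^ 2 := by
      have : (1 : ℝ) ≤ 64 * l := by linarith
      exact one_le_mul_of_one_le_of_one_le this hN2
    exact one_le_mul_of_one_le_of_one_le hN2 h1
  have hB0 : 0 < B := by linarith
  refine ⟨cs, 1 / (2 * (N : ℝ) ^ 2 * B ^ N), hcs, by positivity, ?_⟩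
  intro L _ _ _ K hL hK
  set κ : ℝ := 1 / (2 * (N : ℝ) ^ 2 * B ^ N) with hκ
  have hκ0 : 0 < κ := by positivity
  have hK0 : 0 ≤ dd K := dd_nonneg K
  obtain ⟨i, S, hi, hS, hbig⟩ := hsc L hL B (κ * dd K) hB1 (by positivity)
  have hBi : 1 ≤ B ^ (i + 1) := one_le_pow₀ hB1
  refine ⟨S, B ^ (i + 1) * (κ * dd K), ?_, ?_, ?_, hbig⟩
  · calc κ * dd K = 1 * (κ * dd K) := (one_mul _).symm
      _ ≤ _ := mul_le_mul_of_nonneg_right hBi (by positivity)
  · intro hle
    have h1 := dd_mono hle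
    have h2 : dd S ≤ cs + (N : ℝ) ^ 2 * (B ^ i * (κ * dd K)) := hS
    have h3 : (N : ℝ) ^ 2 * (B ^ i * (κ * dd K)) ≤ (N : ℝ) ^ 2 * (B ^ N * (κ * dd K)) := by
      apply mul_le_mul_of_nonneg_left _ (by positivity)
      apply mul_le_mul_of_nonneg_right _ (by positivity)
      exact pow_le_pow_right₀ hB1 hi
    have h4 : (N : ℝ) ^ 2 * (B ^ N * (κ * dd K)) = dd K / 2 := by
      rw [hκ]
      field_simp
    linarith
  · have h2 : dd S ≤ cs + (N : ℝ) ^ 2 * (B ^ i * (κ * dd K)) := hS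
    have h3 : (N : ℝ) ^ 2 * (B ^ i * (κ * dd K)) =
        1 / (64 * l * (N : ℝ) ^ 2) * (B ^ (i + 1) * (κ * dd K)) := by
      rw [pow_succ B i, hB]
      field_simp
    rw [← h3]
    exact h2

end Pool.Agent.Lib.MP_695920_nt.Tow
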