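import Mathlib
import Pool.Agent.Lib.MP_695920_nt.Tow.Prep
import Pool.Agent.Lib.MP_695920_nt.Tow.CritB

set_option autoImplicit false

open Finset NumberField Module IsDedekindDomain
open scoped nonZeroDivisors Pointwise IntermediateField

namespace Pool.Agent.Lib.MP_695920_nt.Tow.V2

open Pool.Agent.Lib.MP_695920_nt.Solv

/-- exponent for the range of primes -/
def AA (N : ℕ) : ℕ := 20 * N + 32

/-- the ratio between the length of the range of primes and the scale -/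
noncomputable def eta (l N : ℕ) : ℝ := 1 / (2 * (AA N : ℝ) * l * (N : ℝ) ^ 2)

lemma AA_ge (N : ℕ) : (32 : ℝ) ≤ (AA N : ℝ) := by
  unfold AA
  push_cast
  have : (0 : ℝ) ≤ N := Nat.cast_nonneg N
  linarith

lemma eta_pos {l N : ℕ} (hl : 0 < l) (hN : 0 < N) : 0 < eta l N := by
  have h1 := AA_ge N
  have hNr : (0 : ℝ) < N := by exact_mod_cast hN
  have hlr : (0 : ℝ) < l := by exact_mod_cast hl
  unfold eta
  positivity

lemma eta_eq {l N : ℕ} (hl : 0 < l) (hN : 0 < N) :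
    (l : ℝ) * (N : ℝ) ^ 2 * ((AA N : ℝ) * eta l N) = 1 / 2 := by
  have h1 := AA_ge N
  have hNr : (0 : ℝ) < N := by exact_mod_cast hN
  have hlr : (0 : ℝ) < l := by exact_mod_cast hl
  have h2 : (0 : ℝ) < (AA N : ℝ) := by linarith
  unfold eta
  field_simp

lemma l_eta_le {l N : ℕ} (hl : 0 < l) (hN : 0 < N) : (l : ℝ) * eta l N ≤ 1 / 64 := by
  have h1 := AA_ge N
  have hN1 : (1 : ℝ) ≤ N := by exact_mod_cast hN
  have hlr : (0 : ℝ) < l := by exact_mod_cast hl
  have h2 : (0 : ℝ) < (AA N : ℝ) := by linarith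
  have h3 : (1 : ℝ) ≤ (N : ℝ) ^ 2 := one_le_pow₀ hN1
  have h4 : (l : ℝ) * eta l N = 1 / (2 * (AA N : ℝ) * (N : ℝ) ^ 2) := by
    unfold eta
    field_simp
  rw [h4]
  apply div_le_div_of_nonneg_left (by norm_num) (by norm_num)
  have h5 : (AA N : ℝ) * 1 ≤ (AA N : ℝ) * (N : ℝ) ^ 2 := mul_le_mul_of_nonneg_left h3 h2.le
  linarith

lemma eta_le {l N : ℕ} (hl : 0 < l) (hN : 0 < N) : eta l N ≤ 1 / 64 := by
  have h1 := l_eta_le hl hN
  have h2 := eta_pos hl hN
  have h3 : (1 : ℝ) ≤ l := by exact_mod_cast hl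
  have h4 : 1 * eta l N ≤ l * eta l N := mul_le_mul_of_nonneg_right h3 h2.le
  linarith

/-- the criterion for one normal subgroup -/
def Crit2 (l : ℕ) {G : Type*} [Group G] (H N : Subgroup G) : Prop :=
  (∀ g ∈ N, g ∉ cset H N) ∨ cgrp H N ≠ ⊤ ∨ (l.Prime ∧ l ≠ 2 ∧
    (∃ j : ℕ, H.relIndex (H ⊔ N) = l ^ j) ∧
    ∃ k : ℕ, ∀ x ∈ derivedSeries (H ⊔ N : Subgroup G) k, (x : G) ∈ H)

/-- the scale -/
lemma scale_lat2 (N : ℕ) (hN : 0 < N) (η : ℝ) (hη0 : 0 < η) (hη1 : η ≤ 1) :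
    ∃ cs κ : ℝ, 0 ≤ cs ∧ 0 < κ ∧ κ ≤ 1 ∧
    ∀ (L : Type) [Field L] [NumberField L] [IsGalois ℚ L] (u : ℝ),
      finrank ℚ L = N → 2 * cs < u →
      ∃ (S : IntermediateField ℚ L) (τ : ℝ), κ * u ≤ τ ∧
        (∀ K : IntermediateField ℚ L, u ≤ dd K → ¬ K ≤ S) ∧
        dd S ≤ cs + η / 2 * τ ∧
        ∀ F : IntermediateField ℚ L, ¬ F ≤ S → τ < dd F := by
  obtain ⟨cs, hcs, hsc⟩ := exists_scale N
  have hNr : (1 : ℝ) ≤ N := by exact_mod_cast hN
  have hN2 : (1 : ℝ) ≤ (N : ℝ) ^ 2 := one_le_pow₀ hNr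
  set B : ℝ := 2 * (N : ℝ) ^ 2 / η with hB
  have hB1 : 1 ≤ B := by
    rw [hB, le_div_iff₀ hη0]
    linarith
  have hB0 : 0 < B := by linarith
  have hBN : 1 ≤ B ^ N := one_le_pow₀ hB1
  refine ⟨cs, 1 / (2 * (N : ℝ) ^ 2 * B ^ N), hcs, by positivity, ?_, ?_⟩
  · rw [div_le_one (by positivity)]
    have h1 : (1 : ℝ) ≤ 2 * (N : ℝ) ^ 2 := by linarith
    exact one_le_mul_of_one_le_of_one_le h1 hBN
  intro L _ _ _ u hL hK
  set κ : ℝ := 1 / (2 * (N : ℝ) ^ 2 * B ^ N) with hκ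
  have hκ0 : 0 < κ := by positivity
  have hK0 : 0 ≤ u := by linarith
  obtain ⟨i, S, hi, hS, hbig⟩ := hsc L hL B (κ * u) hB1 (by positivity)
  have hBi : 1 ≤ B ^ (i + 1) := one_le_pow₀ hB1
  have h2 : dd S ≤ cs + (N : ℝ) ^ 2 * (B ^ i * (κ * u)) := hS
  refine ⟨S, B ^ (i + 1) * (κ * u), ?_, ?_, ?_, hbig⟩
  · calc κ * u = 1 * (κ * u) := (one_mul _).symm
      _ ≤ _ := mul_le_mul_of_nonneg_right hBi (by positivity)
  · intro K hKu hle
    have h1 := dd_mono hle
    have h3 : (N : ℝ) ^ 2 * (B ^ i * (κ * u)) ≤ (N : ℝ) ^ 2 * (B ^ N * (κ * u)) := by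
      apply mul_le_mul_of_nonneg_left _ (by positivity)
      apply mul_le_mul_of_nonneg_right _ (by positivity)
      exact pow_le_pow_right₀ hB1 hi
    have h4 : (N : ℝ) ^ 2 * (B ^ N * (κ * u)) = u / 2 := by
      rw [hκ]
      field_simp
    linarith
  · have h3 : (N : ℝ) ^ 2 * (B ^ i * (κ * u)) = η / 2 * (B ^ (i + 1) * (κ * u)) := by
      rw [pow_succ B i]
      have h4 : η / 2 * B = (N : ℝ) ^ 2 := by
        rw [hB]; field_simp
      calc (N : ℝ) ^ 2 * (B ^ i * (κ * u)) = (η / 2 * B) * (B ^ i * (κ * u)) := by rw [h4]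
        _ = _ := by ring
    rw [← h3]
    exact h2

/-- the relative step, also for the exponents where it is void -/
lemma step_all (l n : ℕ) (ε : ℝ) (hε : 0 < ε) :
    ∃ C c : ℝ, 0 < C ∧ 0 ≤ c ∧ (l.Prime → l ≠ 2 → ∀ (L : Type) [Field L] [NumberField L]
      [IsGalois ℚ L]
      (F M : IntermediateField ℚ L), F ⋖ M → finrank ℚ L = n →
      (∃ k, ∀ x ∈ derivedSeries F.fixingSubgroup k, (x : Gal(L/ℚ)) ∈ M.fixingSubgroup) →
      (∃ j, finrank ℚ M = finrank ℚ F * l ^ j) →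
      (∃ p : ℕ, p.Prime ∧ ¬ p ∣ (discr L).natAbs ∧ ¬ TwoUp F M L p) →
      ∃ (E : IntermediateField ℚ L) (a : ℕ), F ≤ E ∧ 1 ≤ a ∧ a < l ∧
        (∀ p : ℕ, p.Prime → ¬ p ∣ (discr L).natAbs → ¬ TwoUp F M L p →
          ∀ E0 : IntermediateField ℚ L, F ≤ E0 → E0 < E → TwoUp E0 E L p) ∧
        (Nat.card {x : ClassGroup (𝓞 M) // x ^ l = 1} : ℝ) ≤
          C * Real.exp (ε * Real.log |(discr L : ℝ)|) *
          (Nat.card {x : ClassGroup (𝓞 E) // x ^ l = 1} : ℝ) ^ a *
          (Nat.card {x : ClassGroup (𝓞 F) // x ^ l = 1} : ℝ) ∧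
        (a : ℝ) * Real.log |(discr E : ℝ)| + Real.log |(discr F : ℝ)| ≤
          Real.log |(discr M : ℝ)| + c) := by
  by_cases h : l.Prime ∧ l ≠ 2
  · obtain ⟨C, c, hC, hc, hm⟩ := step_lat l n h.1 h.2 ε hε
    exact ⟨C, c, hC, hc, fun _ _ => hm⟩
  · exact ⟨1, 0, one_pos, le_refl _, fun h1 h2 => absurd ⟨h1, h2⟩ h⟩

/-- counting with the primes of the second kind -/
lemma ev_scaled {L : Type} [Field L] [NumberField L] [IsGalois ℚ L] {l N : ℕ} (hl : 0 < l)
    (hL : finrank ℚ L = N) (S X : IntermediateField ℚ L) (τ e0 : ℝ)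
    (hτ : 4 * l * (N : ℝ) ^ 2 ≤ τ) (hτ2 : 2 ≤ eta l N * τ)
    (hbig : ∀ F : IntermediateField ℚ L, ¬ F ≤ S → τ < dd F)
    (hev : ∀ (X : IntermediateField ℚ L) (g : ℝ), 1 < finrank ℚ X → 0 < g →
      g * (Nat.card {x : ClassGroup (𝓞 X) // x ^ l = 1} : ℝ) ≤
        Bn (finrank ℚ X) * Real.sqrt |(discr X : ℝ)| * Real.log |(discr X : ℝ)| ^ finrank ℚ X →
      Real.log g + hh l X ≤ dd X / 2 + e0)
    (hX : ¬ X ≤ S) (G : Finset ℕ)
    (hG : ∀ p ∈ G, p.Prime ∧ p ≤ ⌊Real.exp (eta l N * τ)⌋₊ ^ AA N ∧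
      TwoUp (X ⊓ S : IntermediateField ℚ L) X L p)
    (hcard : (⌊Real.exp (eta l N * τ)⌋₊ : ℝ) / 64 ≤ G.card) :
    hh l X ≤ dd X / 2 + e0 - (eta l N * τ - 6) := by
  have hN : 0 < N := by rw [← hL]; exact finrank_pos
  have hNr : (1 : ℝ) ≤ N := by exact_mod_cast hN
  have hlr : (1 : ℝ) ≤ l := by exact_mod_cast hl
  set y : ℝ := eta l N * τ with hy
  set w : ℕ := ⌊Real.exp y⌋₊ with hw
  obtain ⟨hw1, hw2, hw3, hw4, hw5⟩ := floor_exp y (by linarith)
  have hX1 := one_lt_finrank_of_not_le hX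
  have hXN : finrank ℚ X ≤ N := by rw [← hL]; exact finrank_le_top X
  have hw0 : (0 : ℝ) < w := by exact_mod_cast hw1
  have hw1r : (1 : ℝ) ≤ (w : ℝ) ^ AA N := one_le_pow₀ (by exact_mod_cast hw1)
  have hAA := AA_ge N
  have h1 := ev_lat (F := X ⊓ S) (K := X) inf_le_left hl hX1 (Real.exp τ) (Real.exp_pos _) (by
    intro A hAX hA
    have h2 : ¬ A ≤ S := fun h => hA (le_inf hAX h)
    have h3 := hbig A h2
    have h4 := one_le_absdiscr A
    rw [← Real.exp_log (show (0 : ℝ) < |(discr A : ℝ)| by linarith)]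
    exact Real.exp_le_exp.mpr h3.le) G ((w : ℝ) ^ AA N) hw1r (by
    intro p hp
    obtain ⟨a, b, c⟩ := hG p hp
    exact ⟨a, by exact_mod_cast b, c⟩) (by
    rw [Real.log_exp, Real.log_pow]
    have hn1 : (finrank ℚ X : ℝ) ≤ N := by exact_mod_cast hXN
    have hn0 : (1 : ℝ) ≤ finrank ℚ X := by exact_mod_cast hX1.le
    have hlogw : 0 ≤ Real.log (w : ℝ) := Real.log_nonneg (by exact_mod_cast hw1)
    have e1 : (finrank ℚ X : ℝ) * (finrank ℚ X - 1) ≤ (N : ℝ) ^ 2 := by nlinarith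
    have e2 : (finrank ℚ X : ℝ) ^ 2 ≤ (N : ℝ) ^ 2 := pow_le_pow_left₀ (by linarith) hn1 2
    have e3 : (l : ℝ) * finrank ℚ X * (finrank ℚ X - 1) * (AA N * Real.log w) ≤
        l * (N : ℝ) ^ 2 * (AA N * y) := by
      calc (l : ℝ) * finrank ℚ X * (finrank ℚ X - 1) * (AA N * Real.log w)
          = (l : ℝ) * ((finrank ℚ X : ℝ) * (finrank ℚ X - 1)) * (AA N * Real.log w) := by ring
        _ ≤ (l : ℝ) * (N : ℝ) ^ 2 * (AA N * Real.log w) := by
            apply mul_le_mul_of_nonneg_right _ (by positivity)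
            exact mul_le_mul_of_nonneg_left e1 (by linarith)
        _ ≤ _ := by
            apply mul_le_mul_of_nonneg_left _ (by positivity)
            exact mul_le_mul_of_nonneg_left hw4 (by linarith)
    have e4 : l * (N : ℝ) ^ 2 * (AA N * y) = τ / 2 := by
      calc l * (N : ℝ) ^ 2 * (AA N * y) = (l * (N : ℝ) ^ 2 * (AA N * eta l N)) * τ := by
            rw [hy]; ring
        _ = _ := by rw [eta_eq hl hN]; ring
    have e5 : 2 * (l : ℝ) * (finrank ℚ X : ℝ) ^ 2 ≤ 2 * l * (N : ℝ) ^ 2 :=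
      mul_le_mul_of_nonneg_left e2 (by linarith)
    linarith)
  have hg0 : (0 : ℝ) < G.card := by
    have : (0 : ℝ) < (w : ℝ) / 64 := by positivity
    linarith
  have h2 := hev X G.card hX1 hg0 h1
  have h3 : y - 6 ≤ Real.log G.card := by
    have h4 : Real.log ((w : ℝ) / 64) ≤ Real.log G.card :=
      Real.log_le_log (by positivity) hcard
    rw [Real.log_div hw0.ne' (by norm_num)] at h4
    have h5 : Real.log 64 ≤ 5 := by
      rw [show (64 : ℝ) = 2 ^ 6 by norm_num, Real.log_pow]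
      have := Real.log_two_lt_d9
      push_cast
      linarith
    linarith
  linarith

/-- the main case distinction at one scale -/
lemma at_scale {L : Type} [Field L] [NumberField L] [IsGalois ℚ L] {l N : ℕ} (hl : 0 < l)
    (hL : finrank ℚ L = N) (S M : IntermediateField ℚ L) (τ e0 cs st c : ℝ)
    (hτ : 4 * l * (N : ℝ) ^ 2 ≤ τ) (hτ2 : N + 10 + 4 * cs ≤ eta l N * τ)
    (hcs : 0 ≤ cs) (he0 : 0 ≤ e0) (hst0 : 0 ≤ st) (hc0 : 0 ≤ c)
    (hS : dd S ≤ cs + eta l N / 2 * τ)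
    (hdegone : ∀ (E : Type) [Field E] [NumberField E], finrank ℚ E ≤ N → dd E ≤ dd S →
      (⌊Real.exp (eta l N * τ)⌋₊ : ℝ) ≤
        (((Icc 0 (⌊Real.exp (eta l N * τ)⌋₊ ^ (20 * finrank ℚ E))).filter Nat.Prime).filter
        (fun p => (degOne E p).Nonempty)).card)
    (hbig : ∀ F : IntermediateField ℚ L, ¬ F ≤ S → τ < dd F)
    (hram : 2 * dd L ≤ (⌊Real.exp (eta l N * τ)⌋₊ : ℝ) / 128)
    (htriv : ∀ X : IntermediateField ℚ L, hh l X ≤ dd X / 2 + e0)
    (hev : ∀ (X : IntermediateField ℚ L) (g : ℝ), 1 < finrank ℚ X → 0 < g →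
      g * (Nat.card {x : ClassGroup (𝓞 X) // x ^ l = 1} : ℝ) ≤
        Bn (finrank ℚ X) * Real.sqrt |(discr X : ℝ)| * Real.log |(discr X : ℝ)| ^ finrank ℚ X →
      Real.log g + hh l X ≤ dd X / 2 + e0)
    (hstep : l.Prime → l ≠ 2 → ∀ F X : IntermediateField ℚ L, F ⋖ X →
      (∃ k, ∀ x ∈ derivedSeries F.fixingSubgroup k, (x : Gal(L/ℚ)) ∈ X.fixingSubgroup) →
      (∃ j, finrank ℚ X = finrank ℚ F * l ^ j) →
      (∃ p : ℕ, p.Prime ∧ ¬ p ∣ (discr L).natAbs ∧ ¬ TwoUp F X L p) →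
      ∃ (E : IntermediateField ℚ L) (a : ℕ), F ≤ E ∧ 1 ≤ a ∧ a < l ∧
        (∀ p : ℕ, p.Prime → ¬ p ∣ (discr L).natAbs → ¬ TwoUp F X L p →
          ∀ E0 : IntermediateField ℚ L, F ≤ E0 → E0 < E → TwoUp E0 E L p) ∧
        hh l X ≤ st + a * hh l E + hh l F ∧ (a : ℝ) * dd E + dd F ≤ dd X + c)
    (hM : ¬ M ≤ S) (hcrit : S.fixingSubgroup.Normal → Crit2 l M.fixingSubgroup S.fixingSubgroup) :
    hh l M ≤ dd M / 2 - (eta l N * τ - 6) +
      N * (st + c + l * e0 + l * cs) + e0 := by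
  classical
  have hN : 0 < N := by rw [← hL]; exact finrank_pos
  have hNr : (1 : ℝ) ≤ N := by exact_mod_cast hN
  have hlr : (1 : ℝ) ≤ l := by exact_mod_cast hl
  have hηle := eta_le hl hN
  have hlη := l_eta_le hl hN
  have hη0 := eta_pos hl hN
  have hτ0 : 0 ≤ τ := by
    have : (0 : ℝ) ≤ 4 * l * (N : ℝ) ^ 2 := by positivity
    linarith
  have hS' : dd S ≤ cs + eta l N * τ / 2 := by
    have : eta l N / 2 * τ = eta l N * τ / 2 := by ring
    rw [← this]; exact hS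
  clear hS
  set y : ℝ := eta l N * τ with hy
  have hyτ : y ≤ τ / 64 := by
    have := mul_le_mul_of_nonneg_right hηle hτ0
    linarith
  have hlyτ : l * y ≤ τ / 64 := by
    have h1 := mul_le_mul_of_nonneg_right hlη hτ0
    have h2 : (l : ℝ) * y = l * eta l N * τ := by rw [hy]; ring
    rw [h2]
    linarith
  set w : ℕ := ⌊Real.exp y⌋₊ with hw
  obtain ⟨hw1, hw2, hw3, hw4, hw5⟩ := floor_exp y (by linarith)
  have hw0 : (0 : ℝ) < w := by exact_mod_cast hw1
  have hwgt : 1 < w := by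
    have h1 : (1 : ℝ) < w := by
      have h2 : (1 : ℝ) < Real.exp (y - 1) := Real.one_lt_exp_iff.mpr (by linarith)
      linarith
    exact_mod_cast h1
  -- `S` is normal
  have hSn : S.fixingSubgroup.Normal := by
    apply fix_normal
    intro F hF
    have := hbig F hF
    linarith
  have he : 0 ≤ st + c + l * e0 + l * cs := by positivity
  have hNe : 0 ≤ N * (st + c + l * e0 + l * cs) := by positivity
  -- the primes
  set PP := (Icc 0 (w ^ AA N)).filter Nat.Prime with hPP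
  set G2 := PP.filter (fun p => TwoUp (M ⊓ S : IntermediateField ℚ L) M L p) with hG2
  set BD := PP.filter (fun p => p ∣ (discr L).natAbs) with hBD
  set Q := PP.filter (fun p => ¬ p ∣ (discr L).natAbs ∧
    ¬ TwoUp (M ⊓ S : IntermediateField ℚ L) M L p) with hQ
  by_cases hcase : (w : ℝ) / 64 ≤ G2.card
  · have h1 := ev_scaled hl hL S M τ e0 hτ (by linarith) hbig hev hM G2 (by
      intro p hp
      rw [hG2, mem_filter, hPP, mem_filter, mem_Icc] at hp
      exact ⟨hp.1.2, hp.1.1.2, hp.2⟩) hcase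
    linarith
  push Not at hcase
  have hBDc : (BD.card : ℝ) ≤ (w : ℝ) / 128 := by
    refine le_trans (card_ramified_le' (L := L) BD ?_) hram
    intro p hp
    rw [hBD, mem_filter, hPP, mem_filter] at hp
    exact ⟨hp.1.2, hp.2⟩
  -- the complement of `Q` is small
  have hcompl : ∀ T : Finset ℕ, T ⊆ PP → (∀ p ∈ T, p ∉ Q) → (T.card : ℝ) < (w : ℝ) / 32 := by
    intro T hT hTQ
    have h1 : T ⊆ BD ∪ G2 := by
      intro p hp
      have h2 := hTQ p hp
      rw [hQ, mem_filter] at h2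
      push Not at h2
      rw [mem_union]
      by_cases h3 : p ∣ (discr L).natAbs
      · exact Or.inl (mem_filter.mpr ⟨hT hp, h3⟩)
      · exact Or.inr (mem_filter.mpr ⟨hT hp, h2 (hT hp) h3⟩)
    have h2 : (T.card : ℝ) ≤ BD.card + G2.card := by
      exact_mod_cast (Finset.card_le_card h1).trans (Finset.card_union_le _ _)
    linarith
  have hw1' : 1 ≤ w := by omega
  have hsub : ∀ k ≤ AA N, (Icc 0 (w ^ k)).filter Nat.Prime ⊆ PP := by
    intro k hk
    rw [hPP]
    apply Finset.filter_subset_filter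
    exact Finset.Icc_subset_Icc_right (Nat.pow_le_pow_right hw1' hk)
  have hsub32 := hsub 32 (by unfold AA; omega)
  have hPPc : (w : ℝ) ≤ PP.card :=
    (prime_count w hwgt).trans (by exact_mod_cast Finset.card_le_card hsub32)
  have hQc : (w : ℝ) / 64 ≤ Q.card := by
    have h1 := hcompl (PP \ Q) Finset.sdiff_subset (fun p hp => (mem_sdiff.mp hp).2)
    have h2 : (PP.card : ℝ) = ((PP \ Q).card : ℝ) + Q.card := by
      have h3 := Finset.card_sdiff_add_card_eq_card (Finset.filter_subset (fun p =>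
        ¬ p ∣ (discr L).natAbs ∧ ¬ TwoUp (M ⊓ S : IntermediateField ℚ L) M L p) PP)
      rw [← hQ] at h3
      exact_mod_cast h3.symm
    linarith
  have hQne : Q.Nonempty := by
    rw [Finset.nonempty_iff_ne_empty]
    intro h
    rw [h, Finset.card_empty, Nat.cast_zero] at hQc
    linarith
  have hQmem : ∀ p ∈ Q, p.Prime ∧ p ≤ w ^ AA N ∧ ¬ p ∣ (discr L).natAbs ∧
      ¬ TwoUp (M ⊓ S : IntermediateField ℚ L) M L p := by
    intro p hp
    rw [hQ, mem_filter, hPP, mem_filter, mem_Icc] at hp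
    exact ⟨hp.1.2, hp.1.1.2, hp.2⟩
  obtain ⟨p0, hp0⟩ := hQne
  obtain ⟨hp0p, -, hp0u, hp0t⟩ := hQmem p0 hp0
  rcases hcrit hSn with hc1 | hc2 | ⟨hlp, hl2, ⟨j, hj⟩, ⟨k, hk⟩⟩
  · exfalso
    have hfS : fixF L S.fixingSubgroup = S := IsGalois.fixedField_fixingSubgroup S
    have h1 := hdegone (fixF L S.fixingSubgroup) (by
      rw [← hL]; exact finrank_le_top (fixF L S.fixingSubgroup)) (by rw [hfS])
    have hle20 : 20 * finrank ℚ (fixF L S.fixingSubgroup) ≤ AA N := by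
      have : finrank ℚ (fixF L S.fixingSubgroup) ≤ N := by
        rw [← hL]; exact finrank_le_top (fixF L S.fixingSubgroup)
      unfold AA
      omega
    have h2 := hcompl (((Icc 0 (w ^ (20 * finrank ℚ (fixF L S.fixingSubgroup)))).filter
      Nat.Prime).filter (fun p => (degOne (fixF L S.fixingSubgroup) p).Nonempty))
      ((Finset.filter_subset _ _).trans (hsub _ hle20)) (by
        intro p hp hpQ
        rw [mem_filter] at hp
        obtain ⟨a, -, b, c⟩ := hQmem p hpQ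
        obtain ⟨g, hg1, hg2⟩ := frob_mem_both M S a b hSn c hp.2
        exact hc1 g hg1 hg2)
    linarith
  · exfalso
    set R := cgrp M.fixingSubgroup S.fixingSubgroup with hR
    have hRS : S.fixingSubgroup ≤ R := fun x hx => Subgroup.subset_closure (Or.inr hx)
    have hER : (fixF L R).fixingSubgroup = R := IntermediateField.fixingSubgroup_fixedField R
    have hES : fixF L R ≤ S := by
      apply le_of_fixing
      rw [hER]
      exact hRS
    have hE1 : 1 < finrank ℚ (fixF L R) := by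
      apply one_lt_finrank_of_not_le (S := ⊥)
      intro h
      apply hc2
      rw [← hER, le_bot_iff.mp h, IntermediateField.fixingSubgroup_bot]
    have hddE : dd (fixF L R) ≤ cs + y / 2 := (dd_mono hES).trans hS'
    have hns := nonsplit hE1 w hwgt (by
      have h1 : (finrank ℚ (fixF L R) : ℝ) ≤ N := by
        rw [← hL]; exact_mod_cast finrank_le_top (fixF L R)
      have h2 : Real.log |(discr (fixF L R) : ℝ)| ≤ cs + y / 2 := hddE
      linarith)
    have h3 := hcompl (((Icc 0 (w ^ 32)).filter Nat.Prime).filter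
      (fun p => (degOne (fixF L R) p).card < finrank ℚ (fixF L R)))
      ((Finset.filter_subset _ _).trans hsub32) (by
        intro p hp hpQ
        rw [mem_filter] at hp
        obtain ⟨a, -, b, c⟩ := hQmem p hpQ
        obtain ⟨-, h4⟩ := splits_cgrp M S a b hSn c
        exact absurd hp.2 (not_lt.mpr h4))
    linarith
  · -- the tower
    have hdeg : finrank ℚ M = finrank ℚ (M ⊓ S : IntermediateField ℚ L) * l ^ j := by
      rw [finrank_index (F := ℚ) M, finrank_index (F := ℚ) (M ⊓ S : IntermediateField ℚ L),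
        fixing_inf, ← Subgroup.relIndex_mul_index
          (le_sup_left : M.fixingSubgroup ≤ M.fixingSubgroup ⊔ S.fixingSubgroup), hj, mul_comm]
    have hltM : M ⊓ S < M := by
      refine lt_of_le_of_ne inf_le_left ?_
      intro h
      exact hM (inf_eq_left.mp h)
    have hmain := tower_ind M S (fun X => hh l X) (fun X => dd X) l τ (cs + y) e0 (y - 6) st c
      (st + c + l * e0 + l * cs) (by linarith) he0 (by linarith) he htriv
      (fun X hX => ((dd_mono hX).trans hS').trans (by linarith)) (fun X hX => (hbig X hX).le) ?_ ?_ ?_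
      (finrank ℚ M) M rfl hltM le_rfl
    · have h1 : (finrank ℚ M : ℝ) ≤ N := by rw [← hL]; exact_mod_cast finrank_le_top M
      have h2 : (finrank ℚ M : ℝ) * (st + c + l * e0 + l * cs) ≤
          N * (st + c + l * e0 + l * cs) := mul_le_mul_of_nonneg_right h1 he
      linarith
    · intro F X hF hX hFX
      have htwo : ∀ p ∈ Q, ¬ TwoUp F X L p := fun p hp h =>
        (hQmem p hp).2.2.2 (h.mono hF hX)
      obtain ⟨E, a, hFE, ha1, hal, hE, hcl, hdd⟩ := hstep hlp hl2 F X hFX (by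
          refine ⟨k, ?_⟩
          intro x hx
          have hle : F.fixingSubgroup ≤ M.fixingSubgroup ⊔ S.fixingSubgroup := by
            rw [← fixing_inf]
            exact IntermediateField.fixingSubgroup_antitone hF
          have h1 : Subgroup.inclusion hle x ∈ derivedSeries
              (M.fixingSubgroup ⊔ S.fixingSubgroup : Subgroup Gal(L/ℚ)) k :=
            map_derivedSeries_le_derivedSeries (Subgroup.inclusion hle) k ⟨x, hx, rfl⟩
          exact IntermediateField.fixingSubgroup_antitone hX (hk _ h1)) (by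
          obtain ⟨a, ha⟩ := finrank_dvd hF
          obtain ⟨b, hb⟩ := finrank_dvd hFX.le
          obtain ⟨c', hc'⟩ := finrank_dvd hX
          have h1 : finrank ℚ (M ⊓ S : IntermediateField ℚ L) * (a * b * c') =
              finrank ℚ (M ⊓ S : IntermediateField ℚ L) * l ^ j := by
            rw [← hdeg, hc', hb, ha]; ring
          have h2 : a * b * c' = l ^ j := Nat.eq_of_mul_eq_mul_left finrank_pos h1
          have h3 : b ∣ l ^ j := by
            rw [← h2]
            exact ⟨a * c', by ring⟩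
          obtain ⟨j', -, hj'⟩ := (Nat.dvd_prime_pow hlp).mp h3
          exact ⟨j', by rw [hb, hj']⟩) ⟨p0, hp0p, hp0u, htwo p0 hp0⟩
      refine ⟨E, a, ha1, hal, ?_, hcl, hdd⟩
      intro hF0 hES
      apply ev_scaled hl hL S E τ e0 hτ (by linarith) hbig hev hES Q _ hQc
      intro p hp
      obtain ⟨a1, a2, a3, -⟩ := hQmem p hp
      refine ⟨a1, a2, hE p a1 a3 (htwo p hp) (E ⊓ S) ?_ ?_⟩
      · refine le_inf hFE ?_
        rw [hF0]
        exact inf_le_right
      · refine lt_of_le_of_ne inf_le_left ?_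
        intro h
        exact hES (inf_eq_left.mp h)
    · have h1 : (l : ℝ) * ((cs + y) / 2 + e0) = l * cs / 2 + l * y / 2 + l * e0 := by ring
      have h2 : 0 ≤ (l : ℝ) * cs := by positivity
      rw [h1]
      linarith
    · have h2 : 0 ≤ (l : ℝ) * cs := by positivity
      linarith

end Pool.Agent.Lib.MP_695920_nt.Tow.V2
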