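import Mathlib
import Pool.Agent.Lib.MP_695920_nt.Tow.Fin2
import Pool.Agent.Lib.MP_695920_nt.Tow.DegC

set_option autoImplicit false

open Finset NumberField Module IsDedekindDomain
open scoped nonZeroDivisors Pointwise IntermediateField

namespace Pool.Agent.Lib.MP_695920_nt.Tow.V2

open Pool.Agent.Lib.MP_695920_nt.Solv

/-- many primes with a factor of degree one, uniformly in the degree -/
lemma degone_unif (N : ℕ) : ∃ w0 : ℕ, ∀ (E : Type) [Field E] [NumberField E],
    finrank ℚ E ≤ N → ∀ w : ℕ, w0 ≤ w → dd E ≤ Real.log w →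
    (w : ℝ) ≤ (((Icc 0 (w ^ (20 * finrank ℚ E))).filter Nat.Prime).filter
      (fun p => (degOne E p).Nonempty)).card := by
  choose w0 hw0 using fun (n : ℕ) => degone_many (n + 1) (Nat.succ_pos n)
  refine ⟨∑ n ∈ range N, w0 n, ?_⟩
  intro E _ _ hE w hw hd
  obtain ⟨n, hn⟩ : ∃ n, finrank ℚ E = n + 1 :=
    Nat.exists_eq_succ_of_ne_zero (finrank_pos : 0 < finrank ℚ E).ne'
  rw [hn]
  apply hw0 n E hn w _ hd
  refine le_trans ?_ hw
  exact Finset.single_le_sum (f := w0) (fun _ _ => Nat.zero_le _) (Finset.mem_range.mpr (by omega))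

/-- the criterion theorem in logarithmic form, for a fixed degree of the Galois closure -/
theorem main_log2 (l N : ℕ) (hl : 0 < l) (hN : 0 < N) : ∃ δ : ℝ, 0 < δ ∧ ∀ ε : ℝ, 0 < ε →
    ∃ C : ℝ, 0 ≤ C ∧ ∀ (L : Type) [Field L] [NumberField L] [IsGalois ℚ L]
      (M S0 : IntermediateField ℚ L) (KK : Set (IntermediateField ℚ L)) (u : ℝ),
      finrank ℚ L = N → M.fixingSubgroup.normalCore = ⊥ → (∃ K ∈ KK, K ≤ M) →
      (∀ K ∈ KK, u ≤ dd K) →
      (∀ N' : Subgroup Gal(L/ℚ), N'.Normal → N' ≤ S0.fixingSubgroup →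
        (∀ K ∈ KK, ¬ N' ≤ K.fixingSubgroup) → Crit2 l M.fixingSubgroup N') →
      hh l M ≤ (1 / 2 + ε) * dd M + dd S0 - δ * u + C := by
  have hNr : (1 : ℝ) ≤ N := by exact_mod_cast hN
  have hlr : (1 : ℝ) ≤ l := by exact_mod_cast hl
  have hN2 : (1 : ℝ) ≤ (N : ℝ) ^ 2 := one_le_pow₀ hNr
  set η : ℝ := eta l N with hη
  have hη0 : 0 < η := eta_pos hl hN
  have hηle : η ≤ 1 / 64 := eta_le hl hN
  obtain ⟨cs, κ, hcs, hκ, hκ1, hsc⟩ := scale_lat2 N hN η hη0 (by linarith)
  obtain ⟨w0, hw0⟩ := degone_unif N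
  refine ⟨η * κ, by positivity, ?_⟩
  intro ε hε
  set A : ℝ := N * (1 + l) + 3 with hA
  have hA0 : 0 < A := by rw [hA]; positivity
  set ε1 : ℝ := ε / (A * (N : ℝ) ^ 2) with hε1
  have hε10 : 0 < ε1 := by rw [hε1]; positivity
  have hAε : A * ε1 * (N : ℝ) ^ 2 = ε := by rw [hε1]; field_simp
  obtain ⟨CT, hCT, htr⟩ := triv_lat l N hl ε1 hε10
  obtain ⟨CW, cW, hCW, hcW, hst⟩ := step_all l N ε1 hε10
  set τ0 : ℝ := 4 * l * (N : ℝ) ^ 2 + (N + 10 + 4 * cs + w0) / η with hτ0
  have hτ00 : 0 ≤ τ0 := by rw [hτ0]; positivity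
  set u0 : ℝ := 2 * cs + τ0 / κ with hu0
  have hu00 : 0 ≤ u0 := by rw [hu0]; positivity
  have hccs := ccs_nonneg N
  refine ⟨η * κ * u0 + 7 + |Real.log ε1| + N * (|Real.log CW| + cW + l * CT + l * cs) + CT +
    ε * ccs N, by positivity, ?_⟩
  intro L _ _ _ M S0 KK u hL hcore hKM hKu hcrit
  obtain ⟨htriv, hev⟩ := htr L hL
  have hΛ := dd_closure M hcore
  rw [hL] at hΛ
  have hU0 := dd_nonneg M
  have hΛ0 := dd_nonneg L
  have hS00 := dd_nonneg S0
  -- the error terms in terms of the discriminant of `M`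
  have herr : A * (ε1 * dd L) ≤ ε * ccs N + ε * dd M := by
    have h1 : A * (ε1 * dd L) ≤ A * (ε1 * (ccs N + (N : ℝ) ^ 2 * dd M)) := by
      apply mul_le_mul_of_nonneg_left _ hA0.le
      exact mul_le_mul_of_nonneg_left hΛ hε10.le
    have h2 : A * (ε1 * (ccs N + (N : ℝ) ^ 2 * dd M)) = A * ε1 * ccs N + ε * dd M := by
      rw [← hAε]; ring
    have h3 : A * ε1 * ccs N ≤ ε * ccs N := by
      apply mul_le_mul_of_nonneg_right _ hccs
      rw [← hAε]
      exact le_mul_of_one_le_right (by positivity) hN2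
    linarith
  set x : ℝ := ε1 * dd L with hx
  have hx0 : 0 ≤ x := by rw [hx]; positivity
  have hA3 : 3 * x ≤ A * x := by
    apply mul_le_mul_of_nonneg_right _ hx0
    rw [hA]
    have : (0 : ℝ) ≤ N * (1 + l) := by positivity
    linarith
  have hNS : 0 ≤ N * (|Real.log CW| + cW + l * CT + l * cs) := by positivity
  have habs : 0 ≤ |Real.log ε1| := abs_nonneg _
  have hδu0 : 0 ≤ η * κ * u0 := by positivity
  have htM := htriv M
  rcases le_or_gt u u0 with hsmall | hlarge
  · -- small discriminant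
    have h1 : η * κ * u ≤ η * κ * u0 := mul_le_mul_of_nonneg_left hsmall (by positivity)
    linarith
  have hupos : 0 ≤ u := by linarith
  -- the base field is not small
  by_cases hS0small : dd S0 ≤ κ * u
  swap
  · push Not at hS0small
    have h1 : η * κ * u ≤ κ * u := by
      have h2 : 0 ≤ κ * u := by positivity
      have h3 : η * (κ * u) ≤ 1 * (κ * u) := mul_le_mul_of_nonneg_right (by linarith) h2
      linarith
    linarith
  -- large discriminant
  have hcsK : 2 * cs < u := by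
    have : 0 ≤ τ0 / κ := by positivity
    linarith
  obtain ⟨S, τ, hτ, hKS, hS, hbig⟩ := hsc L u hL hcsK
  have hS0S : S0 ≤ S := by
    by_contra h
    have := hbig S0 h
    linarith
  have hτ1 : τ0 ≤ τ := by
    refine le_trans ?_ hτ
    have h1 : τ0 / κ ≤ u := by linarith
    rw [div_le_iff₀ hκ] at h1
    linarith
  have hητ : η * κ * u ≤ η * τ := by
    have := mul_le_mul_of_nonneg_left hτ hη0.le
    linarith
  have hc1 : 4 * l * (N : ℝ) ^ 2 ≤ τ := by
    have : 0 ≤ (N + 10 + 4 * cs + w0) / η := by positivity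
    linarith
  have hc2 : N + 10 + 4 * cs + w0 ≤ η * τ := by
    have h1 : (N + 10 + 4 * cs + w0) / η ≤ τ := by
      have : (0 : ℝ) ≤ 4 * l * (N : ℝ) ^ 2 := by positivity
      linarith
    rw [div_le_iff₀ hη0] at h1
    linarith
  have hw00 : (0 : ℝ) ≤ w0 := Nat.cast_nonneg _
  have hMS : ¬ M ≤ S := by
    obtain ⟨K, hK, hKM⟩ := hKM
    exact fun h => hKS K (hKu K hK) (hKM.trans h)
  obtain ⟨hw1, -, hw3, -, hw5⟩ := floor_exp (η * τ) (by linarith)
  by_cases hram : 2 * dd L ≤ (⌊Real.exp (η * τ)⌋₊ : ℝ) / 128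
  swap
  · -- very large discriminant of the closure
    push Not at hram
    have hw0' : (0 : ℝ) < (⌊Real.exp (η * τ)⌋₊ : ℝ) := by exact_mod_cast hw1
    have hΛpos : 0 < dd L := by
      by_contra h
      have h1 : dd L = 0 := le_antisymm (not_lt.mp h) hΛ0
      rw [h1] at hram
      linarith
    have h1 : Real.log (⌊Real.exp (η * τ)⌋₊ : ℝ) ≤ Real.log (256 * dd L) := by
      apply Real.log_le_log hw0'
      linarith
    rw [Real.log_mul (by norm_num) hΛpos.ne'] at h1
    have h2 := log_le_eps hε10 hΛpos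
    have h3 : Real.log 256 ≤ 6 := by
      rw [show (256 : ℝ) = 2 ^ 8 by norm_num, Real.log_pow]
      have := Real.log_two_lt_d9
      push_cast
      linarith
    linarith
  have h1 := at_scale hl hL S M τ (CT + x) cs (|Real.log CW| + x) cW hc1 (by linarith) hcs
    (by positivity) (by positivity) hcW hS ?_ hbig hram htriv hev ?_ hMS
    (fun hn => hcrit _ hn (IntermediateField.fixingSubgroup_antitone hS0S)
      (fun K hK h => hKS K (hKu K hK) (le_of_fixing h)))
  · have e1 : N * (|Real.log CW| + x + cW + l * (CT + x) + l * cs) + (CT + x) =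
        N * (|Real.log CW| + cW + l * CT + l * cs) + CT + (A - 2) * x := by
      rw [hA]; ring
    have e2 : (A - 2) * x ≤ A * x := mul_le_mul_of_nonneg_right (by linarith) hx0
    linarith
  · intro E _ _ hEN hES
    apply hw0 E hEN
    · have h2 : (w0 : ℝ) ≤ (⌊Real.exp (η * τ)⌋₊ : ℝ) := by
        refine le_trans ?_ hw3
        have := Real.add_one_le_exp (η * τ - 1)
        linarith
      exact_mod_cast h2
    · refine (hES.trans hS).trans ?_
      have : η / 2 * τ = η * τ / 2 := by ring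
      rw [this]
      linarith
  · intro hlp hl2 F X hFX hsol hdeg hex
    obtain ⟨E, a, hFE, ha1, hal, hE, hcl, hdd⟩ := hst hlp hl2 L F X hFX hL hsol hdeg hex
    refine ⟨E, a, hFE, ha1, hal, hE, ?_, hdd⟩
    have hcE := one_le_card l E
    have hcF := one_le_card l F
    have hcX := one_le_card l X
    have h2 := Real.log_le_log (by linarith) hcl
    rw [Real.log_mul (by positivity) (by positivity), Real.log_mul (by positivity) (by positivity),
      Real.log_mul (by positivity) (by positivity), Real.log_exp, Real.log_pow] at h2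
    have h3 := le_abs_self (Real.log CW)
    have h4 : hh l X ≤ Real.log CW + x + a * hh l E + hh l F := h2
    linarith

end Pool.Agent.Lib.MP_695920_nt.Tow.V2
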