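import Mathlib
import Pool.Agent.Lib.MP_695920_nt.Tow.Crite2

set_option autoImplicit false

open Finset NumberField Module IsDedekindDomain
open scoped nonZeroDivisors Pointwise IntermediateField

namespace Pool.Agent.Lib.MP_695920_nt.Tow.V2

open Pool.Agent.Lib.MP_695920_nt.Solv

/-- a group with a core-free subgroup of index `n` has order at most `n!` -/
lemma card_le_factorial {G : Type*} [Group G] [Finite G] (H : Subgroup G)
    (hcore : H.normalCore = ⊥) : Nat.card G ≤ (H.index).factorial := by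
  classical
  have h1 : Function.Injective (MulAction.toPermHom G (G ⧸ H)) := by
    rw [← MonoidHom.ker_eq_bot_iff, ← Subgroup.normalCore_eq_ker, hcore]
  have h2 := Nat.card_le_card_of_injective _ h1
  have h3 : Nat.card (Equiv.Perm (G ⧸ H)) = (H.index).factorial := by
    rw [Nat.card_perm]
    rfl
  rwa [h3] at h2

/-- the criterion theorem -/
theorem crit_main (n l : ℕ) (hl : 0 < l) : ∃ δ : ℝ, 0 < δ ∧ ∀ ε : ℝ, 0 < ε →
    ∃ C : ℝ, ∀ (L : Type) [Field L] [NumberField L] [IsGalois ℚ L]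
      (M S0 : IntermediateField ℚ L) (KK : Set (IntermediateField ℚ L)) (T : ℝ),
      finrank ℚ M = n → M.fixingSubgroup.normalCore = ⊥ → 0 < T → (∃ K ∈ KK, K ≤ M) →
      (∀ K ∈ KK, T ≤ |(discr K : ℝ)|) →
      (∀ N' : Subgroup Gal(L/ℚ), N'.Normal → N' ≤ S0.fixingSubgroup →
        (∀ K ∈ KK, ¬ N' ≤ K.fixingSubgroup) → Crit2 l M.fixingSubgroup N') →
      (Nat.card {x : ClassGroup (𝓞 M) // x ^ l = 1} : ℝ) ≤
        C * |(discr M : ℝ)| ^ (1 / 2 + ε) * |(discr S0 : ℝ)| * T ^ (-δ) := by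
  classical
  choose δ hδ hmain using fun (N : ℕ) => main_log2 l (N + 1) hl (Nat.succ_pos N)
  have hinv : ∀ N, 0 < (δ N)⁻¹ := fun N => inv_pos.mpr (hδ N)
  have hne : (range (n.factorial)).Nonempty := ⟨0, Finset.mem_range.mpr n.factorial_pos⟩
  have hsum : 0 < ∑ N ∈ range (n.factorial), (δ N)⁻¹ := Finset.sum_pos (fun N _ => hinv N) hne
  refine ⟨(∑ N ∈ range (n.factorial), (δ N)⁻¹)⁻¹, inv_pos.mpr hsum, ?_⟩
  intro ε hε
  choose C hC hmain2 using fun (N : ℕ) => hmain N ε hε
  refine ⟨Real.exp (∑ N ∈ range (n.factorial), C N), ?_⟩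
  intro L _ _ _ M S0 KK T hM hcore hT0 hKM hKT hcrit
  set δ' := (∑ N ∈ range (n.factorial), (δ N)⁻¹)⁻¹ with hδ'
  have hδ'0 : 0 < δ' := inv_pos.mpr hsum
  -- the degree of the closure
  have hLn : finrank ℚ L ≤ n.factorial := by
    rw [← IsGalois.card_aut_eq_finrank ℚ L, ← hM, finrank_index (F := ℚ) M]
    exact card_le_factorial _ hcore
  obtain ⟨N, hN⟩ : ∃ N, finrank ℚ L = N + 1 :=
    Nat.exists_eq_succ_of_ne_zero (finrank_pos : 0 < finrank ℚ L).ne'
  have hNmem : N ∈ range (n.factorial) := Finset.mem_range.mpr (by omega)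
  have hKu : ∀ K ∈ KK, Real.log T ≤ dd K := fun K hK => Real.log_le_log hT0 (hKT K hK)
  have h2 : δ' ≤ δ N := by
    rw [hδ', inv_le_comm₀ hsum (hδ N)]
    exact Finset.single_le_sum (f := fun N => (δ N)⁻¹) (fun N _ => (hinv N).le) hNmem
  have hx1 : δ' / δ N ≤ 1 := (div_le_one (hδ N)).mpr h2
  have hx0 : 0 ≤ δ' / δ N := by have := hδ N; positivity
  have h3 : C N ≤ ∑ N ∈ range (n.factorial), C N :=
    Finset.single_le_sum (f := C) (fun N _ => hC N) hNmem
  have hu : ∀ K ∈ KK, δ' / δ N * Real.log T ≤ dd K := by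
    intro K hK
    rcases le_or_gt 0 (Real.log T) with h | h
    · calc δ' / δ N * Real.log T ≤ 1 * Real.log T := mul_le_mul_of_nonneg_right hx1 h
        _ ≤ dd K := by rw [one_mul]; exact hKu K hK
    · refine le_trans ?_ (dd_nonneg K)
      exact mul_nonpos_of_nonneg_of_nonpos hx0 h.le
  have h1 := hmain2 N L M S0 KK (δ' / δ N * Real.log T) hN hcore hKM hu hcrit
  have h4 : δ N * (δ' / δ N * Real.log T) = δ' * Real.log T := by
    have := (hδ N).ne'
    field_simp
  rw [h4] at h1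
  have h5 : hh l M ≤ (∑ N ∈ range (n.factorial), C N) + (1 / 2 + ε) * dd M + dd S0 -
      δ' * Real.log T := by
    linarith
  have hcard := one_le_card l M
  have hDM := one_le_absdiscr M
  have hDS := one_le_absdiscr S0
  have h6 : (Nat.card {x : ClassGroup (𝓞 M) // x ^ l = 1} : ℝ) = Real.exp (hh l M) := by
    unfold hh
    rw [Real.exp_log (by linarith)]
  rw [h6]
  refine (Real.exp_le_exp.mpr h5).trans (le_of_eq ?_)
  rw [Real.rpow_def_of_pos (by linarith), Real.rpow_def_of_pos hT0]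
  have h7 : |(discr S0 : ℝ)| = Real.exp (dd S0) := (Real.exp_log (by linarith)).symm
  rw [h7, ← Real.exp_add, ← Real.exp_add, ← Real.exp_add]
  congr 1
  unfold dd
  ring

end Pool.Agent.Lib.MP_695920_nt.Tow.V2
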