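import Mathlib
import Pool.Agent.Lib.MP_695920_nt.Solv.Red

set_option autoImplicit false

open NumberField Module

namespace Pool.Agent.Lib.MP_695920_nt.Tow

open IntermediateField

variable (K L : Type) [Field K] [NumberField K] [Field L] [NumberField L] [Algebra K L]
  [IsGalois ℚ L]

/-- A subfield `K` of a Galois field `L` is realised inside its normal closure `M`; the
automorphisms of `M` are the restrictions of those of `L`. -/
theorem exists_closure :
    ∃ (M : IntermediateField ℚ L) (_ : IsGalois ℚ M) (j : K →ₐ[ℚ] M),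
      (⨆ σ : M ≃ₐ[ℚ] M, j.fieldRange.map (σ : M →ₐ[ℚ] M)) = ⊤ ∧
      (∀ g : M ≃ₐ[ℚ] M, ∃ g' : L ≃ₐ[ℚ] L, ∀ x : M, g' (x : L) = (g x : M)) ∧
      (∀ f : K →ₐ[ℚ] L, ∃ f' : K →ₐ[ℚ] M, ∀ x : K, (f' x : L) = f x) ∧
      (Group.IsSolvable (L ≃ₐ[ℚ] L) → Group.IsSolvable (M ≃ₐ[ℚ] M)) := by
  classical
  let M : IntermediateField ℚ L := IntermediateField.normalClosure ℚ K L
  have hnormal : Normal ℚ M :=
    _root_.normalClosure.normal ℚ K L
  have hgal : IsGalois ℚ M := {}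
  let i : K →ₐ[ℚ] L := IsScalarTower.toAlgHom ℚ K L
  have hrange : ∀ f : K →ₐ[ℚ] L, ∀ x : K, f x ∈ M := fun f x =>
    AlgHom.fieldRange_le_normalClosure f ⟨x, rfl⟩
  let lift : (K →ₐ[ℚ] L) → (K →ₐ[ℚ] M) := fun f => f.codRestrict M.toSubalgebra (hrange f)
  let j : K →ₐ[ℚ] M := lift i
  let hKM : K ≃ₐ[ℚ] j.fieldRange := AlgEquiv.ofInjectiveField j
  refine ⟨M, hgal, j, ?_, ?_, ?_, ?_⟩
  · -- every embedded copy of `K` is a conjugate of the first one
    have hconj : ∀ (f : K →ₐ[ℚ] L) (x : K),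
        lift f x ∈ (⨆ σ : M ≃ₐ[ℚ] M, j.fieldRange.map (σ : M →ₐ[ℚ] M)) := by
      intro f x
      let e : j.fieldRange →ₐ[ℚ] M := (lift f).comp hKM.symm.toAlgHom
      let b' : M →ₐ[ℚ] M := AlgHom.liftNormal e M
      have hb' : Function.Bijective b' := Algebra.IsAlgebraic.algHom_bijective b'
      let b : M ≃ₐ[ℚ] M := AlgEquiv.ofBijective b' hb'
      have hbx : b (j x) = lift f x := by
        have h1 := AlgHom.liftNormal_commutes e M (hKM x)
        have h2 : algebraMap j.fieldRange M (hKM x) = j x := rfl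
        have h3 : e (hKM x) = lift f x := by
          change (lift f) (hKM.symm (hKM x)) = _
          rw [AlgEquiv.symm_apply_apply]
        rw [h2, h3] at h1
        exact h1
      have hle : j.fieldRange.map (b : M →ₐ[ℚ] M) ≤
          (⨆ σ : M ≃ₐ[ℚ] M, j.fieldRange.map (σ : M →ₐ[ℚ] M)) :=
        le_iSup (fun σ : M ≃ₐ[ℚ] M => j.fieldRange.map (σ : M →ₐ[ℚ] M)) b
      apply hle
      exact ⟨j x, ⟨x, rfl⟩, hbx⟩
    have hle : M ≤ (⨆ σ : M ≃ₐ[ℚ] M, j.fieldRange.map (σ : M →ₐ[ℚ] M)).map M.val := by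
      apply iSup_le
      intro f
      rintro _ ⟨x, rfl⟩
      exact ⟨lift f x, hconj f x, rfl⟩
    rw [eq_top_iff]
    intro x _
    obtain ⟨y, hy, hyx⟩ := hle x.2
    have hyx' : y = x := Subtype.ext hyx
    rw [← hyx']
    exact hy
  · intro g
    obtain ⟨g', hg'⟩ := AlgEquiv.restrictNormalHom_surjective (F := ℚ) (K₁ := M) L g
    refine ⟨g', fun x => ?_⟩
    rw [← hg']
    exact (AlgEquiv.restrictNormal_commutes g' M x).symm
  · exact fun f => ⟨lift f, fun x => rfl⟩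
  · intro hs
    exact Group.isSolvable_of_surjective (AlgEquiv.restrictNormalHom_surjective (F := ℚ) (K₁ := M) L)

end Pool.Agent.Lib.MP_695920_nt.Tow
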